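import Pool.Agent.Helper47K9.SC.Stm

/-!
# [AS1] + [AS2] Asymptotics of the return probability (helper55)

`|L gk L t 0 - θ(4 π² s)| ≤ (1600 / t) θ(8 s)` for `s = t / L²`, `θ u = ∑_m exp (-u m²)`, and the
functional equation of `θ`.
-/

set_option autoImplicit false

namespace Pool.Agent.Helper47K9.SC

open Finset Equiv Pool.Agent.Y998.ST

namespace AsL

/-- the theta function -/
noncomputable def Th (u : ℝ) : ℝ := ∑' m : ℤ, Real.exp (-(u * (m : ℝ) ^ 2))

theorem summ {u : ℝ} (hu : 0 < u) : Summable fun m : ℤ => Real.exp (-(u * (m : ℝ) ^ 2)) := by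
  have h1 : Summable fun n : ℕ => Real.exp (-(u * (n : ℝ) ^ 2)) := by
    refine Summable.of_nonneg_of_le (fun n => (Real.exp_pos _).le) (fun n => ?_)
      (summable_geometric_of_lt_one (Real.exp_pos (-u)).le (by
        rw [← Real.exp_zero]
        exact Real.exp_lt_exp.2 (by linarith)))
    rw [← Real.exp_nat_mul]
    apply Real.exp_le_exp.2
    have h2 : (n : ℝ) ≤ (n : ℝ) ^ 2 := by
      have : n ≤ n ^ 2 := Nat.le_self_pow two_ne_zero n
      exact_mod_cast this
    nlinarith
  refine Summable.of_nat_of_neg (by simpa using h1) ?_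
  simpa using h1

theorem th_nonneg (u : ℝ) : 0 ≤ Th u := tsum_nonneg fun _ => (Real.exp_pos _).le

theorem th_anti {u v : ℝ} (hu : 0 < u) (huv : u ≤ v) : Th v ≤ Th u := by
  refine Summable.tsum_le_tsum (fun m => ?_) (summ (hu.trans_le huv)) (summ hu)
  apply Real.exp_le_exp.2
  have := mul_le_mul_of_nonneg_right huv (sq_nonneg (m : ℝ))
  linarith

theorem one_le {u : ℝ} (hu : 0 < u) : 1 ≤ Th u := by
  have h := (summ hu).le_tsum (0 : ℤ) fun m _ => (Real.exp_pos _).le
  unfold Th
  simpa using h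

/-- comparison of two series -/
theorem diff {F G H : ℤ → ℝ} (hF : Summable F) (hG : Summable G) (hH : Summable H)
    (h : ∀ m, |F m - G m| ≤ H m) : |∑' m, F m - ∑' m, G m| ≤ ∑' m, H m := by
  rw [← hF.tsum_sub hG]
  have h1 : Summable fun m => |F m - G m| :=
    Summable.of_nonneg_of_le (fun _ => abs_nonneg _) h hH
  calc |∑' m, (F m - G m)| ≤ ∑' m, |F m - G m| := by
        have := norm_tsum_le_tsum_norm (f := fun m => F m - G m) (by simpa using h1)
        simpa using this
    _ ≤ ∑' m, H m := Summable.tsum_le_tsum h h1 hH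

theorem exp_diff {A B : ℝ} (h : A ≤ B) :
    |Real.exp (-A) - Real.exp (-B)| ≤ (B - A) * Real.exp (-A) := by
  have h1 : Real.exp (-B) = Real.exp (-A) * Real.exp (-(B - A)) := by
    rw [← Real.exp_add]
    congr 1
    ring
  have h2 : 1 - (B - A) ≤ Real.exp (-(B - A)) := by
    have := Real.add_one_le_exp (-(B - A))
    linarith
  have h3 : Real.exp (-(B - A)) ≤ 1 := Real.exp_le_one_iff.2 (by linarith)
  have h4 := Real.exp_pos (-A)
  rw [abs_of_nonneg (by rw [h1]; nlinarith), h1]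
  nlinarith

theorem exp_le_inv {x : ℝ} (hx : 0 < x) : Real.exp (-x) ≤ 1 / x := by
  rw [Real.exp_neg, one_div]
  apply inv_anti₀ hx
  have := Real.add_one_le_exp x
  linarith

/-- continuity of the theta function -/
theorem th_cont {u v : ℝ} (hv : 0 < v) (huv : |u - v| ≤ v / 2) :
    |Th u - Th v| ≤ 4 / v * |u - v| * Th (v / 4) := by
  have hu : v / 2 ≤ u := by
    have := (abs_le.1 huv).1
    linarith
  have hu0 : 0 < u := by linarith
  unfold Th
  rw [← tsum_mul_left]
  refine diff (summ hu0) (summ hv) ((summ (by linarith : 0 < v / 4)).mul_left _) fun m => ?_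
  have hm : 0 ≤ (m : ℝ) ^ 2 := sq_nonneg _
  -- both exponents are at least `v / 2 * m ^ 2`
  have key : |Real.exp (-(u * (m : ℝ) ^ 2)) - Real.exp (-(v * (m : ℝ) ^ 2))| ≤
      |u - v| * (m : ℝ) ^ 2 * Real.exp (-(v / 2 * (m : ℝ) ^ 2)) := by
    rcases le_total u v with h | h
    · refine (exp_diff (mul_le_mul_of_nonneg_right h hm)).trans ?_
      have e1 : |u - v| = v - u := by rw [abs_sub_comm, abs_of_nonneg (by linarith)]
      rw [e1]
      have e2 : v * (m : ℝ) ^ 2 - u * (m : ℝ) ^ 2 = (v - u) * (m : ℝ) ^ 2 := by ring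
      rw [e2]
      refine mul_le_mul_of_nonneg_left (Real.exp_le_exp.2 ?_) (mul_nonneg (by linarith) hm)
      have := mul_le_mul_of_nonneg_right hu hm
      linarith
    · rw [abs_sub_comm]
      refine (exp_diff (mul_le_mul_of_nonneg_right h hm)).trans ?_
      rw [abs_of_nonneg (by linarith : 0 ≤ u - v)]
      have e2 : u * (m : ℝ) ^ 2 - v * (m : ℝ) ^ 2 = (u - v) * (m : ℝ) ^ 2 := by ring
      rw [e2]
      refine mul_le_mul_of_nonneg_left (Real.exp_le_exp.2 ?_) (mul_nonneg (by linarith) hm)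
      nlinarith
  refine key.trans ?_
  have h2 : (m : ℝ) ^ 2 * Real.exp (-(v / 2 * (m : ℝ) ^ 2)) ≤
      4 / v * Real.exp (-(v / 4 * (m : ℝ) ^ 2)) := by
    have e : Real.exp (-(v / 2 * (m : ℝ) ^ 2)) =
        Real.exp (-(v / 4 * (m : ℝ) ^ 2)) * Real.exp (-(v / 4 * (m : ℝ) ^ 2)) := by
      rw [← Real.exp_add]
      congr 1
      ring
    rw [e, ← mul_assoc]
    refine mul_le_mul_of_nonneg_right ?_ (Real.exp_pos _).le
    rcases hm.eq_or_lt with h0 | h0
    · rw [← h0, zero_mul]
      positivity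
    · have hm1 : (m : ℝ) ≠ 0 := by
        intro h
        rw [h] at h0
        simp at h0
      have h3 := exp_le_inv (show 0 < v / 4 * (m : ℝ) ^ 2 by positivity)
      calc (m : ℝ) ^ 2 * Real.exp (-(v / 4 * (m : ℝ) ^ 2))
          ≤ (m : ℝ) ^ 2 * (1 / (v / 4 * (m : ℝ) ^ 2)) := mul_le_mul_of_nonneg_left h3 hm
        _ = 4 / v := by field_simp
  calc |u - v| * (m : ℝ) ^ 2 * Real.exp (-(v / 2 * (m : ℝ) ^ 2))
      = |u - v| * ((m : ℝ) ^ 2 * Real.exp (-(v / 2 * (m : ℝ) ^ 2))) := by ring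
    _ ≤ |u - v| * (4 / v * Real.exp (-(v / 4 * (m : ℝ) ^ 2))) :=
        mul_le_mul_of_nonneg_left h2 (abs_nonneg _)
    _ = _ := by ring

/-- the functional equation -/
theorem poisson {u : ℝ} (hu : 0 < u) :
    Real.sqrt (u / Real.pi) * Th u = Th (Real.pi ^ 2 / u) := by
  have hpi := Real.pi_pos
  have ha : 0 < u / Real.pi := by positivity
  have h := Real.tsum_exp_neg_mul_int_sq ha
  have h1 : (∑' n : ℤ, Real.exp (-Real.pi * (u / Real.pi) * (n : ℝ) ^ 2)) = Th u := by
    unfold Th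
    refine tsum_congr fun n => ?_
    congr 1
    field_simp
  have h2 : (∑' n : ℤ, Real.exp (-Real.pi / (u / Real.pi) * (n : ℝ) ^ 2)) =
      Th (Real.pi ^ 2 / u) := by
    unfold Th
    refine tsum_congr fun n => ?_
    congr 1
    field_simp
  rw [h1, h2, ← Real.sqrt_eq_rpow] at h
  rw [h, ← mul_assoc, mul_one_div, div_self (Real.sqrt_pos.2 ha).ne', one_mul]

/-- the theta function at large arguments -/
theorem th_large {v : ℝ} (hv : 2 ≤ v) : |Th v - 1| ≤ 2 / v * Th 1 := by
  have hv0 : 0 < v := by linarith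
  have h1 := one_le hv0
  rw [abs_of_nonneg (by linarith)]
  have h2 : Th v ≤ 1 + Real.exp (-(v / 2)) * Th (v / 2) := by
    have hs : Summable fun m : ℤ => (if m = 0 then (1 : ℝ) else 0) :=
      (hasSum_ite_eq (0 : ℤ) (1 : ℝ)).summable
    have hs2 := (summ (show 0 < v / 2 by linarith)).mul_left (Real.exp (-(v / 2)))
    have e : 1 + Real.exp (-(v / 2)) * Th (v / 2) = ∑' m : ℤ, ((if m = 0 then (1 : ℝ) else 0) +
        Real.exp (-(v / 2)) * Real.exp (-(v / 2 * (m : ℝ) ^ 2))) := by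
      rw [hs.tsum_add hs2, tsum_ite_eq, tsum_mul_left]
      rfl
    rw [e]
    refine Summable.tsum_le_tsum (fun m => ?_) (summ hv0) (hs.add hs2)
    by_cases hm : m = 0
    · subst hm
      rw [if_pos rfl]
      have : 0 ≤ Real.exp (-(v / 2)) * Real.exp (-(v / 2 * ((0 : ℤ) : ℝ) ^ 2)) := by positivity
      simp only [Int.cast_zero, ne_eq, OfNat.ofNat_ne_zero, not_false_eq_true, zero_pow, mul_zero,
        neg_zero, Real.exp_zero, mul_one] at this ⊢
      linarith
    · rw [if_neg hm, zero_add, ← Real.exp_add]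
      apply Real.exp_le_exp.2
      have : (1 : ℝ) ≤ (m : ℝ) ^ 2 := by
        have : 1 ≤ m ^ 2 := by
          have := Int.one_le_abs hm
          nlinarith [sq_abs m]
        exact_mod_cast this
      nlinarith
  have h3 : Real.exp (-(v / 2)) ≤ 2 / v := by
    have := exp_le_inv (show 0 < v / 2 by linarith)
    rwa [one_div_div] at this
  have h4 : Th (v / 2) ≤ Th 1 := th_anti one_pos (by linarith)
  have h5 : Real.exp (-(v / 2)) * Th (v / 2) ≤ 2 / v * Th 1 :=
    mul_le_mul h3 h4 (th_nonneg _) (by positivity)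
  linarith

variable {L : ℕ} [NeZero L]

theorem lam_eq (k : ZMod L) :
    lam k = 2 - 2 * Real.cos (2 * Real.pi * (k.valMinAbs : ℝ) / L) := by
  have h1 : rc k = Real.cos (2 * Real.pi * k.valMinAbs / L) := by
    unfold rc
    have h2 : (ZMod.stdAddChar k : ℂ) = Complex.exp (2 * Real.pi * Complex.I * k.valMinAbs / L) := by
      rw [← ZMod.stdAddChar_coe, ZMod.coe_valMinAbs]
    have h3 : (2 * Real.pi * Complex.I * k.valMinAbs / L : ℂ) =
        ((2 * Real.pi * k.valMinAbs / L : ℝ) : ℂ) * Complex.I := by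
      push_cast
      ring
    rw [h2, h3, Complex.exp_ofReal_mul_I_re]
  unfold lam
  rw [h1]

theorem cos_up (x : ℝ) : x ^ 2 - (2 - 2 * Real.cos x) ≤ x ^ 4 := by
  rcases le_total |x| 1 with h | h
  · have h1 := (abs_le.1 (Real.cos_bound h)).2
    have h2 : |x| ^ 4 = x ^ 4 := by
      rw [← abs_pow, abs_of_nonneg (by positivity)]
    rw [h2] at h1
    nlinarith [sq_nonneg (x ^ 2)]
  · have h1 := Real.cos_le_one x
    have h2 : (1 : ℝ) ≤ x ^ 2 := by
      rw [← sq_abs]
      nlinarith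
    nlinarith

/-- the comparison of the return probability with the theta function -/
theorem main (t : ℝ) (ht : 0 < t) :
    |(L : ℝ) * gk L t 0 - Th (4 * Real.pi ^ 2 * (t / (L : ℝ) ^ 2))| ≤
      1600 / t * Th (8 * (t / (L : ℝ) ^ 2)) := by
  classical
  have hL : (0 : ℝ) < L := by exact_mod_cast Nat.pos_of_ne_zero (NeZero.ne L)
  have hpi := Real.pi_pos
  have hpi4 : Real.pi < 3.15 := Real.pi_lt_d2
  have hpi3 : 3 < Real.pi := Real.pi_gt_three
  set s := t / (L : ℝ) ^ 2 with hs
  have hs0 : 0 < s := by positivity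
  have hsL : s * (L : ℝ) ^ 2 = t := by rw [hs]; field_simp
  set I : Finset ℤ := (univ : Finset (ZMod L)).image (fun k => k.valMinAbs) with hI
  set F : ℤ → ℝ := fun m => if m ∈ I then
    Real.exp (-(t * (2 - 2 * Real.cos (2 * Real.pi * (m : ℝ) / L)))) else 0 with hF
  have hFs : Summable F := summable_of_ne_finset_zero (s := I) fun m hm => by
    rw [hF]
    exact if_neg hm
  have hsum : (L : ℝ) * gk L t 0 = ∑' m, F m := by
    rw [tsum_eq_sum (s := I) fun m hm => by rw [hF]; exact if_neg hm]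
    rw [hI, Finset.sum_image fun a _ b _ h => ZMod.injective_valMinAbs h]
    unfold gk
    rw [← mul_assoc, mul_one_div, div_self hL.ne', one_mul]
    refine Finset.sum_congr rfl fun k _ => ?_
    have : k.valMinAbs ∈ I := mem_image_of_mem _ (mem_univ k)
    rw [mul_zero, rc_zero, mul_one, lam_eq]
    simp only [hF]
    rw [if_pos this]
  rw [hsum]
  unfold Th
  rw [← tsum_mul_left]
  refine diff hFs (summ (by positivity)) ((summ (by positivity)).mul_left _) fun m => ?_
  have hm0 : 0 ≤ (m : ℝ) ^ 2 := sq_nonneg _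
  by_cases hm : m ∈ I
  · rw [hF]
    simp only [if_pos hm]
    obtain ⟨k, -, rfl⟩ := mem_image.1 hm
    set x := 2 * Real.pi * ((k.valMinAbs : ℤ) : ℝ) / L with hx
    set n := ((k.valMinAbs : ℤ) : ℝ) with hn
    have e1 : 4 * Real.pi ^ 2 * s * n ^ 2 = t * x ^ 2 := by
      rw [hx, hs]
      field_simp
      ring
    rw [e1]
    have hlow : 16 * s * n ^ 2 ≤ t * (2 - 2 * Real.cos x) := by
      have h1 := lam_lower k
      rw [lam_eq] at h1
      have h2 := mul_le_mul_of_nonneg_left h1 ht.le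
      have e : t * (16 * (n / L) ^ 2) = 16 * s * n ^ 2 := by
        rw [hs]
        field_simp
      rw [← e]
      exact h2
    have hup : t * (2 - 2 * Real.cos x) ≤ t * x ^ 2 := by
      refine mul_le_mul_of_nonneg_left ?_ ht.le
      have := Real.one_sub_sq_div_two_le_cos (x := x)
      linarith
    refine (exp_diff hup).trans ?_
    have h3 : t * x ^ 2 - t * (2 - 2 * Real.cos x) ≤ t * x ^ 4 := by
      have := mul_le_mul_of_nonneg_left (cos_up x) ht.le
      linarith
    have h4 : t * x ^ 4 ≤ 1600 / t * (s * n ^ 2) ^ 2 := by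
      have e : t * x ^ 4 = 16 * Real.pi ^ 4 / t * (s * n ^ 2) ^ 2 := by
        rw [hx, hs]
        field_simp
        ring
      rw [e]
      refine mul_le_mul_of_nonneg_right ?_ (sq_nonneg _)
      refine div_le_div_of_nonneg_right ?_ ht.le
      have h5 : Real.pi ^ 2 ≤ 3.15 ^ 2 := pow_le_pow_left₀ hpi.le hpi4.le 2
      have h6 : Real.pi ^ 4 ≤ 3.15 ^ 4 := pow_le_pow_left₀ hpi.le hpi4.le 4
      norm_num at h6
      linarith
    have h5 : Real.exp (-(t * (2 - 2 * Real.cos x))) ≤
        Real.exp (-(8 * s * n ^ 2)) * Real.exp (-(8 * s * n ^ 2)) := by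
      rw [← Real.exp_add]
      apply Real.exp_le_exp.2
      linarith
    have h6 : (s * n ^ 2) ^ 2 * Real.exp (-(8 * s * n ^ 2)) ≤ 1 := by
      have h7 : s * n ^ 2 ≤ Real.exp (s * n ^ 2) := by
        have := Real.add_one_le_exp (s * n ^ 2)
        linarith
      have h8 : 0 ≤ s * n ^ 2 := by positivity
      calc (s * n ^ 2) ^ 2 * Real.exp (-(8 * s * n ^ 2))
          ≤ Real.exp (s * n ^ 2) ^ 2 * Real.exp (-(8 * s * n ^ 2)) :=
            mul_le_mul_of_nonneg_right (pow_le_pow_left₀ h8 h7 2) (Real.exp_pos _).le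
        _ = Real.exp (-(6 * (s * n ^ 2))) := by
            rw [← Real.exp_nat_mul, ← Real.exp_add]
            congr 1
            push_cast
            ring
        _ ≤ 1 := Real.exp_le_one_iff.2 (by linarith)
    calc (t * x ^ 2 - t * (2 - 2 * Real.cos x)) * Real.exp (-(t * (2 - 2 * Real.cos x)))
        ≤ (1600 / t * (s * n ^ 2) ^ 2) *
          (Real.exp (-(8 * s * n ^ 2)) * Real.exp (-(8 * s * n ^ 2))) :=
          mul_le_mul (h3.trans h4) h5 (Real.exp_pos _).le (by positivity)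
      _ = 1600 / t * ((s * n ^ 2) ^ 2 * Real.exp (-(8 * s * n ^ 2))) *
          Real.exp (-(8 * s * n ^ 2)) := by ring
      _ ≤ 1600 / t * 1 * Real.exp (-(8 * s * n ^ 2)) := by
          refine mul_le_mul_of_nonneg_right (mul_le_mul_of_nonneg_left h6 (by positivity))
            (Real.exp_pos _).le
      _ = _ := by rw [mul_one]
  · rw [hF]
    simp only [if_neg hm]
    rw [zero_sub, abs_neg, abs_of_pos (Real.exp_pos _)]
    have h1 : (L : ℝ) ^ 2 / 4 ≤ (m : ℝ) ^ 2 := by
      by_contra hlt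
      push Not at hlt
      apply hm
      rw [hI, mem_image]
      refine ⟨((m : ℤ) : ZMod L), mem_univ _, ?_⟩
      rw [ZMod.valMinAbs_spec]
      refine ⟨rfl, ?_⟩
      have h2 : |(m : ℝ) * 2| < L := by
        apply abs_lt_of_sq_lt_sq _ hL.le
        nlinarith
      have h3 := abs_lt.1 h2
      constructor
      · have := h3.1
        exact_mod_cast this
      · have := h3.2.le
        exact_mod_cast this
    have h2 : Real.exp (-(4 * Real.pi ^ 2 * s * (m : ℝ) ^ 2)) ≤
        Real.exp (-t) * Real.exp (-(8 * s * (m : ℝ) ^ 2)) := by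
      rw [← Real.exp_add]
      apply Real.exp_le_exp.2
      have h3 : t / 4 ≤ s * (m : ℝ) ^ 2 := by
        have := mul_le_mul_of_nonneg_left h1 hs0.le
        rw [← hsL]
        linarith
      have h4 : 36 ≤ 4 * Real.pi ^ 2 := by nlinarith
      nlinarith
    refine h2.trans (mul_le_mul_of_nonneg_right ?_ (Real.exp_pos _).le)
    refine (exp_le_inv ht).trans ?_
    exact div_le_div_of_nonneg_right (by norm_num) ht.le

end AsL

open AsL in
theorem as2 : S_AS2 := by
  intro c hc ε hε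
  have hpi := Real.pi_pos
  have hA := one_le (show 0 < Real.pi ^ 2 * c by positivity)
  have hB := one_le (show 0 < 4 * c by positivity)
  set A := Th (Real.pi ^ 2 * c) with hAd
  set B := Th (4 * c) with hBd
  have hA0 : 0 < A := by linarith
  have hB0 : 0 < B := by linarith
  obtain ⟨δ, hδ0, hδ1, hδ2, hδ3, hδ4⟩ : ∃ δ : ℝ, 0 < δ ∧ δ ≤ 1 ∧ δ ≤ c / 2 ∧
      4 / c * δ * A ≤ ε / 2 ∧ 3200 / c * δ * B ≤ ε / 2 := by
    refine ⟨min (min 1 (c / 2)) (min (ε * c / (8 * A)) (ε * c / (6400 * B))), ?_, ?_, ?_, ?_, ?_⟩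
    · exact lt_min (lt_min one_pos (by linarith)) (lt_min (by positivity) (by positivity))
    · exact (min_le_left _ _).trans (min_le_left _ _)
    · exact (min_le_left _ _).trans (min_le_right _ _)
    · have h1 : min (min 1 (c / 2)) (min (ε * c / (8 * A)) (ε * c / (6400 * B))) ≤
          ε * c / (8 * A) := (min_le_right _ _).trans (min_le_left _ _)
      calc _ ≤ 4 / c * (ε * c / (8 * A)) * A :=
            mul_le_mul_of_nonneg_right (mul_le_mul_of_nonneg_left h1 (by positivity)) hA0.le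
        _ = ε / 2 := by field_simp; ring
    · have h1 : min (min 1 (c / 2)) (min (ε * c / (8 * A)) (ε * c / (6400 * B))) ≤
          ε * c / (6400 * B) := (min_le_right _ _).trans (min_le_right _ _)
      calc _ ≤ 3200 / c * (ε * c / (6400 * B)) * B :=
            mul_le_mul_of_nonneg_right (mul_le_mul_of_nonneg_left h1 (by positivity)) hB0.le
        _ = ε / 2 := by field_simp; ring
  refine ⟨δ, hδ0, fun L _ t hL1 hst => ?_⟩
  have hL0 : (0 : ℝ) < L := by
    have : 0 < 1 / δ := by positivity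
    linarith
  set s := t / (L : ℝ) ^ 2 with hs
  have hsc := abs_le.1 hst
  have hs0 : c / 2 ≤ s := by linarith
  have ht : s * (L : ℝ) ^ 2 = t := by rw [hs]; field_simp
  have ht0 : 0 < t := by
    rw [← ht]
    have : 0 < s := by linarith
    positivity
  have e0 : (∑' k : ℤ, Real.exp (-(4 * Real.pi ^ 2 * c * (k : ℝ) ^ 2))) =
      Th (4 * Real.pi ^ 2 * c) := rfl
  rw [e0]
  have h1 := main (L := L) t ht0
  have h2 := th_cont (u := 4 * Real.pi ^ 2 * s) (v := 4 * Real.pi ^ 2 * c) (by positivity) (by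
    rw [← mul_sub, abs_mul, abs_of_pos (by positivity : 0 < 4 * Real.pi ^ 2)]
    have := mul_le_mul_of_nonneg_left (hst.trans hδ2) (by positivity : 0 ≤ 4 * Real.pi ^ 2)
    linarith)
  have h3 : 4 / (4 * Real.pi ^ 2 * c) * |4 * Real.pi ^ 2 * s - 4 * Real.pi ^ 2 * c| *
      Th (4 * Real.pi ^ 2 * c / 4) ≤ ε / 2 := by
    have e1 : 4 * Real.pi ^ 2 * c / 4 = Real.pi ^ 2 * c := by ring
    rw [e1, ← mul_sub, abs_mul, abs_of_pos (by positivity : 0 < 4 * Real.pi ^ 2)]
    calc 4 / (4 * Real.pi ^ 2 * c) * (4 * Real.pi ^ 2 * |s - c|) * Th (Real.pi ^ 2 * c)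
        = 4 / c * |s - c| * A := by
          rw [hAd]
          field_simp
      _ ≤ 4 / c * δ * A :=
          mul_le_mul_of_nonneg_right (mul_le_mul_of_nonneg_left hst (by positivity)) hA0.le
      _ ≤ ε / 2 := hδ3
  have h4 : 1600 / t * Th (8 * s) ≤ ε / 2 := by
    have h5 : Th (8 * s) ≤ B := th_anti (by positivity) (by linarith)
    have h6 : c / (2 * δ) ≤ t := by
      have h7 : 1 / δ ≤ (L : ℝ) ^ 2 := by
        have h8 : (1 : ℝ) ≤ 1 / δ := by
          rw [le_div_iff₀ hδ0]
          linarith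
        nlinarith
      rw [← ht]
      calc c / (2 * δ) = c / 2 * (1 / δ) := by field_simp
        _ ≤ s * (L : ℝ) ^ 2 := mul_le_mul hs0 h7 (by positivity) (by linarith)
    have h7 : 1600 / t ≤ 3200 / c * δ := by
      rw [div_le_iff₀ ht0]
      calc (1600 : ℝ) = 3200 / c * δ * (c / (2 * δ)) := by field_simp; norm_num
        _ ≤ 3200 / c * δ * t := mul_le_mul_of_nonneg_left h6 (by positivity)
    calc 1600 / t * Th (8 * s) ≤ 3200 / c * δ * B :=
          mul_le_mul h7 h5 (th_nonneg _) (by positivity)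
      _ ≤ ε / 2 := hδ4
  calc |(L : ℝ) * gk L t 0 - Th (4 * Real.pi ^ 2 * c)|
      ≤ |(L : ℝ) * gk L t 0 - Th (4 * Real.pi ^ 2 * s)| +
        |Th (4 * Real.pi ^ 2 * s) - Th (4 * Real.pi ^ 2 * c)| := abs_sub_le _ _ _
    _ ≤ ε / 2 + ε / 2 := add_le_add (h1.trans h4) (h2.trans h3)
    _ = ε := by ring

open AsL in
theorem as1 : S_AS1 := by
  intro ε hε
  have hpi := Real.pi_pos
  have hpi4 : Real.pi < 3.15 := Real.pi_lt_d2
  have hpi3 : 3 < Real.pi := Real.pi_gt_three
  have hA := one_le one_pos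
  set A := Th 1 with hAd
  have hA0 : 0 < A := by linarith
  refine ⟨max 8 (4808 * A / ε), lt_max_of_lt_left (by norm_num), fun L _ t hT1 hT2 => ?_⟩
  have hT8 : 8 ≤ t := (le_max_left _ _).trans hT1
  have ht0 : 0 < t := by linarith
  have hL0 : (0 : ℝ) < L := by exact_mod_cast Nat.pos_of_ne_zero (NeZero.ne L)
  set s := t / (L : ℝ) ^ 2 with hs
  have hs0 : 0 < s := by positivity
  have hT : 0 < max (8 : ℝ) (4808 * A / ε) := lt_max_of_lt_left (by norm_num)
  have hs1 : s ≤ 1 / max 8 (4808 * A / ε) := by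
    rw [hs, div_le_div_iff₀ (by positivity) hT]
    linarith
  have hs8 : s ≤ 1 / 8 := hs1.trans (one_div_le_one_div_of_le (by norm_num) (le_max_left _ _))
  set u := 4 * Real.pi ^ 2 * s with hu
  have hu0 : 0 < u := by positivity
  have hsq : Real.sqrt (4 * Real.pi * t) = (L : ℝ) * Real.sqrt (u / Real.pi) := by
    have e : 4 * Real.pi * t = (L : ℝ) ^ 2 * (u / Real.pi) := by
      rw [hu, hs]
      field_simp
    rw [e, Real.sqrt_mul (by positivity), Real.sqrt_sq hL0.le]
  have h1 := main (L := L) t ht0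
  rw [hsq]
  have hv : Real.pi ^ 2 / u = 1 / (4 * s) := by
    rw [hu]
    field_simp
  have h2 : |Real.sqrt (u / Real.pi) * Th u - 1| ≤ 8 * s * A := by
    rw [poisson hu0, hv]
    have h3 := th_large (v := 1 / (4 * s)) (by
      rw [le_div_iff₀ (by positivity)]
      linarith)
    have e : 2 / (1 / (4 * s)) = 8 * s := by
      field_simp
      norm_num
    rwa [e] at h3
  have h3 : Real.sqrt (u / Real.pi) * Th (8 * s) ≤ 3 * A := by
    have h4 : Real.sqrt (u / Real.pi) ≤ 3 * Real.sqrt (8 * s / Real.pi) := by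
      have e : 3 * Real.sqrt (8 * s / Real.pi) = Real.sqrt (9 * (8 * s / Real.pi)) := by
        rw [Real.sqrt_mul (by norm_num)]
        congr 1
        rw [show (9 : ℝ) = 3 ^ 2 by norm_num, Real.sqrt_sq (by norm_num)]
      rw [e]
      apply Real.sqrt_le_sqrt
      rw [← mul_div_assoc]
      refine div_le_div_of_nonneg_right ?_ hpi.le
      have h5 : 4 * Real.pi ^ 2 ≤ 72 := by nlinarith
      have := mul_le_mul_of_nonneg_right h5 hs0.le
      rw [hu]
      linarith
    have h5 : Th (Real.pi ^ 2 / (8 * s)) ≤ A := by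
      refine th_anti one_pos ?_
      rw [le_div_iff₀ (by positivity)]
      nlinarith
    calc Real.sqrt (u / Real.pi) * Th (8 * s)
        ≤ 3 * Real.sqrt (8 * s / Real.pi) * Th (8 * s) :=
          mul_le_mul_of_nonneg_right h4 (th_nonneg _)
      _ = 3 * (Real.sqrt (8 * s / Real.pi) * Th (8 * s)) := by ring
      _ = 3 * Th (Real.pi ^ 2 / (8 * s)) := by rw [poisson (by positivity)]
      _ ≤ 3 * A := by linarith
  have h4 : |gk L t 0 * ((L : ℝ) * Real.sqrt (u / Real.pi)) - 1| ≤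
      Real.sqrt (u / Real.pi) * |(L : ℝ) * gk L t 0 - Th u| +
        |Real.sqrt (u / Real.pi) * Th u - 1| := by
    have e : gk L t 0 * ((L : ℝ) * Real.sqrt (u / Real.pi)) - 1 =
        Real.sqrt (u / Real.pi) * ((L : ℝ) * gk L t 0 - Th u) +
          (Real.sqrt (u / Real.pi) * Th u - 1) := by ring
    rw [e]
    refine (abs_add_le _ _).trans ?_
    rw [abs_mul, abs_of_nonneg (Real.sqrt_nonneg _)]
  have hεT : 4808 * A ≤ ε * max 8 (4808 * A / ε) := by
    have := mul_le_mul_of_nonneg_left (le_max_right 8 (4808 * A / ε)) hε.le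
    rwa [mul_div_cancel₀ _ hε.ne'] at this
  have h5 : 4800 / t * A ≤ 4800 / max 8 (4808 * A / ε) * A :=
    mul_le_mul_of_nonneg_right (div_le_div_of_nonneg_left (by norm_num) hT hT1) hA0.le
  have h6 : 8 * s * A ≤ 8 / max 8 (4808 * A / ε) * A := by
    refine mul_le_mul_of_nonneg_right ?_ hA0.le
    have := mul_le_mul_of_nonneg_left hs1 (by norm_num : (0 : ℝ) ≤ 8)
    rwa [mul_one_div] at this
  calc |gk L t 0 * ((L : ℝ) * Real.sqrt (u / Real.pi)) - 1|
      ≤ Real.sqrt (u / Real.pi) * |(L : ℝ) * gk L t 0 - Th u| +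
        |Real.sqrt (u / Real.pi) * Th u - 1| := h4
    _ ≤ Real.sqrt (u / Real.pi) * (1600 / t * Th (8 * s)) + 8 * s * A :=
        add_le_add (mul_le_mul_of_nonneg_left h1 (Real.sqrt_nonneg _)) h2
    _ = 1600 / t * (Real.sqrt (u / Real.pi) * Th (8 * s)) + 8 * s * A := by ring
    _ ≤ 1600 / t * (3 * A) + 8 * s * A := by
        have := mul_le_mul_of_nonneg_left h3 (by positivity : 0 ≤ 1600 / t)
        linarith
    _ = 4800 / t * A + 8 * s * A := by ring
    _ ≤ 4800 / max 8 (4808 * A / ε) * A + 8 / max 8 (4808 * A / ε) * A := add_le_add h5 h6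
    _ = 4808 * A / max 8 (4808 * A / ε) := by ring
    _ ≤ ε := by
        rw [div_le_iff₀ hT]
        exact hεT

end Pool.Agent.Helper47K9.SC
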