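import Pool.Agent.Helper47K9.SC.Stm

/-! CK: sum over closed words. -/

set_option autoImplicit false

namespace Pool.Agent.Helper47K9.SC

open Finset Equiv

namespace CkL

theorem pow_succ_apply {V : Type} [Fintype V] [DecidableEq V] (A : Matrix V V ℝ) :
    ∀ (n : ℕ) (a b : V), (A ^ (n + 1)) a b =
      ∑ w : Fin n → V, ∏ i : Fin (n + 1),
        A ((Fin.cons a w : Fin (n + 1) → V) i) ((Fin.snoc w b : Fin (n + 1) → V) i) := by
  intro n
  induction n with
  | zero =>
    intro a b
    simp [Fin.snoc]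
  | succ n ih =>
    intro a b
    rw [pow_succ', Matrix.mul_apply]
    rw [← (Fin.consEquiv (fun _ : Fin (n + 1) => V)).sum_comp, Fintype.sum_prod_type]
    refine Finset.sum_congr rfl fun c _ => ?_
    rw [ih c b, Finset.mul_sum]
    refine Finset.sum_congr rfl fun w _ => ?_
    rw [Fin.prod_univ_succ (n := n + 1)]
    simp only [Fin.consEquiv, Equiv.coe_fn_mk]
    congr 1
    refine Finset.prod_congr rfl fun i _ => ?_
    congr 1
    rw [← Fin.cons_snoc_eq_snoc_cons]
    simp

theorem trace_pow {V : Type} [Fintype V] [DecidableEq V] (A : Matrix V V ℝ) (n : ℕ) (hn : 1 ≤ n) :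
    (A ^ n).trace = ∑ w : Fin n → V, ∏ i, A (w i) (w (finRotate n i)) := by
  obtain ⟨m, rfl⟩ : ∃ m, n = m + 1 := ⟨n - 1, by omega⟩
  rw [← (Fin.consEquiv (fun _ : Fin (m + 1) => V)).sum_comp, Fintype.sum_prod_type]
  unfold Matrix.trace
  refine Finset.sum_congr rfl fun a _ => ?_
  rw [Matrix.diag_apply, pow_succ_apply]
  refine Finset.sum_congr rfl fun w _ => ?_
  refine Finset.prod_congr rfl fun i _ => ?_
  simp only [Fin.consEquiv, Equiv.coe_fn_mk]
  congr 1
  induction i using Fin.lastCases with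
  | last => simp
  | cast j =>
    have h : finRotate (m + 1) j.castSucc = j.succ := by
      rw [finRotate_of_lt (by simp)]
      rfl
    rw [h, Fin.snoc_castSucc, Fin.cons_succ]

end CkL

theorem ck : S_CK := by
  intro V _ _ A C _ _ l hl
  have h1 : ∀ c, (A ^ l c).trace = ∑ w : Fin (l c) → V, ∏ i, A (w i) (w (finRotate (l c) i)) :=
    fun c => CkL.trace_pow A (l c) (hl c)
  simp only [h1]
  rw [Finset.prod_univ_sum, Fintype.piFinset_univ]
  rw [← (Equiv.piCurry (fun (c : C) (_ : Fin (l c)) => V)).symm.sum_comp]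
  refine Finset.sum_congr rfl fun p _ => ?_
  rw [Fintype.prod_sigma]
  rfl

end Pool.Agent.Helper47K9.SC
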