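import Pool.Agent.Helper47K9.SC.Stm

/-! CNT: number of projections of the localised tuples. -/

set_option autoImplicit false

namespace Pool.Agent.Helper47K9.SC

open Finset Equiv

theorem cnt : S_CNT := by
  classical
  intro V _ _ C _ _ l hl near b hb hbV hnear v0 j
  set n : ℕ := Fintype.card V with hn
  set S : Finset (Ix C l → V) :=
    univ.filter fun x : Ix C l → V => ∀ c a a', near (x ⟨c, a⟩) (x ⟨c, a'⟩) with hS
  -- base letters
  have hβ : ∀ c, (if (⟨c, ⟨0, hl c⟩⟩ : Ix C l) = j then 1 % l c else 0) < l c := by
    intro c
    split_ifs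
    · exact Nat.mod_lt _ (hl c)
    · exact hl c
  let β : (c : C) → Fin (l c) := fun c => ⟨_, hβ c⟩
  have hβj : ∀ c, (⟨c, β c⟩ : Ix C l) = j → l c = 1 := by
    intro c h
    by_contra hne
    have h2 : 2 ≤ l c := by have := hl c; omega
    by_cases h0 : (⟨c, ⟨0, hl c⟩⟩ : Ix C l) = j
    · have h1 : β c = ⟨0, hl c⟩ := by
        have := h.trans h0.symm
        simpa using this
      have h3 := congrArg Fin.val h1
      simp only [β, if_pos h0] at h3
      rw [Nat.mod_eq_of_lt (by omega)] at h3
      omega
    · have h1 : β c = ⟨0, hl c⟩ := by
        apply Fin.ext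
        simp only [β, if_neg h0]
      rw [h1] at h
      exact h0 h
  let box : (C → V) → Ix C l → Finset V := fun p k =>
    if k = j then {v0} else if k.2 = β k.1 then {p k.1} else univ.filter fun y => near (p k.1) y
  let P : Finset (C → V) := if ∃ c, (⟨c, β c⟩ : Ix C l) = j then
    Fintype.piFinset (fun c => if c = j.1 then {v0} else univ) else univ
  have hsub : S.image (fun x => Function.update x j v0) ⊆
      P.biUnion fun p => Fintype.piFinset (box p) := by
    intro y hy
    obtain ⟨x, hx, rfl⟩ := Finset.mem_image.mp hy
    have hx2 := (Finset.mem_filter.mp hx).2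
    rw [Finset.mem_biUnion]
    refine ⟨fun c => Function.update x j v0 ⟨c, β c⟩, ?_, ?_⟩
    · simp only [P]
      split_ifs with h
      · rw [Fintype.mem_piFinset]
        intro c
        split_ifs with hc
        · obtain ⟨c', hc'⟩ := h
          have h1 : c' = j.1 := by rw [← hc']
          have h2 : (⟨c, β c⟩ : Ix C l) = j := by
            rw [hc, ← h1]; exact hc'
          rw [h2, Function.update_self]
          exact Finset.mem_singleton_self _
        · exact Finset.mem_univ _
      · exact Finset.mem_univ _
    · rw [Fintype.mem_piFinset]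
      rintro ⟨c, a⟩
      simp only [box]
      split_ifs with h1 h2
      · rw [h1, Function.update_self]
        exact Finset.mem_singleton_self _
      · rw [h2]
        exact Finset.mem_singleton_self _
      · rw [Finset.mem_filter]
        refine ⟨Finset.mem_univ _, ?_⟩
        have h3 : (⟨c, β c⟩ : Ix C l) ≠ j := by
          intro h3
          have h4 := hβj c h3
          apply h2
          apply Fin.ext
          have := a.2
          have := (β c).2
          omega
        rw [Function.update_of_ne h3, Function.update_of_ne h1]
        exact hx2 c _ _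
  let free : Finset (Ix C l) := univ.filter fun k => ¬ (k = j ∨ k.2 = β k.1)
  have hbox : ∀ p, ((Fintype.piFinset (box p)).card : ℝ) ≤ b ^ free.card := by
    intro p
    rw [Fintype.card_piFinset]
    push_cast
    calc ∏ k, ((box p k).card : ℝ) ≤ ∏ k, (if ¬ (k = j ∨ k.2 = β k.1) then b else 1) := by
          apply Finset.prod_le_prod
          · intro k _; positivity
          · intro k _
            simp only [box]
            by_cases h1 : k = j
            · rw [if_pos h1, if_neg (by simp [h1])]
              simp
            · rw [if_neg h1]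
              by_cases h2 : k.2 = β k.1
              · rw [if_pos h2, if_neg (by simp [h2])]
                simp
              · rw [if_neg h2, if_pos (by tauto)]
                exact hnear _
      _ = b ^ free.card := by
          rw [Finset.prod_ite, Finset.prod_const_one, mul_one, Finset.prod_const]
  have hcard : ((S.image (fun x => Function.update x j v0)).card : ℝ) ≤
      (P.card : ℝ) * b ^ free.card := by
    calc ((S.image (fun x => Function.update x j v0)).card : ℝ)
        ≤ ((P.biUnion fun p => Fintype.piFinset (box p)).card : ℝ) := by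
          exact_mod_cast Finset.card_le_card hsub
      _ ≤ ∑ p ∈ P, ((Fintype.piFinset (box p)).card : ℝ) := by
          exact_mod_cast Finset.card_biUnion_le
      _ ≤ ∑ _p ∈ P, b ^ free.card := Finset.sum_le_sum fun p _ => hbox p
      _ = (P.card : ℝ) * b ^ free.card := by rw [Finset.sum_const, nsmul_eq_mul]
  -- counting the free letters
  have hIx : Fintype.card (Ix C l) = ∑ c, l c := by
    rw [Fintype.card_sigma]
    simp
  let bases : Finset (Ix C l) := univ.image fun c => (⟨c, β c⟩ : Ix C l)
  have hbases : bases.card = Fintype.card C := by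
    rw [Finset.card_image_of_injective, Finset.card_univ]
    intro c c' h
    exact congrArg Sigma.fst h
  have hmem : ∀ k : Ix C l, k ∈ bases ↔ k.2 = β k.1 := by
    rintro ⟨c, a⟩
    simp only [bases, Finset.mem_image, Finset.mem_univ, true_and]
    constructor
    · rintro ⟨c', h⟩
      have h1 : c' = c := congrArg Sigma.fst h
      subst h1
      have h2 : β c' = a := by simpa using h
      exact h2.symm
    · intro h
      exact ⟨c, by rw [h]⟩
  have hfree : free = univ \ (insert j bases) := by
    ext k
    simp only [free, Finset.mem_filter, Finset.mem_univ, true_and, Finset.mem_sdiff,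
      Finset.mem_insert, hmem]
  have hfc : free.card = (∑ c, l c) - (insert j bases).card := by
    rw [hfree, Finset.card_sdiff_of_subset (Finset.subset_univ _), Finset.card_univ, hIx]
  have hle : (insert j bases).card ≤ ∑ c, l c := by
    rw [← hIx, ← Finset.card_univ]
    exact Finset.card_le_card (Finset.subset_univ _)
  have hsum : ∑ c, (l c - 1) + Fintype.card C = ∑ c, l c := by
    have : Fintype.card C = ∑ _c : C, 1 := by
      rw [Finset.sum_const, smul_eq_mul, mul_one, Finset.card_univ]
    rw [this, ← Finset.sum_add_distrib]
    refine Finset.sum_congr rfl fun c _ => ?_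
    have := hl c
    omega
  have hb0 : 0 < b := by linarith
  by_cases hcase : ∃ c, (⟨c, β c⟩ : Ix C l) = j
  · have hjb : j ∈ bases := by
      obtain ⟨c, hc⟩ := hcase
      exact Finset.mem_image.mpr ⟨c, Finset.mem_univ _, hc⟩
    rw [Finset.insert_eq_of_mem hjb, hbases] at hfc
    have h1 : free.card = ∑ c, (l c - 1) := by omega
    have hP : (P.card : ℝ) * n = (n : ℝ) ^ Fintype.card C := by
      have hP1 : P = Fintype.piFinset (fun c => if c = j.1 then {v0} else univ) := by
        simp only [P]
        rw [if_pos hcase]
      rw [hP1, Fintype.card_piFinset]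
      have h2 : ∏ c : C, (if c = j.1 then ({v0} : Finset V) else univ).card =
          ∏ c ∈ univ.erase j.1, n := by
        rw [← Finset.mul_prod_erase univ _ (Finset.mem_univ j.1), if_pos rfl,
          Finset.card_singleton, one_mul]
        refine Finset.prod_congr rfl fun c hc => ?_
        rw [if_neg (Finset.ne_of_mem_erase hc), Finset.card_univ]
      rw [h2, Finset.prod_const, Finset.card_erase_of_mem (Finset.mem_univ _), Finset.card_univ]
      have h3 : 1 ≤ Fintype.card C := Fintype.card_pos_iff.mpr ⟨j.1⟩
      push_cast
      rw [← pow_succ, Nat.sub_add_cancel h3]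
    rw [h1] at hcard
    calc ((S.image (fun x => Function.update x j v0)).card : ℝ) * b
        ≤ ((P.card : ℝ) * b ^ ∑ c, (l c - 1)) * b := mul_le_mul_of_nonneg_right hcard hb0.le
      _ ≤ ((P.card : ℝ) * b ^ ∑ c, (l c - 1)) * n :=
          mul_le_mul_of_nonneg_left hbV (mul_nonneg (Nat.cast_nonneg _) (pow_nonneg hb0.le _))
      _ = (P.card : ℝ) * n * b ^ ∑ c, (l c - 1) := by ring
      _ = (n : ℝ) ^ Fintype.card C * b ^ ∑ c, (l c - 1) := by rw [hP]
  · have hjb : j ∉ bases := by
      intro h
      obtain ⟨c, _, hc⟩ := Finset.mem_image.mp h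
      exact hcase ⟨c, hc⟩
    rw [Finset.card_insert_of_notMem hjb, hbases] at hfc hle
    have h1 : free.card + 1 = ∑ c, (l c - 1) := by omega
    have hP : (P.card : ℝ) = (n : ℝ) ^ Fintype.card C := by
      have hP1 : P = univ := by
        simp only [P]
        rw [if_neg hcase]
      rw [hP1, Finset.card_univ, Fintype.card_fun]
      push_cast
      rfl
    calc ((S.image (fun x => Function.update x j v0)).card : ℝ) * b
        ≤ ((P.card : ℝ) * b ^ free.card) * b := mul_le_mul_of_nonneg_right hcard hb0.le
      _ = (P.card : ℝ) * b ^ (free.card + 1) := by ring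
      _ = (n : ℝ) ^ Fintype.card C * b ^ ∑ c, (l c - 1) := by rw [h1, hP]

end Pool.Agent.Helper47K9.SC
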