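import Pool.Agent.Helper47K9.SC.Stm

/-!
# [DUH] Duhamel's formula in differential form (helper55)
-/

set_option autoImplicit false

namespace Pool.Agent.Helper47K9.SC

open Finset Equiv Pool.Agent.Y998.ST

namespace DuhL

set_option linter.unusedSectionVars false

variable {V : Type} [Fintype V] [DecidableEq V]

/-- the backward equation of the kernel of one particle -/
theorem qq_back {J : V → V → ℝ} (hs : ∀ x y, J x y = J y x) (h0 : ∀ x, J x x = 0) (t : ℝ)
    (a b : V) : HasDerivAt (fun u => qq J u a b) (∑ c, J a c * (qq J t c b - qq J t a b)) t := by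
  have h : ∀ u, qq J u = E (GG J) u := eq_E (qq_deriv hs h0) (qq_zero J)
  have h1 : (fun u => qq J u a b) = fun u => E (GG J) u a b := by
    funext u
    rw [h]
  rw [h1]
  refine (E_deriv (GG J) t a b).congr_deriv ?_
  rw [← h t, Matrix.mul_apply]
  have h2 : ∀ c, GG J a c * qq J t c b =
      J a c * qq J t c b - (if a = c then (∑ e, J a e) * qq J t a b else 0) := by
    intro c
    unfold GG
    by_cases hc : a = c
    · subst hc
      rw [if_pos rfl, if_pos rfl, h0]
      ring
    · rw [if_neg hc, if_neg hc]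
      ring
  simp only [h2, Finset.sum_sub_distrib, mul_sub]
  rw [Finset.sum_ite_eq, if_pos (mem_univ _), Finset.sum_mul]

/-- the backward equation of the semigroup of one particle -/
theorem PP_deriv {J : V → V → ℝ} (hs : ∀ x y, J x y = J y x) (h0 : ∀ x, J x x = 0) (f : V → ℝ)
    (u : ℝ) (a : V) :
    HasDerivAt (fun u => PP J u f a) (∑ c, J a c * (PP J u f c - PP J u f a)) u := by
  unfold PP
  have h1 := HasDerivAt.fun_sum (u := (univ : Finset V)) fun b _ =>
    (qq_back hs h0 u a b).mul_const (f b)
  refine h1.congr_deriv ?_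
  simp only [Finset.sum_mul]
  rw [Finset.sum_comm]
  refine Finset.sum_congr rfl fun c _ => ?_
  rw [← Finset.sum_sub_distrib, Finset.mul_sum]
  refine Finset.sum_congr rfl fun b _ => ?_
  ring

/-- the derivative of the law, summed against a function -/
theorem law_sum (J : V → V → ℝ) (t : ℝ) (F : Perm V → ℝ) :
    ∑ g, (∑ x, ∑ y, J x y / 2 * (stirLaw J t (swap x y * g) - stirLaw J t g)) * F g =
      stirExp J t (fun g => ∑ x, ∑ y, J x y / 2 * (F (swap x y * g) - F g)) := by
  have h1 : HasDerivAt (fun u => stirExp J u F)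
      (∑ g, (∑ x, ∑ y, J x y / 2 * (stirLaw J t (swap x y * g) - stirLaw J t g)) * F g) t := by
    unfold stirExp
    exact HasDerivAt.fun_sum (u := (Finset.univ : Finset (Perm V))) fun g _ =>
      (law_deriv J t g).mul_const (F g)
  rw [h1.unique (exp_deriv J t F)]
  unfold stirExp
  simp only [Finset.mul_sum]
  rw [Finset.sum_comm' (s := (univ : Finset (Perm V))) (t := fun _ => (univ : Finset V))
    (t' := (univ : Finset V)) (s' := fun _ => (univ : Finset (Perm V))) (by simp)]
  refine Finset.sum_congr rfl fun x _ => ?_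
  rw [Finset.sum_comm' (s := (univ : Finset (Perm V))) (t := fun _ => (univ : Finset V))
    (t' := (univ : Finset V)) (s' := fun _ => (univ : Finset (Perm V))) (by simp)]
  refine Finset.sum_congr rfl fun y _ => ?_
  rw [← Finset.sum_sub_distrib, Finset.mul_sum]
  refine Finset.sum_congr rfl fun g _ => ?_
  ring

end DuhL

open DuhL in
theorem duh (pt : S_PT) : S_DUH := by
  intro V _ _ J hs h0 ι _ _ t f x hx s
  have hpp : ∀ (k : ι) (a : V), HasDerivAt (fun u => PP J (t - u) (f k) a)
      (-(∑ c, J a c * (PP J (t - s) (f k) c - PP J (t - s) (f k) a))) s := by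
    intro k a
    exact (PP_deriv hs h0 (f k) (t - s) a).comp_const_sub t s
  have hprod : ∀ g : Perm V, HasDerivAt (fun u => ∏ k, PP J (t - u) (f k) (g (x k)))
      (-∑ i, (∑ c, J (g (x i)) c * (PP J (t - s) (f i) c - PP J (t - s) (f i) (g (x i)))) *
        ∏ k ∈ univ.erase i, PP J (t - s) (f k) (g (x k))) s := by
    intro g
    have h1 := HasDerivAt.fun_finsetProd (u := (Finset.univ : Finset ι))
      (f := fun k u => PP J (t - u) (f k) (g (x k))) (x := s) fun k _ => hpp k (g (x k))
    refine h1.congr_deriv ?_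
    rw [← Finset.sum_neg_distrib]
    refine Finset.sum_congr rfl fun i _ => ?_
    rw [smul_eq_mul]
    ring
  have hall : HasDerivAt (phi J t f x)
      (∑ g, ((∑ a, ∑ b, J a b / 2 * (stirLaw J s (swap a b * g) - stirLaw J s g)) *
        (∏ k, PP J (t - s) (f k) (g (x k))) + stirLaw J s g *
        (-∑ i, (∑ c, J (g (x i)) c * (PP J (t - s) (f i) c - PP J (t - s) (f i) (g (x i)))) *
        ∏ k ∈ univ.erase i, PP J (t - s) (f k) (g (x k))))) s := by
    have e : phi J t f x = fun u => ∑ g, stirLaw J u g * ∏ k, PP J (t - u) (f k) (g (x k)) := by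
      funext u
      rfl
    rw [e]
    exact HasDerivAt.fun_sum (u := (Finset.univ : Finset (Perm V))) fun g _ =>
      (law_deriv J s g).fun_mul (hprod g)
  refine hall.congr_deriv ?_
  rw [Finset.sum_add_distrib, law_sum]
  unfold stirExp
  rw [← Finset.sum_add_distrib, ← Finset.sum_neg_distrib]
  refine Finset.sum_congr rfl fun g _ => ?_
  have h1 := pt V J hs h0 ι (fun k => PP J (t - s) (f k)) (fun k => g (x k))
    (g.injective.comp hx)
  change stirLaw J s g * (∑ a, ∑ b, J a b / 2 * ((∏ k, PP J (t - s) (f k) (swap a b (g (x k)))) -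
      ∏ k, PP J (t - s) (f k) (g (x k)))) + stirLaw J s g *
      (-∑ i, (∑ c, J (g (x i)) c * (PP J (t - s) (f i) c - PP J (t - s) (f i) (g (x i)))) *
        ∏ k ∈ univ.erase i, PP J (t - s) (f k) (g (x k))) =
    -(stirLaw J s g * defect J (fun k => PP J (t - s) (f k)) (fun k => g (x k)))
  rw [← mul_add, ← mul_neg, ← h1]
  ring

end Pool.Agent.Helper47K9.SC
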