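import Pool.Agent.Helper47K9.SC.Fib

set_option autoImplicit false

/-!
# Short cycles of random stirring: the defect for large times
-/

namespace Pool.Agent.Helper47K9.SC.EL

open Finset Equiv Pool.Agent.Y998.ST

variable {V : Type} [Fintype V] [DecidableEq V] {ι : Type} [Fintype ι] [DecidableEq ι]

lemma exp_US (J : V → V → ℝ) (s : ℝ) (x : ι → V) (F : (ι → V) → ℝ) :
    stirExp J s (fun g => F (fun k => g (x k))) = ∑ z, US J s x z * F z := by
  unfold US stirExp
  simp_rw [Finset.sum_mul]
  rw [Finset.sum_comm]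
  refine Finset.sum_congr rfl fun g _ => ?_
  rw [Finset.sum_eq_single (fun k => g (x k))]
  · rw [if_pos fun k => rfl, mul_one]
  · intro z _ hz
    rw [if_neg, mul_zero, zero_mul]
    intro h
    exact hz (funext fun k => (h k).symm)
  · intro h
    exact absurd (Finset.mem_univ _) h

/-- sums of functions of two coordinates times a product -/
lemma sum_pair (Φ : V → V → ℝ) (h : ι → V → ℝ) {i j : ι} (hij : j ∈ univ.erase i) :
    ∑ z : ι → V, Φ (z i) (z j) * ∏ k ∈ (univ.erase i).erase j, h k (z k) =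
      (∑ a, ∑ b, Φ a b) * ∏ k ∈ (univ.erase i).erase j, ∑ c, h k c := by
  classical
  have hne : j ≠ i := Finset.ne_of_mem_erase hij
  have split : ∀ F : ι → ℝ, ∏ k, F k = F i * (F j * ∏ k ∈ (univ.erase i).erase j, F k) := by
    intro F
    rw [Finset.mul_prod_erase _ _ hij, Finset.mul_prod_erase _ _ (Finset.mem_univ i)]
  let f : V → V → ι → V → ℝ := fun a b k c =>
    if k = i then (if c = a then 1 else 0) else if k = j then (if c = b then 1 else 0) else h k c
  have hf : ∀ a b, ∑ z : ι → V, ∏ k, f a b k (z k) =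
      ∏ k ∈ (univ.erase i).erase j, ∑ c, h k c := by
    intro a b
    have h1 : ∑ z : ι → V, ∏ k, f a b k (z k) = ∏ k, ∑ c, f a b k c := by
      rw [Finset.prod_univ_sum, Fintype.piFinset_univ]
    rw [h1, split]
    have h2 : ∑ c, f a b i c = 1 := by simp [f]
    have h3 : ∑ c, f a b j c = 1 := by simp [f, hne]
    rw [h2, h3, one_mul, one_mul]
    refine Finset.prod_congr rfl fun k hk => Finset.sum_congr rfl fun c _ => ?_
    have hk1 : k ≠ j := Finset.ne_of_mem_erase hk
    have hk2 : k ≠ i := Finset.ne_of_mem_erase (Finset.mem_of_mem_erase hk)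
    simp [f, hk1, hk2]
  have hz : ∀ z : ι → V, Φ (z i) (z j) * ∏ k ∈ (univ.erase i).erase j, h k (z k) =
      ∑ a, ∑ b, Φ a b * ∏ k, f a b k (z k) := by
    intro z
    have h1 : ∀ a b, ∏ k, f a b k (z k) = (if z i = a then 1 else 0) *
        ((if z j = b then 1 else 0) * ∏ k ∈ (univ.erase i).erase j, h k (z k)) := by
      intro a b
      rw [split]
      have h2 : f a b i (z i) = if z i = a then 1 else 0 := by simp [f]
      have h3 : f a b j (z j) = if z j = b then 1 else 0 := by simp [f, hne]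
      rw [h2, h3]
      congr 2
      refine Finset.prod_congr rfl fun k hk => ?_
      have hk1 : k ≠ j := Finset.ne_of_mem_erase hk
      have hk2 : k ≠ i := Finset.ne_of_mem_erase (Finset.mem_of_mem_erase hk)
      simp [f, hk1, hk2]
    simp_rw [h1]
    rw [Finset.sum_eq_single (z i), Finset.sum_eq_single (z j)]
    · simp
    · intro b _ hb
      rw [if_neg (show ¬ z j = b from fun h => hb h.symm)]
      simp
    · intro h
      exact absurd (Finset.mem_univ _) h
    · intro a _ ha
      refine Finset.sum_eq_zero fun b _ => ?_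
      rw [if_neg (show ¬ z i = a from fun h => ha h.symm)]
      simp
    · intro h
      exact absurd (Finset.mem_univ _) h
  simp_rw [hz]
  rw [Finset.sum_comm, Finset.sum_mul]
  refine Finset.sum_congr rfl fun a _ => ?_
  rw [Finset.sum_comm, Finset.sum_mul]
  refine Finset.sum_congr rfl fun b _ => ?_
  rw [← Finset.mul_sum, hf]

/-- the sum over `x` of the products of two gradients -/
lemma grad2 {J : V → V → ℝ} {D G q t : ℝ} (H : Hyp J D G q t) (S : Finset (ι → V)) {N : ℝ}
    (hN0 : 0 ≤ N)
    (hN : ∀ (v0 : V) (j : ι), ((S.image fun x => Function.update x j v0).card : ℝ) ≤ N)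
    {u : ℝ} (hu : 0 ≤ u) {i j : ι} (hij : i ≠ j) :
    ∑ x ∈ S, ∑ a, ∑ b, J a b / 2 * (|qq J u a (x i) - qq J u b (x i)| *
      |qq J u a (x j) - qq J u b (x j)|) ≤ D * G ^ 2 * N / (1 + u) := by
  have hD := H.D0
  have hG := H.G0
  rcases S.eq_empty_or_nonempty with h | ⟨x₀, _⟩
  · rw [h, Finset.sum_empty]
    positivity
  have hs : 0 ≤ G / Real.sqrt (1 + u) := by positivity
  have hs2 : (G / Real.sqrt (1 + u)) * (G / Real.sqrt (1 + u)) = G ^ 2 / (1 + u) := by
    rw [div_mul_div_comm, Real.mul_self_sqrt (by linarith)]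
    ring
  refine (fib V ι S (x₀ j) j (fun x => ∑ a, ∑ b, J a b / 2 *
    (|qq J u a (x i) - qq J u b (x i)| * |qq J u a (x j) - qq J u b (x j)|)) fun x =>
      Finset.sum_nonneg fun a _ => Finset.sum_nonneg fun b _ => mul_nonneg
        (div_nonneg (H.nn _ _) (by norm_num)) (by positivity)).trans ?_
  have h1 : ∀ w : ι → V, ∑ y, ∑ a, ∑ b, J a b / 2 *
      (|qq J u a (Function.update w j y i) - qq J u b (Function.update w j y i)| *
        |qq J u a (Function.update w j y j) - qq J u b (Function.update w j y j)|) ≤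
      D * G ^ 2 / (1 + u) := by
    intro w
    simp only [Function.update_self, Function.update_of_ne hij]
    rw [Finset.sum_comm]
    have h2 : ∀ a, ∑ y, ∑ b, J a b / 2 * (|qq J u a (w i) - qq J u b (w i)| *
        |qq J u a y - qq J u b y|) ≤ ∑ b, J a b * |qq J u a (w i) - qq J u b (w i)| *
          (G / Real.sqrt (1 + u) / 2) := by
      intro a
      rw [Finset.sum_comm]
      refine Finset.sum_le_sum fun b _ => ?_
      rw [← Finset.mul_sum, ← Finset.mul_sum]
      by_cases hJ : J a b = 0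
      · rw [hJ]
        simp
      have h3 := H.g1 u hu a b hJ
      have h4 : J a b / 2 * (|qq J u a (w i) - qq J u b (w i)| * ∑ y, |qq J u a y - qq J u b y|) ≤
          J a b / 2 * (|qq J u a (w i) - qq J u b (w i)| * (G / Real.sqrt (1 + u))) :=
        mul_le_mul_of_nonneg_left (mul_le_mul_of_nonneg_left h3 (abs_nonneg _))
          (div_nonneg (H.nn _ _) (by norm_num))
      refine h4.trans_eq ?_
      ring
    refine (Finset.sum_le_sum fun a _ => h2 a).trans ?_
    simp_rw [← Finset.sum_mul]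
    have h5 := mul_le_mul_of_nonneg_right (H.g2 u hu (w i))
      (show 0 ≤ G / Real.sqrt (1 + u) / 2 by positivity)
    refine h5.trans ?_
    have h6 : D * (G / Real.sqrt (1 + u)) * (G / Real.sqrt (1 + u) / 2) =
        D / 2 * (G ^ 2 / (1 + u)) := by
      rw [← hs2]
      ring
    rw [h6, mul_div_assoc D]
    apply mul_le_mul_of_nonneg_right _ (by positivity)
    linarith
  refine (Finset.sum_le_sum fun w _ => h1 w).trans ?_
  rw [Finset.sum_const, nsmul_eq_mul]
  have h7 := mul_le_mul_of_nonneg_right (hN (x₀ j) j)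
    (show 0 ≤ D * G ^ 2 / (1 + u) by positivity)
  refine h7.trans_eq ?_
  ring

end Pool.Agent.Helper47K9.SC.EL

namespace Pool.Agent.Helper47K9.SC

open Finset Equiv Pool.Agent.Y998.ST EL

theorem e2 (hubd : S_UBD) : S_E2 := by
  intro ι _ _
  refine ⟨(Fintype.card ι : ℝ) ^ Fintype.card ι * (Fintype.card ι : ℝ) ^ 2 + 1, by positivity, ?_⟩
  intro V _ _ J D G q t H S hinj N hN0 hN τ s hs hst
  have ht := H.t0
  have hq := H.q0
  have hD := H.D0
  have hu : 0 ≤ t - s := by linarith
  have hs0 : 0 ≤ s := by linarith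
  have hT : 0 ≤ D * G ^ 2 * q ^ Fintype.card ι * N / (1 + (t - s)) := by positivity
  have h1 : ∀ x ∈ S, stirExp J s (fun g =>
      |defect J (fun k a => qq J (t - s) a (x (τ k))) (fun k => g (x k))|) ≤
      (Fintype.card ι * q) ^ Fintype.card ι * ∑ i, ∑ j ∈ univ.erase i, ∑ a, ∑ b, J a b / 2 *
        (|qq J (t - s) a (x (τ i)) - qq J (t - s) b (x (τ i))| *
          |qq J (t - s) a (x (τ j)) - qq J (t - s) b (x (τ j))|) := by
    intro x hx
    rw [exp_US J s x fun z => |defect J (fun k a => qq J (t - s) a (x (τ k))) z|]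
    have h2 : ∑ z, US J s x z * |defect J (fun k a => qq J (t - s) a (x (τ k))) z| ≤
        ∑ z, (Fintype.card ι * q) ^ Fintype.card ι *
          |defect J (fun k a => qq J (t - s) a (x (τ k))) z| :=
      Finset.sum_le_sum fun z _ => mul_le_mul_of_nonneg_right
        (hubd V J H.nn H.sy H.dg ι x z (hinj x hx) s q hs0 fun a b => H.q1 s (by linarith) a b)
        (abs_nonneg _)
    refine h2.trans ?_
    rw [← Finset.mul_sum]
    apply mul_le_mul_of_nonneg_left _ (by positivity)
    refine (Finset.sum_le_sum fun z _ => defect_le J H.nn _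
      (fun k a => qq_nonneg H.nn hu _ _) z).trans ?_
    rw [Finset.sum_comm]
    refine Finset.sum_le_sum fun i _ => ?_
    rw [Finset.sum_comm]
    refine Finset.sum_le_sum fun j hj => ?_
    have h4 : ∏ k ∈ (univ.erase i).erase j, ∑ c, qq J (t - s) c (x (τ k)) = 1 :=
      Finset.prod_eq_one fun k _ => col J _ _
    refine le_of_eq ?_
    calc _ = (∑ a, ∑ b, J a b / 2 *
          (|qq J (t - s) a (x (τ i)) - qq J (t - s) b (x (τ i))| *
            |qq J (t - s) a (x (τ j)) - qq J (t - s) b (x (τ j))|)) *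
          ∏ k ∈ (univ.erase i).erase j, ∑ c, qq J (t - s) c (x (τ k)) :=
          sum_pair (fun a b => J a b / 2 *
            (|qq J (t - s) a (x (τ i)) - qq J (t - s) b (x (τ i))| *
              |qq J (t - s) a (x (τ j)) - qq J (t - s) b (x (τ j))|))
            (fun k a => qq J (t - s) a (x (τ k))) hj
      _ = _ := by rw [h4, mul_one]
  refine (Finset.sum_le_sum h1).trans ?_
  rw [← Finset.mul_sum, Finset.sum_comm]
  have h5 : ∀ i, ∑ x ∈ S, ∑ j ∈ univ.erase i, ∑ a, ∑ b, J a b / 2 *
        (|qq J (t - s) a (x (τ i)) - qq J (t - s) b (x (τ i))| *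
          |qq J (t - s) a (x (τ j)) - qq J (t - s) b (x (τ j))|) ≤
      (Fintype.card ι : ℝ) * (D * G ^ 2 * N / (1 + (t - s))) := by
    intro i
    rw [Finset.sum_comm]
    refine (Finset.sum_le_sum fun j hj => grad2 H S hN0 hN hu (i := τ i) (j := τ j)
      (fun h => Finset.ne_of_mem_erase hj (τ.injective h).symm)).trans ?_
    rw [Finset.sum_const, nsmul_eq_mul]
    apply mul_le_mul_of_nonneg_right _ (by positivity)
    exact_mod_cast Finset.card_le_univ _
  have h6 : ∑ i, ∑ x ∈ S, ∑ j ∈ univ.erase i, ∑ a, ∑ b, J a b / 2 *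
        (|qq J (t - s) a (x (τ i)) - qq J (t - s) b (x (τ i))| *
          |qq J (t - s) a (x (τ j)) - qq J (t - s) b (x (τ j))|) ≤
      (Fintype.card ι : ℝ) * ((Fintype.card ι : ℝ) * (D * G ^ 2 * N / (1 + (t - s)))) := by
    refine (Finset.sum_le_sum fun i _ => h5 i).trans ?_
    rw [Finset.sum_const, nsmul_eq_mul, Finset.card_univ]
  refine (mul_le_mul_of_nonneg_left h6 (by positivity)).trans ?_
  calc ((Fintype.card ι : ℝ) * q) ^ Fintype.card ι * ((Fintype.card ι : ℝ) *
        ((Fintype.card ι : ℝ) * (D * G ^ 2 * N / (1 + (t - s))))) =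
        ((Fintype.card ι : ℝ) ^ Fintype.card ι * (Fintype.card ι : ℝ) ^ 2) *
          (D * G ^ 2 * q ^ Fintype.card ι * N / (1 + (t - s))) := by
        rw [mul_pow]
        ring
    _ ≤ _ := by
        apply mul_le_mul_of_nonneg_right _ hT
        linarith

end Pool.Agent.Helper47K9.SC
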