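import Pool.Agent.Helper47K9.SC.Stm

set_option autoImplicit false

/-!
# Short cycles of random stirring: sums over projections, and the defect for small times
-/

namespace Pool.Agent.Helper47K9.SC

open Finset Equiv Pool.Agent.Y998.ST

theorem fib : S_FIB := by
  intro V _ _ ι _ _ S v0 j F hF
  rw [← Finset.sum_fiberwise_of_maps_to (t := S.image fun x => Function.update x j v0)
    (g := fun x => Function.update x j v0) fun x hx => Finset.mem_image_of_mem _ hx]
  refine Finset.sum_le_sum fun w _ => ?_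
  have hupd : ∀ x ∈ S.filter (fun x => Function.update x j v0 = w),
      Function.update w j (x j) = x := by
    intro x hx
    rw [← (Finset.mem_filter.1 hx).2]
    simp
  have h1 : ∑ x ∈ S.filter (fun x => Function.update x j v0 = w), F x =
      ∑ y ∈ (S.filter (fun x => Function.update x j v0 = w)).image (fun x => x j),
        F (Function.update w j y) := by
    rw [Finset.sum_image]
    · exact Finset.sum_congr rfl fun x hx => by rw [hupd x hx]
    · intro x hx x' hx' h
      rw [← hupd x hx, ← hupd x' hx']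
      simp only at h
      rw [h]
  rw [h1]
  exact Finset.sum_le_sum_of_subset_of_nonneg (Finset.subset_univ _) fun y _ _ => hF _

end Pool.Agent.Helper47K9.SC

namespace Pool.Agent.Helper47K9.SC.EL

open Finset Equiv Pool.Agent.Y998.ST

variable {V : Type} [Fintype V] [DecidableEq V] {ι : Type} [Fintype ι] [DecidableEq ι]

lemma col (J : V → V → ℝ) (t : ℝ) (w : V) : ∑ c, qq J t c w = 1 := by
  unfold qq hop
  rw [exp_sum]
  have h : (fun g : Perm V => ∑ c, (if g c = w then (1 : ℝ) else 0)) = fun _ => 1 := by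
    funext g
    rw [Finset.sum_eq_single (g.symm w)]
    · simp
    · intro b _ hb
      rw [if_neg]
      intro h
      exact hb (by rw [← h]; simp)
    · intro h
      exact absurd (Finset.mem_univ _) h
  rw [h, exp_const]

omit [Fintype V] [DecidableEq V] in
/-- the absolute value of the defect -/
lemma defect_le (J : V → V → ℝ) (hJ : ∀ x y, 0 ≤ J x y) (h : ι → V → ℝ) (hh : ∀ k a, 0 ≤ h k a)
    (z : ι → V) : |defect J h z| ≤ ∑ i, ∑ j ∈ univ.erase i, J (z i) (z j) / 2 *
    (|h i (z i) - h i (z j)| * |h j (z i) - h j (z j)|) *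
      ∏ k ∈ (univ.erase i).erase j, h k (z k) := by
  unfold defect
  refine (Finset.abs_sum_le_sum_abs _ _).trans (Finset.sum_le_sum fun i _ => ?_)
  refine (Finset.abs_sum_le_sum_abs _ _).trans (Finset.sum_le_sum fun j _ => ?_)
  rw [abs_mul, abs_mul, abs_mul, abs_of_nonneg (Finset.prod_nonneg fun k _ => hh k (z k)),
    abs_of_nonneg (div_nonneg (hJ _ _) (by norm_num))]

lemma grad {J : V → V → ℝ} {D G q t : ℝ} (H : Hyp J D G q t) {u : ℝ} (hu : t / 2 ≤ u) (a b w : V)
    (hab : J a b ≠ 0) : |qq J u a w - qq J u b w| ≤ q * (G / Real.sqrt (1 + u / 2)) := by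
  have ht := H.t0
  have h1 : qq J u = qq J (u / 2) * qq J (u / 2) := by
    rw [← qq_add H.sy H.dg, add_halves]
  rw [h1, Matrix.mul_apply, Matrix.mul_apply, ← Finset.sum_sub_distrib]
  have h2 : ∀ c, qq J (u / 2) a c * qq J (u / 2) c w - qq J (u / 2) b c * qq J (u / 2) c w =
      (qq J (u / 2) a c - qq J (u / 2) b c) * qq J (u / 2) c w := fun c => by ring
  simp_rw [h2]
  refine (Finset.abs_sum_le_sum_abs _ _).trans ?_
  refine le_trans (Finset.sum_le_sum fun c _ => ?_) ?_ (b := ∑ c,
    |qq J (u / 2) a c - qq J (u / 2) b c| * q)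
  · rw [abs_mul, abs_of_nonneg (qq_nonneg H.nn (by linarith) c w)]
    exact mul_le_mul_of_nonneg_left (H.q1 _ (by linarith) c w) (abs_nonneg _)
  · rw [← Finset.sum_mul, mul_comm]
    exact mul_le_mul_of_nonneg_left (H.g1 (u / 2) (by linarith) a b hab) H.q0

lemma pair_sum {J : V → V → ℝ} {D G q t : ℝ} (H : Hyp J D G q t) (S : Finset (ι → V)) {N : ℝ}
    (hN0 : 0 ≤ N)
    (hN : ∀ (v0 : V) (j : ι), ((S.image fun x => Function.update x j v0).card : ℝ) ≤ N)
    (g : Perm V) {i j : ι} (hij : i ≠ j) : ∑ x ∈ S, J (g (x i)) (g (x j)) ≤ N * D := by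
  rcases S.eq_empty_or_nonempty with h | ⟨x₀, _⟩
  · rw [h, Finset.sum_empty]
    exact mul_nonneg hN0 H.D0
  · refine (fib V ι S (x₀ j) j (fun x => J (g (x i)) (g (x j))) fun x => H.nn _ _).trans ?_
    have h1 : ∀ w : ι → V, ∑ y, J (g (Function.update w j y i)) (g (Function.update w j y j)) ≤
        D := by
      intro w
      simp only [Function.update_self, Function.update_of_ne hij]
      rw [Equiv.sum_comp g fun y => J (g (w i)) y]
      exact H.row _
    refine (Finset.sum_le_sum fun w _ => h1 w).trans ?_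
    rw [Finset.sum_const, nsmul_eq_mul]
    exact mul_le_mul_of_nonneg_right (hN (x₀ j) j) H.D0

lemma card_erase2 {i j : ι} (hij : j ∈ univ.erase i) :
    ((univ.erase i).erase j).card + 2 = Fintype.card ι := by
  rw [Finset.card_erase_of_mem hij, Finset.card_erase_of_mem (Finset.mem_univ i),
    Finset.card_univ]
  have h1 : 0 < ((univ : Finset ι).erase i).card := Finset.card_pos.2 ⟨j, hij⟩
  rw [Finset.card_erase_of_mem (Finset.mem_univ i), Finset.card_univ] at h1
  omega

end Pool.Agent.Helper47K9.SC.EL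

namespace Pool.Agent.Helper47K9.SC

open Finset Equiv Pool.Agent.Y998.ST EL

theorem e1 : S_E1 := by
  intro ι _ _
  refine ⟨2 * (Fintype.card ι : ℝ) ^ 2 + 1, by positivity, ?_⟩
  intro V _ _ J D G q t H S N hN0 hN τ s hs hst
  have ht := H.t0
  have hu : t / 2 ≤ t - s := by linarith
  rw [exp_sum]
  have hT : 0 ≤ D * G ^ 2 * q ^ Fintype.card ι * N / (1 + t) := by
    have := H.D0
    have := H.q0
    positivity
  have hG2 : (G / Real.sqrt (1 + (t - s) / 2)) ^ 2 ≤ 4 * G ^ 2 / (1 + t) := by
    rw [div_pow, Real.sq_sqrt (by linarith), div_le_div_iff₀ (by linarith) (by linarith)]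
    have := sq_nonneg G
    nlinarith
  have key : ∀ g : Perm V, ∑ x ∈ S,
      |defect J (fun k a => qq J (t - s) a (x (τ k))) (fun k => g (x k))| ≤
      (2 * (Fintype.card ι : ℝ) ^ 2 + 1) * (D * G ^ 2 * q ^ Fintype.card ι * N / (1 + t)) := by
    intro g
    have h1 : ∀ x ∈ S, |defect J (fun k a => qq J (t - s) a (x (τ k))) (fun k => g (x k))| ≤
        ∑ i, ∑ j ∈ univ.erase i, J (g (x i)) (g (x j)) *
          (2 * (G ^ 2 * q ^ Fintype.card ι / (1 + t))) := by
      intro x _
      refine (defect_le J H.nn _ (fun k a => qq_nonneg H.nn (by linarith) _ _) _).trans ?_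
      refine Finset.sum_le_sum fun i _ => Finset.sum_le_sum fun j hj => ?_
      by_cases hJ : J (g (x i)) (g (x j)) = 0
      · rw [hJ]
        simp
      have b1 := grad H hu (g (x i)) (g (x j)) (x (τ i)) hJ
      have b2 := grad H hu (g (x i)) (g (x j)) (x (τ j)) hJ
      have b3 : ∏ k ∈ (univ.erase i).erase j, qq J (t - s) (g (x k)) (x (τ k)) ≤
          q ^ ((univ.erase i).erase j).card := by
        rw [← Finset.prod_const]
        exact Finset.prod_le_prod (fun k _ => qq_nonneg H.nn (by linarith) _ _)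
          fun k _ => H.q1 _ (by linarith) _ _
      have b3' : 0 ≤ ∏ k ∈ (univ.erase i).erase j, qq J (t - s) (g (x k)) (x (τ k)) :=
        Finset.prod_nonneg fun k _ => qq_nonneg H.nn (by linarith) _ _
      have b4 : |qq J (t - s) (g (x i)) (x (τ i)) - qq J (t - s) (g (x j)) (x (τ i))| *
          |qq J (t - s) (g (x i)) (x (τ j)) - qq J (t - s) (g (x j)) (x (τ j))| ≤
          q ^ 2 * (4 * G ^ 2 / (1 + t)) := by
        calc _ ≤ (q * (G / Real.sqrt (1 + (t - s) / 2))) *
              (q * (G / Real.sqrt (1 + (t - s) / 2))) :=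
              mul_le_mul b1 b2 (abs_nonneg _) ((abs_nonneg _).trans b1)
          _ = q ^ 2 * (G / Real.sqrt (1 + (t - s) / 2)) ^ 2 := by ring
          _ ≤ _ := mul_le_mul_of_nonneg_left hG2 (sq_nonneg q)
      have hJ0 := H.nn (g (x i)) (g (x j))
      calc J (g (x i)) (g (x j)) / 2 *
            (|qq J (t - s) (g (x i)) (x (τ i)) - qq J (t - s) (g (x j)) (x (τ i))| *
            |qq J (t - s) (g (x i)) (x (τ j)) - qq J (t - s) (g (x j)) (x (τ j))|) *
            ∏ k ∈ (univ.erase i).erase j, qq J (t - s) (g (x k)) (x (τ k)) ≤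
            J (g (x i)) (g (x j)) / 2 * (q ^ 2 * (4 * G ^ 2 / (1 + t))) *
              q ^ ((univ.erase i).erase j).card := by
            apply mul_le_mul (mul_le_mul_of_nonneg_left b4 (by positivity)) b3 b3'
            positivity
        _ = J (g (x i)) (g (x j)) * (2 * (G ^ 2 * q ^ Fintype.card ι / (1 + t))) := by
            rw [← card_erase2 hj, pow_add]
            ring
    refine (Finset.sum_le_sum h1).trans ?_
    rw [Finset.sum_comm]
    have h2 : ∀ i, ∑ x ∈ S, ∑ j ∈ univ.erase i, J (g (x i)) (g (x j)) *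
        (2 * (G ^ 2 * q ^ Fintype.card ι / (1 + t))) ≤ (Fintype.card ι : ℝ) *
        (N * D * (2 * (G ^ 2 * q ^ Fintype.card ι / (1 + t)))) := by
      intro i
      have hq := H.q0
      have hD := H.D0
      rw [Finset.sum_comm]
      have h3 : ∀ j ∈ univ.erase i, ∑ x ∈ S, J (g (x i)) (g (x j)) *
          (2 * (G ^ 2 * q ^ Fintype.card ι / (1 + t))) ≤
          N * D * (2 * (G ^ 2 * q ^ Fintype.card ι / (1 + t))) := by
        intro j hj
        rw [← Finset.sum_mul]
        apply mul_le_mul_of_nonneg_right _ (by positivity)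
        exact pair_sum H S hN0 hN g (Finset.ne_of_mem_erase hj).symm
      refine (Finset.sum_le_sum h3).trans ?_
      rw [Finset.sum_const, nsmul_eq_mul]
      apply mul_le_mul_of_nonneg_right _ (by positivity)
      exact_mod_cast Finset.card_le_univ _
    refine (Finset.sum_le_sum fun i _ => h2 i).trans ?_
    rw [Finset.sum_const, nsmul_eq_mul, Finset.card_univ]
    calc (Fintype.card ι : ℝ) * ((Fintype.card ι : ℝ) *
          (N * D * (2 * (G ^ 2 * q ^ Fintype.card ι / (1 + t))))) =
          2 * (Fintype.card ι : ℝ) ^ 2 * (D * G ^ 2 * q ^ Fintype.card ι * N / (1 + t)) := by ring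
      _ ≤ _ := by
          apply mul_le_mul_of_nonneg_right _ hT
          linarith
  refine (exp_mono H.nn hs key).trans_eq ?_
  rw [exp_const]

end Pool.Agent.Helper47K9.SC
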