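import Pool.Agent.Helper47K9.SC.Geo

/-!
# Short cycles: the factorial moments
-/

set_option autoImplicit false

namespace Pool.Agent.Helper47K9.SC

open Finset Equiv Pool.Agent.Y998.ST

section abs

variable {V : Type} [Fintype V] [DecidableEq V] {J : V → V → ℝ} {C : Type} [Fintype C]
  [DecidableEq C] {l : C → ℕ}

theorem US_nonneg (hJ : ∀ x y, 0 ≤ J x y) {ι : Type} [Fintype ι] {t : ℝ} (ht : 0 ≤ t)
    (x y : ι → V) : 0 ≤ US J t x y :=
  exp_nonneg hJ ht fun g => by split_ifs <;> norm_num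

theorem IS_nonneg (hJ : ∀ x y, 0 ≤ J x y) {ι : Type} [Fintype ι] {t : ℝ} (ht : 0 ≤ t)
    (x y : ι → V) : 0 ≤ IS J t x y :=
  Finset.prod_nonneg fun _ _ => qq_nonneg hJ ht _ _

open Classical in
/-- The abstract comparison. -/
theorem compare (hM : S_MAIN) (hCK : S_CK) (hCNT : S_CNT) (hTU : S_TU) (hTV : S_TV)
    (C : Type) [Fintype C] [DecidableEq C] (l : C → ℕ) (hl : ∀ c, 1 ≤ l c) :
    ∃ A : ℝ, 0 < A ∧ ∀ (V : Type) [Fintype V] [DecidableEq V] (J : V → V → ℝ) (D G q t : ℝ),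
      Hyp J D G q t → ∀ (near st : V → V → Prop) (b θ : ℝ), 1 ≤ b → b ≤ Fintype.card V →
      (∀ x, ((univ.filter fun y => near x y).card : ℝ) ≤ b) →
      (∀ x, ∑ y with ¬ st x y, qq J t x y ≤ θ) →
      (∀ x : Ix C l → V, (∀ k, st (x k) (x (rot l k))) →
        ∀ c a a', near (x ⟨c, a⟩) (x ⟨c, a'⟩)) →
      |∑ x : Ix C l → V with Function.Injective x, US J t x (fun k => x (rot l k)) -
        ∏ c, ((qq J t) ^ l c).trace| ≤
      A * ((Fintype.card V : ℝ) ^ Fintype.card C * θ + (1 + D * G ^ 2 * (1 + Real.log (1 + t))) *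
        (q ^ Fintype.card (Ix C l) *
          ((Fintype.card V : ℝ) ^ Fintype.card C * b ^ (∑ c, (l c - 1)) / b))) := by
  obtain ⟨A1, hA1, hM'⟩ := hM (Ix C l)
  obtain ⟨m, hm⟩ : ∃ m : ℝ, m = ∑ c, (l c : ℝ) := ⟨_, rfl⟩
  have hm0 : 0 ≤ m := by rw [hm]; exact Finset.sum_nonneg fun c _ => by positivity
  refine ⟨A1 + 2 * m + (Fintype.card (Ix C l) : ℝ) ^ 2, by positivity, ?_⟩
  intro V _ _ J D G q t hy near st b θ hb1 hbV hball hθ hnear
  have hb0 : 0 < b := by linarith
  have ht0 := hy.t0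
  obtain ⟨N, hN⟩ : ∃ N : ℝ, N = (Fintype.card V : ℝ) ^ Fintype.card C *
    b ^ (∑ c, (l c - 1)) / b := ⟨_, rfl⟩
  have hN0 : 0 ≤ N := by rw [hN]; positivity
  obtain ⟨Θ, hΘ⟩ : ∃ Θ : ℝ, Θ = (Fintype.card V : ℝ) ^ Fintype.card C * θ := ⟨_, rfl⟩
  rw [← hN, ← hΘ]
  obtain ⟨Q, hQ⟩ : ∃ Q : ℝ, Q = q ^ Fintype.card (Ix C l) := ⟨_, rfl⟩
  have hQ0 : 0 ≤ Q := by rw [hQ]; exact pow_nonneg hy.q0 _
  rw [← hQ]
  -- the localised tuples
  obtain ⟨T, hT⟩ : ∃ T : Finset (Ix C l → V), T = univ.filter fun x : Ix C l → V =>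
    ∀ c a a', near (x ⟨c, a⟩) (x ⟨c, a'⟩) := ⟨_, rfl⟩
  have hTN : ∀ (v0 : V) (j : Ix C l),
      ((T.image fun x => Function.update x j v0).card : ℝ) ≤ N := by
    intro v0 j
    rw [hN, le_div_iff₀ hb0, hT]
    exact hCNT V C l hl near b hb1 hbV hball v0 j
  obtain ⟨S, hS⟩ : ∃ S : Finset (Ix C l → V), S = T.filter fun x => Function.Injective x :=
    ⟨_, rfl⟩
  have hST : S ⊆ T := by rw [hS]; exact Finset.filter_subset _ _
  have hSN : ∀ (v0 : V) (j : Ix C l),
      ((S.image fun x => Function.update x j v0).card : ℝ) ≤ N := by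
    intro v0 j
    refine le_trans ?_ (hTN v0 j)
    exact_mod_cast Finset.card_le_card (Finset.image_subset_image hST)
  have hmain := hM' V J D G q t hy S (fun x hx => by rw [hS] at hx; exact (Finset.mem_filter.1 hx).2)
    N hN0 hSN (rot l)
  rw [← hQ] at hmain
  obtain ⟨U, hU⟩ : ∃ U : (Ix C l → V) → ℝ, U = fun x => US J t x (fun k => x (rot l k)) :=
    ⟨_, rfl⟩
  obtain ⟨I, hI⟩ : ∃ I : (Ix C l → V) → ℝ, I = fun x => IS J t x (fun k => x (rot l k)) :=
    ⟨_, rfl⟩
  have hU0 : ∀ x, 0 ≤ U x := fun x => by rw [hU]; exact US_nonneg hy.nn ht0 _ _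
  have hI0 : ∀ x, 0 ≤ I x := fun x => by rw [hI]; exact IS_nonneg hy.nn ht0 _ _
  have hmain' : |∑ x ∈ S, (U x - I x)| ≤ A1 * (D * G ^ 2 * Q * N * (1 + Real.log (1 + t))) := by
    rw [hU, hI]; exact hmain
  have htu : ∑ x : Ix C l → V with ∃ k, ¬ st (x k) (x (rot l k)), U x ≤ m * Θ := by
    rw [hU, hm, hΘ]; exact hTU V J hy.nn C l hl st t θ ht0 hθ
  have htv : ∑ x : Ix C l → V with ∃ k, ¬ st (x k) (x (rot l k)), I x ≤ m * Θ := by
    rw [hI, hm, hΘ]; exact hTV V J hy.nn C l hl st t θ ht0 hθ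
  have hck : ∑ x : Ix C l → V, I x = ∏ c, ((qq J t) ^ l c).trace := by
    rw [hI]; exact hCK V (qq J t) C l hl
  rw [← hck]
  have hnotT : ∀ x : Ix C l → V, x ∉ T → ∃ k, ¬ st (x k) (x (rot l k)) := by
    intro x hx
    by_contra h
    push Not at h
    refine hx ?_
    rw [hT, Finset.mem_filter]
    exact ⟨Finset.mem_univ _, hnear x h⟩
  -- stirring
  have hU1 : ∑ x : Ix C l → V with Function.Injective x, U x = ∑ x ∈ S, U x +
      ∑ x : Ix C l → V with Function.Injective x ∧ x ∉ T, U x := by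
    have h1 : S = univ.filter fun x : Ix C l → V => Function.Injective x ∧ x ∈ T := by
      rw [hS]
      ext x
      simp only [Finset.mem_filter, Finset.mem_univ, true_and]
      tauto
    rw [h1, Finset.sum_filter, Finset.sum_filter, Finset.sum_filter, ← Finset.sum_add_distrib]
    refine Finset.sum_congr rfl fun x _ => ?_
    by_cases ha : Function.Injective x
    · by_cases hb : x ∈ T
      · simp [ha, hb]
      · simp [ha, hb]
    · simp [ha]
  have hU2 : ∑ x : Ix C l → V with Function.Injective x ∧ x ∉ T, U x ≤ m * Θ := by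
    refine le_trans ?_ htu
    refine Finset.sum_le_sum_of_subset_of_nonneg ?_ fun x _ _ => hU0 x
    intro x hx
    rw [Finset.mem_filter] at hx ⊢
    exact ⟨hx.1, hnotT x hx.2.2⟩
  have hU3 : 0 ≤ ∑ x : Ix C l → V with Function.Injective x ∧ x ∉ T, U x :=
    Finset.sum_nonneg fun x _ => hU0 x
  -- independent walks
  have hI1 : ∑ x : Ix C l → V, I x = ∑ x ∈ S, I x + ∑ x ∈ T with ¬ Function.Injective x, I x +
      ∑ x : Ix C l → V with x ∉ T, I x := by
    rw [hS, Finset.sum_filter_add_sum_filter_not T (fun x => Function.Injective x)]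
    have h1 : ∑ x ∈ T, I x = ∑ x : Ix C l → V with x ∈ T, I x := by
      congr 1
      ext x
      simp
    rw [h1]
    exact (Finset.sum_filter_add_sum_filter_not Finset.univ (fun x => x ∈ T) _).symm
  have hI2 : ∑ x : Ix C l → V with x ∉ T, I x ≤ m * Θ := by
    refine le_trans ?_ htv
    refine Finset.sum_le_sum_of_subset_of_nonneg ?_ fun x _ _ => hI0 x
    intro x hx
    rw [Finset.mem_filter] at hx ⊢
    exact ⟨hx.1, hnotT x hx.2⟩
  have hI3 : 0 ≤ ∑ x : Ix C l → V with x ∉ T, I x := Finset.sum_nonneg fun x _ => hI0 x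
  have hIQ : ∀ x, I x ≤ Q := by
    intro x
    rw [hI, hQ]
    unfold IS
    calc ∏ k, qq J t (x k) (x (rot l k)) ≤ ∏ _k : Ix C l, q :=
          Finset.prod_le_prod (fun k _ => qq_nonneg hy.nn ht0 _ _) fun k _ =>
            hy.q1 t (by linarith) _ _
      _ = _ := by rw [Finset.prod_const, Finset.card_univ]
  have hI4 : 0 ≤ ∑ x ∈ T with ¬ Function.Injective x, I x := Finset.sum_nonneg fun x _ => hI0 x
  have hI5 : ∑ x ∈ T with ¬ Function.Injective x, I x ≤
      (Fintype.card (Ix C l) : ℝ) ^ 2 * (Q * N) := by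
    have h1 : ∀ x ∈ T.filter fun x => ¬ Function.Injective x, I x ≤
        ∑ i : Ix C l, ∑ j : Ix C l, (if i ≠ j ∧ x i = x j then Q else 0) := by
      intro x hx
      have h2 := (Finset.mem_filter.1 hx).2
      unfold Function.Injective at h2
      push Not at h2
      obtain ⟨i, j, hij, hne⟩ := h2
      have hnn : ∀ i j : Ix C l, 0 ≤ (if i ≠ j ∧ x i = x j then Q else 0) := by
        intro i j; split_ifs <;> [exact hQ0; exact le_rfl]
      calc I x ≤ (if i ≠ j ∧ x i = x j then Q else 0) := by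
            rw [if_pos ⟨hne, hij⟩]; exact hIQ x
        _ ≤ ∑ j : Ix C l, (if i ≠ j ∧ x i = x j then Q else 0) :=
            Finset.single_le_sum (f := fun j => (if i ≠ j ∧ x i = x j then Q else 0))
              (fun j _ => hnn i j) (Finset.mem_univ j)
        _ ≤ _ := Finset.single_le_sum (f := fun i => ∑ j : Ix C l,
              (if i ≠ j ∧ x i = x j then Q else 0))
              (fun i _ => Finset.sum_nonneg fun j _ => hnn i j) (Finset.mem_univ i)
    refine (Finset.sum_le_sum h1).trans ?_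
    have h3 : ∀ i j : Ix C l, ∑ x ∈ T.filter fun x => ¬ Function.Injective x,
        (if i ≠ j ∧ x i = x j then Q else 0) ≤ Q * N := by
      intro i j
      by_cases hij : i = j
      · subst hij
        simp only [ne_eq, not_true_eq_false, false_and, if_false, Finset.sum_const_zero]
        exact mul_nonneg hQ0 hN0
      · have h4 : ∑ x ∈ T.filter fun x => ¬ Function.Injective x,
            (if i ≠ j ∧ x i = x j then Q else 0) ≤
            ∑ x ∈ T.filter fun x => x i = x j, Q := by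
          rw [Finset.sum_filter, Finset.sum_filter]
          refine Finset.sum_le_sum fun x _ => ?_
          by_cases hx : x i = x j
          · rw [if_pos hx]
            have h9 : (if i ≠ j ∧ x i = x j then Q else 0) ≤ Q := by
              split_ifs
              · exact le_rfl
              · exact hQ0
            split_ifs at h9 ⊢
            all_goals first | exact le_rfl | exact hQ0
          · simp [hx]
        refine h4.trans ?_
        rw [Finset.sum_const, nsmul_eq_mul, mul_comm]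
        refine mul_le_mul_of_nonneg_left ?_ hQ0
        by_cases hV : Nonempty V
        · obtain ⟨v0⟩ := hV
          refine le_trans ?_ (hTN v0 j)
          have h5 : (T.filter fun x => x i = x j).card =
              ((T.filter fun x => x i = x j).image fun x => Function.update x j v0).card := by
            rw [Finset.card_image_of_injOn]
            intro x hx y hy' hxy
            have hx' := (Finset.mem_filter.1 hx).2
            have hy'' := (Finset.mem_filter.1 hy').2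
            simp only at hxy
            have h6 : ∀ k, k ≠ j → x k = y k := by
              intro k hk
              have := congrFun hxy k
              rwa [Function.update_of_ne hk, Function.update_of_ne hk] at this
            funext k
            by_cases hk : k = j
            · subst hk
              rw [← hx', ← hy'']
              exact h6 i hij
            · exact h6 k hk
          rw [h5]
          exact_mod_cast Finset.card_le_card
            (Finset.image_subset_image (Finset.filter_subset _ _))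
        · have h7 : (T.filter fun x => x i = x j) = ∅ := by
            rw [Finset.eq_empty_iff_forall_notMem]
            intro x _
            exact hV ⟨x i⟩
          rw [h7]
          simpa using hN0
    rw [Finset.sum_comm]
    have h8 : ∀ i : Ix C l, ∑ x ∈ T.filter fun x => ¬ Function.Injective x, ∑ j : Ix C l,
        (if i ≠ j ∧ x i = x j then Q else 0) ≤ Fintype.card (Ix C l) * (Q * N) := by
      intro i
      rw [Finset.sum_comm]
      refine (Finset.sum_le_sum fun j _ => h3 i j).trans ?_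
      rw [Finset.sum_const, Finset.card_univ, nsmul_eq_mul]
    refine (Finset.sum_le_sum fun i _ => h8 i).trans ?_
    rw [Finset.sum_const, Finset.card_univ, nsmul_eq_mul]
    exact le_of_eq (by ring)
  -- conclusion
  have hsub : ∑ x ∈ S, (U x - I x) = ∑ x ∈ S, U x - ∑ x ∈ S, I x := Finset.sum_sub_distrib ..
  rw [hsub] at hmain'
  have hgoal : ∑ x : Ix C l → V with Function.Injective x, US J t x (fun k => x (rot l k)) =
      ∑ x : Ix C l → V with Function.Injective x, U x := by rw [hU]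
  rw [hgoal, hU1, hI1]
  have hm' := abs_le.1 hmain'
  have hΘ0 : 0 ≤ m * Θ := hU3.trans hU2
  have hlog : 0 ≤ Real.log (1 + t) := Real.log_nonneg (by linarith)
  obtain ⟨H, hH⟩ : ∃ H : ℝ, H = D * G ^ 2 * (1 + Real.log (1 + t)) := ⟨_, rfl⟩
  have hH0 : 0 ≤ H := by
    rw [hH]
    have := hy.D0
    positivity
  have e1 : A1 * (D * G ^ 2 * Q * N * (1 + Real.log (1 + t))) = A1 * (H * (Q * N)) := by
    rw [hH]; ring
  rw [e1] at hm'
  rw [← hH]
  have hQN : 0 ≤ Q * N := mul_nonneg hQ0 hN0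
  have hHQN : 0 ≤ H * (Q * N) := mul_nonneg hH0 hQN
  -- Θ ≥ 0 up to the constant
  have hkey : 2 * (m * Θ) + (Fintype.card (Ix C l) : ℝ) ^ 2 * (Q * N) + A1 * (H * (Q * N)) ≤
      (A1 + 2 * m + (Fintype.card (Ix C l) : ℝ) ^ 2) * (Θ + (1 + H) * (Q * N)) := by
    have hΘ1 : 0 ≤ Θ := by
      by_cases hV : Nonempty V
      · obtain ⟨v⟩ := hV
        have : 0 ≤ θ := le_trans (Finset.sum_nonneg fun y _ => qq_nonneg hy.nn ht0 _ _) (hθ v)
        rw [hΘ]; positivity
      · exfalso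
        have : Fintype.card V = 0 := Fintype.card_eq_zero_iff.2 (not_nonempty_iff.1 hV)
        rw [this] at hbV
        norm_num at hbV
        linarith
    obtain ⟨Z, hZ⟩ : ∃ Z : ℝ, Z = (Fintype.card (Ix C l) : ℝ) ^ 2 := ⟨_, rfl⟩
    have hZ0 : 0 ≤ Z := by rw [hZ]; positivity
    rw [← hZ]
    have k1 : 0 ≤ A1 * Θ := by positivity
    have k2 : 0 ≤ Z * Θ := by positivity
    have k3 : 0 ≤ A1 * (Q * N) := by positivity
    have k4 : 0 ≤ m * (Q * N) := by positivity
    have k5 : 0 ≤ m * (H * (Q * N)) := by positivity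
    have k6 : 0 ≤ Z * (H * (Q * N)) := by positivity
    nlinarith
  rw [abs_le]
  constructor
  · linarith [hm'.1]
  · linarith [hm'.2]

end abs

open Classical in
/-- FM. -/
theorem fm (hM : S_MAIN) (hGR : S_GR) (hTAIL : S_TAIL) (hBALL : S_BALL) (hCK : S_CK)
    (hCNT : S_CNT) (hTU : S_TU) (hTV : S_TV) : S_FM := by
  intro d hd C _ _ l hl
  obtain ⟨A, hA, hcomp⟩ := compare hM hCK hCNT hTU hTV C l hl
  obtain ⟨G, hG, hhyp⟩ := hyp_torus hGR d hd
  obtain ⟨Ct, hCt, htail⟩ := hTAIL d hd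
  obtain ⟨m, hm⟩ : ∃ m : ℕ, m = Fintype.card C := ⟨_, rfl⟩
  obtain ⟨e, he⟩ : ∃ e : ℕ, e = ∑ c, (l c - 1) := ⟨_, rfl⟩
  obtain ⟨M, hMdef⟩ : ∃ M : ℕ, M = Fintype.card (Ix C l) := ⟨_, rfl⟩
  have hMem : M = e + m := by rw [hMdef, card_Ix l hl, he, hm]
  have hlM : ∀ c, l c ≤ M := by
    intro c
    rw [hMdef, Fintype.card_sigma]
    refine le_trans ?_ (Finset.single_le_sum (f := fun c => Fintype.card (Fin (l c)))
      (fun _ _ => Nat.zero_le _) (Finset.mem_univ c))
    simp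
  have hdr : (1 : ℝ) ≤ d := by exact_mod_cast hd
  have hd0 : (0 : ℝ) < d := by linarith
  obtain ⟨A0, hA0⟩ : ∃ A0 : ℝ, A0 = (d : ℝ) * (d * (m + 1)) := ⟨_, rfl⟩
  have hA01 : 1 ≤ A0 := by
    rw [hA0]
    have h1 : (1 : ℝ) ≤ m + 1 := by have : (0 : ℝ) ≤ m := Nat.cast_nonneg m
                                    linarith
    have h2 : (1 : ℝ) ≤ d * (m + 1) := one_le_mul_of_one_le_of_one_le hdr h1
    exact one_le_mul_of_one_le_of_one_le hdr h2
  obtain ⟨B, hB⟩ : ∃ B : ℝ, B = 2 * (M + 1) * A0 + 7 := ⟨_, rfl⟩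
  have hB0 : 0 < B := by rw [hB]; positivity
  refine ⟨A * (Ct * 2 ^ (d * e + 1) + (1 + 2 * d * G ^ 2) * 4 * (4 ^ (d * M) * (2 * B ^ d) ^ e)),
    d * e + 1, by positivity, ?_⟩
  intro L _ hL t ht
  have hL0 : (0 : ℝ) < L := by exact_mod_cast (show 0 < L by omega)
  have hL1 : (1 : ℝ) ≤ L := by exact_mod_cast (show 1 ≤ L by omega)
  have ht0 : 0 < t := by linarith
  have hs0 : 0 < Real.sqrt t := Real.sqrt_pos.2 ht0
  have hs1 : 1 ≤ Real.sqrt t := by
    rw [show (1 : ℝ) = Real.sqrt 1 by simp]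
    exact Real.sqrt_le_sqrt (by linarith)
  have hst : Real.sqrt t ≤ t := by
    have h1 := Real.mul_self_sqrt ht0.le
    nlinarith
  have hlog2 : (0.69 : ℝ) < Real.log 2 := by have := Real.log_two_gt_d9; linarith
  have hlog : (0.69 : ℝ) < Real.log t := lt_of_lt_of_le hlog2 (Real.log_le_log (by norm_num) ht)
  have hlog0 : 0 < Real.log t := by linarith
  obtain ⟨ρ, hρ⟩ : ∃ ρ : ℝ, ρ = rr d L t := ⟨_, rfl⟩
  obtain ⟨n, hn⟩ : ∃ n : ℝ, n = (L : ℝ) ^ d := ⟨_, rfl⟩
  have hn1 : 1 ≤ n := by rw [hn]; exact one_le_pow₀ hL1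
  have hn0 : 0 < n := by linarith
  obtain ⟨σ, hσ⟩ : ∃ σ : ℝ, σ = Real.sqrt t ^ d := ⟨_, rfl⟩
  have hσ0 : 0 < σ := by rw [hσ]; positivity
  have hρeq : ρ = 1 / n + 1 / σ := by rw [hρ, hn, hσ]; rfl
  have hρ0 : 0 < ρ := by rw [hρeq]; positivity
  have hρσ : 1 / σ ≤ ρ := by rw [hρeq]; have : 0 < 1 / n := by positivity
                             linarith
  have hρn : 1 / n ≤ ρ := by rw [hρeq]; have : 0 < 1 / σ := by positivity
                             linarith
  -- the step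
  obtain ⟨r, hr⟩ : ∃ r : ℝ, r = A0 * Real.sqrt t * Real.log t := ⟨_, rfl⟩
  have hr0 : 0 ≤ r := by rw [hr]; positivity
  obtain ⟨θ, hθ⟩ : ∃ θ : ℝ, θ = Ct * Real.exp (-(r / (d * Real.sqrt t))) := ⟨_, rfl⟩
  have hθ0 : 0 ≤ θ := by rw [hθ]; positivity
  have hθle : θ ≤ Ct * ρ ^ (m + 1) := by
    rw [hθ]
    refine mul_le_mul_of_nonneg_left ?_ hCt.le
    have h1 : -(r / (d * Real.sqrt t)) = -((d * (m + 1) : ℕ) * Real.log t) := by
      rw [hr, hA0]
      push_cast
      field_simp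
    have h2 : Real.exp (-((d * (m + 1) : ℕ) * Real.log t)) = (1 / t ^ d) ^ (m + 1) := by
      rw [Real.exp_neg, mul_comm, Real.exp_mul, Real.exp_log ht0, Real.rpow_natCast, pow_mul,
        ← inv_pow, one_div]
    rw [h1, h2]
    refine pow_le_pow_left₀ (by positivity) (le_trans ?_ hρσ) _
    refine one_div_le_one_div_of_le hσ0 ?_
    rw [hσ]
    exact pow_le_pow_left₀ hs0.le hst _
  -- the radius
  obtain ⟨R, hR⟩ : ∃ R : ℕ, R = ⌈(M + 1 : ℝ) * r⌉₊ := ⟨_, rfl⟩
  have hRle : (M + 1 : ℝ) * r ≤ R := by rw [hR]; exact Nat.le_ceil _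
  have hRlt : (R : ℝ) < (M + 1 : ℝ) * r + 1 := by rw [hR]; exact Nat.ceil_lt_add_one (by positivity)
  obtain ⟨bb, hbb⟩ : ∃ bb : ℝ, bb = (2 * (R : ℝ) + 1) ^ d := ⟨_, rfl⟩
  have hR00 : (0 : ℝ) ≤ R := Nat.cast_nonneg R
  have hbb1 : 1 ≤ bb := by
    rw [hbb]
    exact one_le_pow₀ (by linarith)
  obtain ⟨b, hb⟩ : ∃ b : ℝ, b = min n bb := ⟨_, rfl⟩
  have hb1 : 1 ≤ b := by rw [hb]; exact le_min hn1 hbb1
  have hb0 : 0 < b := by linarith
  have hrt : Real.sqrt t ≤ 2 * (R : ℝ) + 1 := by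
    have h1 : 0.69 * Real.sqrt t ≤ r := by
      rw [hr]
      have h2 : 0.69 * Real.sqrt t ≤ Real.log t * Real.sqrt t :=
        mul_le_mul_of_nonneg_right hlog.le hs0.le
      have h3 : Real.log t * Real.sqrt t ≤ A0 * (Real.log t * Real.sqrt t) :=
        le_mul_of_one_le_left (by positivity) hA01
      calc _ ≤ _ := h2
        _ ≤ _ := h3
        _ = _ := by ring
    have h4 : r ≤ (M + 1 : ℝ) * r := le_mul_of_one_le_left hr0 (by
      have : (0 : ℝ) ≤ M := Nat.cast_nonneg M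
      linarith)
    linarith
  have hbinv : 1 / b ≤ ρ := by
    rw [hρeq, hb]
    rcases min_cases n bb with ⟨h, _⟩ | ⟨h, _⟩
    · rw [h]
      have : 0 < 1 / σ := by positivity
      linarith
    · rw [h]
      have h1 : 1 / bb ≤ 1 / σ := by
        refine one_div_le_one_div_of_le hσ0 ?_
        rw [hσ, hbb]
        exact pow_le_pow_left₀ hs0.le hrt _
      have : 0 < 1 / n := by positivity
      linarith
  have hRB : (2 * (R : ℝ) + 1) / Real.sqrt t ≤ B * Real.log t := by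
    rw [div_le_iff₀ hs0]
    have h1 : 2 * (R : ℝ) + 1 ≤ 2 * (M + 1) * A0 * (Real.log t * Real.sqrt t) + 3 := by
      rw [hr] at hRlt
      nlinarith
    have h2 : (3 : ℝ) ≤ 7 * (Real.log t * Real.sqrt t) := by
      have : 0.69 * 1 ≤ Real.log t * Real.sqrt t := mul_le_mul hlog.le hs1 (by norm_num) hlog0.le
      linarith
    rw [hB]
    nlinarith
  have hρb : ρ * b ≤ 2 * (B ^ d) * Real.log t ^ d := by
    have h1 : 1 / n * b ≤ 1 := by
      rw [one_div, inv_mul_le_iff₀ hn0, mul_one, hb]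
      exact min_le_left _ _
    have h2 : 1 / σ * b ≤ (B * Real.log t) ^ d := by
      have h3 : 1 / σ * b ≤ 1 / σ * bb := by
        refine mul_le_mul_of_nonneg_left ?_ (by positivity)
        rw [hb]
        exact min_le_right _ _
      refine h3.trans ?_
      have h4 : 1 / σ * bb = ((2 * (R : ℝ) + 1) / Real.sqrt t) ^ d := by
        rw [hσ, hbb, div_pow]; ring
      rw [h4]
      refine pow_le_pow_left₀ ?_ hRB _
      have : (0 : ℝ) ≤ R := Nat.cast_nonneg R
      positivity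
    have h5 : (1 : ℝ) ≤ (B * Real.log t) ^ d := by
      refine one_le_pow₀ ?_
      have : 7 ≤ B := by rw [hB]; have : (0 : ℝ) ≤ 2 * (M + 1) * A0 := by positivity
                         linarith
      nlinarith
    rw [hρeq, add_mul]
    calc _ ≤ 1 + (B * Real.log t) ^ d := add_le_add h1 h2
      _ ≤ 2 * (B * Real.log t) ^ d := by linarith
      _ = _ := by rw [mul_pow]; ring
  have hbV : b ≤ Fintype.card (Fin d → ZMod L) := by
    rw [card_torus, ← hn, hb]
    exact min_le_left _ _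
  have hball : ∀ x : Fin d → ZMod L, ((univ.filter fun y => tdist x y ≤ R).card : ℝ) ≤ b := by
    intro x
    rw [hb]
    refine le_min ?_ ?_
    · rw [hn, ← card_torus]
      exact_mod_cast Finset.card_le_univ _
    · rw [hbb]
      exact hBALL d L x R
  have hc := hcomp (Fin d → ZMod L) (nnRate d L) (2 * d) G (4 ^ d * rr d L t) t (hhyp L hL t ht)
    (fun x y => tdist x y ≤ R) (fun x y => (tdist x y : ℝ) ≤ r) b θ hb1 hbV
    (fun x => by convert hball x)
    (fun x => by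
      have h1 := htail L hL t (by linarith) r x hr0
      rw [← hθ] at h1
      refine le_trans (le_of_eq ?_) h1
      refine Finset.sum_congr ?_ fun _ _ => rfl
      ext y
      simp only [Finset.mem_filter, Finset.mem_univ, true_and, not_le])
    (fun x hx c a a' => by
      have h1 := near_of_steps x hr0 hx c a a'
      have h2 : (l c : ℝ) * r ≤ (M + 1 : ℝ) * r := by
        refine mul_le_mul_of_nonneg_right ?_ hr0
        have : (l c : ℝ) ≤ M := by exact_mod_cast hlM c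
        linarith
      have h3 : (tdist (x ⟨c, a⟩) (x ⟨c, a'⟩) : ℝ) ≤ R := by linarith
      exact_mod_cast h3)
  rw [card_torus, ← hn, ← hρ, ← hm, ← he, ← hMdef] at hc
  have htr : ∏ c, ((qq (nnRate d L) t) ^ l c).trace = ∏ c, ((L : ℝ) ^ d * gk L (l c * t) 0 ^ d) :=
    Finset.prod_congr rfl fun c _ => trace_torus hL t (l c)
  rw [htr] at hc
  rw [← hρ, ← hn, ← hm]
  rw [← hn] at hc
  have hfilt : (univ.filter fun x : Ix C l → Fin d → ZMod L => Function.Injective x) =
    (univ.filter fun x : Ix C l → Fin d → ZMod L => Function.Injective x) := rfl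
  refine le_trans (le_of_eq ?_) (hc.trans ?_)
  · congr 2
  -- the numbers
  obtain ⟨ℓ, hℓ⟩ : ∃ ℓ : ℝ, ℓ = Real.log t := ⟨_, rfl⟩
  rw [← hℓ] at hρb hlog hlog0 ⊢
  have hℓ2 : 1 ≤ 2 * ℓ := by linarith
  have hnρ : 0 < n * ρ := by positivity
  have t1 : n ^ m * θ ≤ Ct * 2 ^ (d * e + 1) * ℓ ^ (d * e + 1) * ρ * (n * ρ) ^ m := by
    have h1 : n ^ m * θ ≤ n ^ m * (Ct * ρ ^ (m + 1)) :=
      mul_le_mul_of_nonneg_left hθle (by positivity)
    have h2 : (1 : ℝ) ≤ 2 ^ (d * e + 1) * ℓ ^ (d * e + 1) := by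
      rw [← mul_pow]; exact one_le_pow₀ hℓ2
    calc n ^ m * θ ≤ n ^ m * (Ct * ρ ^ (m + 1)) := h1
      _ = 1 * (Ct * ρ * (n * ρ) ^ m) := by rw [mul_pow]; ring
      _ ≤ (2 ^ (d * e + 1) * ℓ ^ (d * e + 1)) * (Ct * ρ * (n * ρ) ^ m) :=
          mul_le_mul_of_nonneg_right h2 (by positivity)
      _ = _ := by ring
  have t2 : 1 + 2 * (d : ℝ) * G ^ 2 * (1 + Real.log (1 + t)) ≤ (1 + 2 * d * G ^ 2) * 4 * ℓ := by
    have h1 : Real.log (1 + t) ≤ 2 * ℓ := by
      have h2 : Real.log (1 + t) ≤ Real.log (t ^ 2) := Real.log_le_log (by linarith) (by nlinarith)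
      rw [Real.log_pow] at h2
      rw [hℓ]
      exact_mod_cast h2
    have h3 : 0 ≤ 2 * (d : ℝ) * G ^ 2 := by positivity
    have h4 : 2 * (d : ℝ) * G ^ 2 * (1 + Real.log (1 + t)) ≤ 2 * (d : ℝ) * G ^ 2 * (4 * ℓ) :=
      mul_le_mul_of_nonneg_left (by linarith) h3
    nlinarith
  have t3 : (4 ^ d * ρ) ^ M * (n ^ m * b ^ e / b) ≤
      4 ^ (d * M) * (2 * B ^ d) ^ e * ℓ ^ (d * e) * ρ * (n * ρ) ^ m := by
    have h1 : (4 ^ d * ρ) ^ M * (n ^ m * b ^ e / b) =
        4 ^ (d * M) * (n * ρ) ^ m * ((ρ * b) ^ e * (1 / b)) := by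
      rw [mul_pow, ← pow_mul, hMem, pow_add ρ, mul_pow n, mul_pow ρ]
      ring
    rw [h1]
    have h2 : (ρ * b) ^ e * (1 / b) ≤ (2 * B ^ d * ℓ ^ d) ^ e * ρ :=
      mul_le_mul (pow_le_pow_left₀ (by positivity) hρb e) hbinv (by positivity) (by positivity)
    calc _ ≤ 4 ^ (d * M) * (n * ρ) ^ m * ((2 * B ^ d * ℓ ^ d) ^ e * ρ) :=
          mul_le_mul_of_nonneg_left h2 (by positivity)
      _ = _ := by rw [mul_pow (2 * B ^ d) (ℓ ^ d) e, ← pow_mul ℓ]; ring
  have t4 : (1 + 2 * (d : ℝ) * G ^ 2 * (1 + Real.log (1 + t))) *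
      ((4 ^ d * ρ) ^ M * (n ^ m * b ^ e / b)) ≤ ((1 + 2 * d * G ^ 2) * 4 * ℓ) *
      (4 ^ (d * M) * (2 * B ^ d) ^ e * ℓ ^ (d * e) * ρ * (n * ρ) ^ m) :=
    mul_le_mul t2 t3 (by positivity) (by positivity)
  calc A * (n ^ m * θ + (1 + 2 * (d : ℝ) * G ^ 2 * (1 + Real.log (1 + t))) *
        ((4 ^ d * ρ) ^ M * (n ^ m * b ^ e / b)))
      ≤ A * (Ct * 2 ^ (d * e + 1) * ℓ ^ (d * e + 1) * ρ * (n * ρ) ^ m +
        ((1 + 2 * d * G ^ 2) * 4 * ℓ) *
        (4 ^ (d * M) * (2 * B ^ d) ^ e * ℓ ^ (d * e) * ρ * (n * ρ) ^ m)) :=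
        mul_le_mul_of_nonneg_left (add_le_add t1 t4) hA.le
    _ = _ := by rw [pow_succ ℓ (d * e)]; ring

end Pool.Agent.Helper47K9.SC
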