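import Pool.Agent.Helper47K9.SC.Low
import Pool.Agent.Y998.LQ.Final

/-!
# Short cycles: gradients of the heat kernel of the torus
-/

set_option autoImplicit false

namespace Pool.Agent.Helper47K9.SC

open Finset Equiv Pool.Agent.Y998.ST

namespace GrL

open Pool.Agent.Y998.LP (NN)

theorem le_NN {V : Type} [Fintype V] [DecidableEq V] {J : V → V → ℝ} (t : ℝ) (a b : V)
    (hsym : ∀ x y, qq J t x y = qq J t y x) :
    ∑ y, |qq J t a y - qq J t b y| ≤ NN J t (swap a b) := by
  have h1 : ∀ y, qq J t a y - qq J t b y =
      ∑ g, (stirLaw J t g - stirLaw J t ((swap a b)⁻¹ * g)) * (if g y = a then 1 else 0) := by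
    intro y
    rw [hsym a y, hsym b y]
    unfold qq hop stirExp
    have h2 : ∑ g, stirLaw J t g * (if g y = b then (1 : ℝ) else 0) =
        ∑ g, stirLaw J t ((swap a b)⁻¹ * g) * (if g y = a then 1 else 0) := by
      rw [← Equiv.sum_comp (Equiv.mulLeft (swap a b)⁻¹)]
      refine Finset.sum_congr rfl fun g _ => ?_
      simp only [Equiv.coe_mulLeft, swap_inv, Perm.mul_apply]
      congr 1
      have h3 : (swap a b) (g y) = b ↔ g y = a := by
        constructor
        · intro h
          have := congrArg (swap a b) h
          rwa [swap_apply_self, swap_apply_right] at this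
        · intro h
          rw [h, swap_apply_left]
      simp only [h3]
    rw [h2, ← Finset.sum_sub_distrib]
    refine Finset.sum_congr rfl fun g _ => ?_
    ring
  simp only [h1]
  calc ∑ y, |∑ g, (stirLaw J t g - stirLaw J t ((swap a b)⁻¹ * g)) * (if g y = a then 1 else 0)|
      ≤ ∑ y, ∑ g, |stirLaw J t ((swap a b)⁻¹ * g) - stirLaw J t g| *
          (if g y = a then 1 else 0) := by
        refine Finset.sum_le_sum fun y _ => (Finset.abs_sum_le_sum_abs _ _).trans
          (Finset.sum_le_sum fun g _ => ?_)
        rw [abs_mul, abs_sub_comm]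
        refine mul_le_mul_of_nonneg_left ?_ (abs_nonneg _)
        split_ifs <;> simp
    _ = ∑ g, |stirLaw J t ((swap a b)⁻¹ * g) - stirLaw J t g| := by
        rw [Finset.sum_comm]
        refine Finset.sum_congr rfl fun g _ => ?_
        rw [← Finset.mul_sum]
        have : ∑ y, (if g y = a then (1 : ℝ) else 0) = 1 := by
          rw [Finset.sum_eq_single (g⁻¹ a)]
          · simp
          · intro y _ hy
            rw [if_neg]
            intro h
            exact hy (by rw [← h]; simp)
          · intro h; exact absurd (Finset.mem_univ _) h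
        rw [this, mul_one]
    _ = NN J t (swap a b) := rfl

theorem dist_one {d L : ℕ} [NeZero L] (hL : 3 ≤ L) (a b : Fin d → ZMod L)
    (h : nnRate d L a b ≠ 0) : Pool.Agent.Y998.LP.tdist a b ≤ 1 := by
  have hex : ∃ i, b = Function.update a i (a i + 1) ∨ a = Function.update b i (b i + 1) := by
    by_contra hne
    exact h (by unfold nnRate; rw [if_neg hne])
  have h1 : ((1 : ZMod L).valMinAbs).natAbs ≤ 1 := by
    have h2 := ZMod.valMinAbs_natAbs_eq_min (1 : ZMod L)
    rw [h2]
    have : Fact (1 < L) := ⟨by omega⟩
    rw [ZMod.val_one]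
    exact min_le_left _ _
  have h2 : ((-1 : ZMod L).valMinAbs).natAbs ≤ 1 := by rw [ZMod.natAbs_valMinAbs_neg]; exact h1
  unfold Pool.Agent.Y998.LP.tdist
  obtain ⟨i, hi | hi⟩ := hex
  · rw [Finset.sum_eq_single i]
    · rw [hi, Function.update_self]
      have : a i - (a i + 1) = -1 := by ring
      rw [this]; exact h2
    · intro j _ hj
      rw [hi, Function.update_of_ne hj, sub_self]
      simp
    · intro h; exact absurd (Finset.mem_univ _) h
  · rw [Finset.sum_eq_single i]
    · rw [hi, Function.update_self]
      have : b i + 1 - b i = 1 := by ring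
      rw [this]; exact h1
    · intro j _ hj
      rw [hi, Function.update_of_ne hj, sub_self]
      simp
    · intro h; exact absurd (Finset.mem_univ _) h

theorem qq_trans {d L : ℕ} [NeZero L] (hL : 3 ≤ L) (t : ℝ) (a b c : Fin d → ZMod L) :
    qq (nnRate d L) t (a + c) (b + c) = qq (nnRate d L) t a b := by
  rw [qq_eq_hk hL]
  unfold hk
  refine Finset.prod_congr rfl fun i _ => ?_
  congr 1
  simp only [Pi.add_apply]
  ring

theorem nn_trans {d L : ℕ} (a b c : Fin d → ZMod L) :
    nnRate d L (a + c) (b + c) = nnRate d L a b := by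
  have h : ∀ (x y : Fin d → ZMod L) (i : Fin d), y + c = Function.update (x + c) i ((x + c) i + 1) ↔
      y = Function.update x i (x i + 1) := by
    intro x y i
    constructor
    · intro h
      funext j
      have h1 := congrFun h j
      by_cases hj : j = i
      · subst hj
        rw [Function.update_self] at h1 ⊢
        simp only [Pi.add_apply] at h1
        linear_combination h1
      · rw [Function.update_of_ne hj] at h1 ⊢
        simpa using h1
    · intro h
      funext j
      by_cases hj : j = i
      · subst hj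
        rw [Function.update_self, h]
        simp only [Pi.add_apply, Function.update_self]
        ring
      · rw [Function.update_of_ne hj, h]
        simp only [Pi.add_apply, Function.update_of_ne hj]
  unfold nnRate
  simp only [h]

end GrL

open GrL

theorem gr : S_GR := by
  intro d hd
  obtain ⟨C, hC, hdist⟩ := Pool.Agent.Y998.LQ.t_dist d hd
  refine ⟨2 * C + 4, by positivity, fun L _ hL => ?_⟩
  have key : ∀ u : ℝ, 0 ≤ u → ∀ a b : Fin d → ZMod L, nnRate d L a b ≠ 0 →
      ∑ y, |qq (nnRate d L) u a y - qq (nnRate d L) u b y| ≤ (2 * C + 4) / Real.sqrt (1 + u) := by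
    intro u hu a b hab
    have hs0 : 0 < Real.sqrt (1 + u) := Real.sqrt_pos.2 (by linarith)
    rw [le_div_iff₀ hs0]
    rcases le_or_gt u 1 with h1 | h1
    · have h2 : ∑ y, |qq (nnRate d L) u a y - qq (nnRate d L) u b y| ≤ 2 := by
        calc ∑ y, |qq (nnRate d L) u a y - qq (nnRate d L) u b y|
            ≤ ∑ y, (qq (nnRate d L) u a y + qq (nnRate d L) u b y) := by
              refine Finset.sum_le_sum fun y _ => ?_
              have p1 := qq_nonneg (J := nnRate d L) nn_nonneg hu a y
              have p2 := qq_nonneg (J := nnRate d L) nn_nonneg hu b y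
              rw [abs_le]
              constructor <;> linarith
          _ = 2 := by rw [Finset.sum_add_distrib, qq_row, qq_row]; norm_num
      have h3 : Real.sqrt (1 + u) ≤ 2 := by
        rw [show (2 : ℝ) = Real.sqrt (2 ^ 2) by rw [Real.sqrt_sq (by norm_num)]]
        exact Real.sqrt_le_sqrt (by linarith)
      have h4 : 0 ≤ ∑ y, |qq (nnRate d L) u a y - qq (nnRate d L) u b y| :=
        Finset.sum_nonneg fun _ _ => abs_nonneg _
      nlinarith
    · have hu0 : 0 < u := by linarith
      have hsu : 0 < Real.sqrt u := Real.sqrt_pos.2 hu0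
      have h2 : ∑ y, |qq (nnRate d L) u a y - qq (nnRate d L) u b y| ≤ C / Real.sqrt u := by
        refine (le_NN u a b
          (fun x y => LowL.qq_symm hL u x y)).trans ?_
        refine (hdist L hL u hu0 a b).trans ?_
        have h3 : (Pool.Agent.Y998.LP.tdist a b : ℝ) ≤ 1 := by exact_mod_cast dist_one hL a b hab
        rw [div_le_div_iff_of_pos_right hsu]
        nlinarith
      have h3 : Real.sqrt (1 + u) ≤ 2 * Real.sqrt u := by
        have h4 : (2 : ℝ) = Real.sqrt (2 ^ 2) := by rw [Real.sqrt_sq (by norm_num)]
        rw [h4, ← Real.sqrt_mul (by norm_num)]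
        exact Real.sqrt_le_sqrt (by linarith)
      calc _ ≤ C / Real.sqrt u * (2 * Real.sqrt u) :=
            mul_le_mul h2 h3 hs0.le (by positivity)
        _ = 2 * C := by field_simp
        _ ≤ 2 * C + 4 := by linarith
  refine ⟨key, fun u hu w => ?_⟩
  -- translation invariance
  have hs0 : 0 < Real.sqrt (1 + u) := Real.sqrt_pos.2 (by linarith)
  have h1 : ∑ a, ∑ b, nnRate d L a b * |qq (nnRate d L) u a w - qq (nnRate d L) u b w| =
      ∑ e, nnRate d L 0 e * ∑ y, |qq (nnRate d L) u 0 y - qq (nnRate d L) u e y| := by
    have h2 : ∀ a : Fin d → ZMod L, ∑ b, nnRate d L a b *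
        |qq (nnRate d L) u a w - qq (nnRate d L) u b w| =
        ∑ e, nnRate d L 0 e * |qq (nnRate d L) u 0 (w - a) - qq (nnRate d L) u e (w - a)| := by
      intro a
      rw [← Equiv.sum_comp (Equiv.addRight a)]
      refine Finset.sum_congr rfl fun e _ => ?_
      have e1 : nnRate d L a (Equiv.addRight a e) = nnRate d L 0 e := by
        have := nn_trans (L := L) 0 e a
        rw [zero_add] at this
        exact this
      have e2 : qq (nnRate d L) u a w = qq (nnRate d L) u 0 (w - a) := by
        have := qq_trans hL u 0 (w - a) a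
        rw [zero_add, sub_add_cancel] at this
        exact this
      have e3 : qq (nnRate d L) u (Equiv.addRight a e) w = qq (nnRate d L) u e (w - a) := by
        have := qq_trans hL u e (w - a) a
        rw [sub_add_cancel] at this
        exact this
      rw [e1, e2, e3]
    simp only [h2]
    rw [Finset.sum_comm]
    refine Finset.sum_congr rfl fun e _ => ?_
    rw [← Finset.mul_sum]
    congr 1
    exact Equiv.sum_comp (Equiv.subLeft w)
      (fun y => |qq (nnRate d L) u 0 y - qq (nnRate d L) u e y|)
  rw [h1]
  calc ∑ e, nnRate d L 0 e * ∑ y, |qq (nnRate d L) u 0 y - qq (nnRate d L) u e y|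
      ≤ ∑ e, nnRate d L 0 e * ((2 * C + 4) / Real.sqrt (1 + u)) := by
        refine Finset.sum_le_sum fun e _ => ?_
        by_cases he : nnRate d L 0 e = 0
        · rw [he]; simp
        · exact mul_le_mul_of_nonneg_left (key u hu 0 e he) (nn_nonneg _ _)
    _ = 2 * d * ((2 * C + 4) / Real.sqrt (1 + u)) := by rw [← Finset.sum_mul, nn_row hL]

end Pool.Agent.Helper47K9.SC
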