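import Pool.Agent.Helper47K9.SC.Stm

/-! # Leaf LIG: Liggett's inequality for products of one nonnegative function -/

set_option autoImplicit false

namespace Pool.Agent.Helper47K9.SC

open Finset Equiv Pool.Agent.Y998.ST

namespace LigL

variable {V : Type} [Fintype V] [DecidableEq V]

theorem PP_nonneg {J : V → V → ℝ} (hJ : ∀ x y, 0 ≤ J x y) {u : ℝ} (hu : 0 ≤ u) {f : V → ℝ}
    (hf : ∀ a, 0 ≤ f a) (a : V) : 0 ≤ PP J u f a :=
  Finset.sum_nonneg fun c _ => mul_nonneg (qq_nonneg hJ hu a c) (hf c)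

theorem PP_zero (J : V → V → ℝ) (f : V → ℝ) (a : V) : PP J 0 f a = f a := by
  unfold PP
  rw [qq_zero]
  simp [Matrix.one_apply]

theorem stirExp_zero (J : V → V → ℝ) (F : Perm V → ℝ) : stirExp J 0 F = F 1 := by
  unfold stirExp
  simp only [law_zero, ite_mul, one_mul, zero_mul]
  rw [Finset.sum_ite_eq', if_pos (Finset.mem_univ _)]

theorem defect_nonneg {J : V → V → ℝ} (hJ : ∀ x y, 0 ≤ J x y) {ι : Type} [Fintype ι]
    [DecidableEq ι] {h : V → ℝ} (hh : ∀ a, 0 ≤ h a) (z : ι → V) :
    0 ≤ defect J (fun _ => h) z := by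
  unfold defect
  refine Finset.sum_nonneg fun i _ => Finset.sum_nonneg fun j _ => ?_
  refine mul_nonneg (mul_nonneg (div_nonneg (hJ _ _) (by norm_num)) (mul_self_nonneg _))
    (Finset.prod_nonneg fun k _ => hh _)

end LigL

open LigL in
/-- **LIG** -/
theorem lig (duh : S_DUH) : S_LIG := by
  classical
  intro V _ _ J hJ hs h0 ι _ f hf x hx t ht
  have hd := duh V J hs h0 ι t (fun _ => f) x hx
  have hanti : AntitoneOn (phi J t (fun _ => f) x) (Set.Icc 0 t) := by
    refine antitoneOn_of_deriv_nonpos (convex_Icc 0 t)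
      (fun s _ => (hd s).continuousAt.continuousWithinAt)
      (fun s _ => (hd s).differentiableAt.differentiableWithinAt) fun s hs' => ?_
    rw [interior_Icc] at hs'
    rw [(hd s).deriv, neg_nonpos]
    exact exp_nonneg hJ hs'.1.le fun g =>
      defect_nonneg hJ (fun a => PP_nonneg hJ (sub_nonneg.mpr hs'.2.le) hf a) _
  have h1 := hanti (Set.left_mem_Icc.mpr ht) (Set.right_mem_Icc.mpr ht) ht
  unfold phi at h1
  rw [stirExp_zero, sub_zero, sub_self] at h1
  simp only [PP_zero] at h1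
  exact h1

end Pool.Agent.Helper47K9.SC
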