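import Pool.Agent.Helper47K9.SC.Stm

/-! # Leaves BALL and LOW: the on-diagonal lower bound -/

set_option autoImplicit false

namespace Pool.Agent.Helper47K9.SC

open Finset Equiv Pool.Agent.Y998.ST

/-- **BALL** -/
theorem ball : S_BALL := by
  classical
  intro d L _ x R
  have h1 : #(univ.filter fun y : Fin d → ZMod L => tdist x y ≤ R) ≤
      #(Fintype.piFinset fun _ : Fin d => Finset.Icc (-(R : ℤ)) R) := by
    refine Finset.card_le_card_of_injOn (fun y i => (x i - y i).valMinAbs) ?_ ?_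
    · intro y hy
      rw [Finset.mem_coe, Finset.mem_filter] at hy
      rw [Finset.mem_coe, Fintype.mem_piFinset]
      intro i
      have h2 : (x i - y i).valMinAbs.natAbs ≤ tdist x y :=
        Finset.single_le_sum (f := fun i => (x i - y i).valMinAbs.natAbs)
          (fun i _ => Nat.zero_le _) (Finset.mem_univ i)
      have hy2 := hy.2
      show (x i - y i).valMinAbs ∈ Finset.Icc (-(R : ℤ)) R
      rw [Finset.mem_Icc]
      omega
    · intro y _ y' _ h
      funext i
      have h2 := congrFun h i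
      dsimp only at h2
      have h3 : x i - y i = x i - y' i := by
        rw [← ZMod.coe_valMinAbs (x i - y i), h2, ZMod.coe_valMinAbs]
      exact sub_right_injective h3
  have h2 : #(Fintype.piFinset fun _ : Fin d => Finset.Icc (-(R : ℤ)) R) = (2 * R + 1) ^ d := by
    rw [Fintype.card_piFinset_const, Int.card_Icc]
    congr 1
    omega
  rw [h2] at h1
  exact_mod_cast h1

namespace LowL

variable {d L : ℕ} [NeZero L]

theorem gk_neg (t : ℝ) (u : ZMod L) : gk L t (-u) = gk L t u := by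
  unfold gk
  congr 1
  refine Finset.sum_congr rfl fun k _ => ?_
  congr 1
  unfold rc
  rw [mul_neg, rc_neg, Complex.conj_re]

theorem qq_symm (hL : 3 ≤ L) (t : ℝ) (x y : Fin d → ZMod L) :
    qq (nnRate d L) t x y = qq (nnRate d L) t y x := by
  rw [qq_eq_hk hL]
  unfold hk
  refine Finset.prod_congr rfl fun i _ => ?_
  rw [← gk_neg, neg_sub]

/-- the return probability -/
theorem ret (hL : 3 ≤ L) (t : ℝ) (x : Fin d → ZMod L) :
    gk L t 0 ^ d = ∑ y, qq (nnRate d L) (t / 2) x y ^ 2 := by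
  have h1 : qq (nnRate d L) t x x = gk L t 0 ^ d := by
    rw [qq_eq_hk hL]
    unfold hk
    simp
  have h2 : qq (nnRate d L) t = qq (nnRate d L) (t / 2) * qq (nnRate d L) (t / 2) := by
    rw [← qq_add nn_symm (nn_diag hL), add_halves]
  rw [← h1, h2, Matrix.mul_apply]
  refine Finset.sum_congr rfl fun y _ => ?_
  rw [qq_symm hL (t / 2) y x, sq]

end LowL

open LowL in
/-- **LOW** -/
theorem low (tail : S_TAIL) (ball : S_BALL) : S_LOW := by
  classical
  intro d hd
  have hd0 : (0 : ℝ) < d := by exact_mod_cast hd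
  obtain ⟨C, hC, htail⟩ := tail d hd
  -- `C * exp (- (A / d)) ≤ 1 / 2`
  obtain ⟨A, hA0, hA⟩ : ∃ A : ℝ, 0 ≤ A ∧ C * Real.exp (-(A / d)) ≤ 1 / 2 := by
    refine ⟨d * |Real.log (2 * C)|, by positivity, ?_⟩
    have e : d * |Real.log (2 * C)| / d = |Real.log (2 * C)| := by field_simp
    rw [e]
    have h1 : Real.exp (-|Real.log (2 * C)|) ≤ Real.exp (-Real.log (2 * C)) :=
      Real.exp_le_exp.mpr (neg_le_neg (le_abs_self _))
    rw [Real.exp_neg (Real.log _), Real.exp_log (by positivity)] at h1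
    calc C * Real.exp (-|Real.log (2 * C)|) ≤ C * (2 * C)⁻¹ :=
          mul_le_mul_of_nonneg_left h1 hC.le
      _ = 1 / 2 := by field_simp
  set B : ℝ := (2 * A + 3) ^ d with hB
  have hB0 : 0 < B := by positivity
  refine ⟨min (1 / 2) (1 / (8 * B)), by positivity, fun L _ hL t ht => ?_⟩
  have hL0 : (0 : ℝ) < L := by exact_mod_cast Nat.pos_of_ne_zero (NeZero.ne L)
  have ht0 : 0 < t := by linarith
  have hst : 0 < Real.sqrt t := Real.sqrt_pos.mpr ht0
  have hst1 : 1 ≤ Real.sqrt t := by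
    rw [← Real.sqrt_one]
    exact Real.sqrt_le_sqrt (by linarith)
  have x : Fin d → ZMod L := fun _ => 0
  have hret := ret hL t x
  set Q : (Fin d → ZMod L) → ℝ := fun y => qq (nnRate d L) (t / 2) x y with hQ
  have hQ0 : ∀ y, 0 ≤ Q y := fun y => qq_nonneg nn_nonneg (by linarith) x y
  have hrow : ∑ y, Q y = 1 := qq_row _ _ x
  -- the whole torus
  have h1 : 1 / (L : ℝ) ^ d ≤ gk L t 0 ^ d := by
    have h2 := sq_sum_le_card_mul_sum_sq (s := (Finset.univ : Finset (Fin d → ZMod L))) (f := Q)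
    rw [hrow, Finset.card_univ, Fintype.card_fun, Fintype.card_fin, ZMod.card] at h2
    rw [hret, div_le_iff₀ (by positivity), mul_comm]
    push_cast at h2
    linarith
  -- the ball
  have h2 : 1 / (4 * B) * (1 / Real.sqrt t ^ d) ≤ gk L t 0 ^ d := by
    set R : ℕ := ⌈A * Real.sqrt t⌉₊ with hR
    have hR1 : A * Real.sqrt t ≤ R := Nat.le_ceil _
    have hR2 : (R : ℝ) ≤ (A + 1) * Real.sqrt t := by
      have h3 := (Nat.ceil_lt_add_one (show 0 ≤ A * Real.sqrt t by positivity)).le
      rw [← hR] at h3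
      linarith
    have h3 := htail L hL (t / 2) (by linarith) R x (Nat.cast_nonneg R)
    have h4 : C * Real.exp (-((R : ℝ) / (d * Real.sqrt (t / 2)))) ≤ 1 / 2 := by
      refine le_trans (mul_le_mul_of_nonneg_left (Real.exp_le_exp.mpr (neg_le_neg ?_)) hC.le) hA
      have hs2 : Real.sqrt (t / 2) ≤ Real.sqrt t := Real.sqrt_le_sqrt (by linarith)
      have hs3 : 0 < Real.sqrt (t / 2) := Real.sqrt_pos.mpr (by linarith)
      rw [div_le_div_iff₀ hd0 (by positivity)]
      calc A * (d * Real.sqrt (t / 2)) ≤ A * (d * Real.sqrt t) := by gcongr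
        _ = A * Real.sqrt t * d := by ring
        _ ≤ R * d := mul_le_mul_of_nonneg_right hR1 hd0.le
    have h5 : 1 / 2 ≤ ∑ y with tdist x y ≤ R, Q y := by
      have h6 := Finset.sum_filter_add_sum_filter_not Finset.univ
        (fun y : Fin d → ZMod L => tdist x y ≤ R) Q
      rw [hrow] at h6
      have h7 : ∑ y with ¬ tdist x y ≤ R, Q y ≤ 1 / 2 := by
        refine le_trans (le_of_eq ?_) (h3.trans h4)
        refine Finset.sum_congr (Finset.filter_congr fun y _ => ?_) fun y _ => rfl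
        rw [not_le, Nat.cast_lt]
      linarith
    have h6 := sq_sum_le_card_mul_sum_sq
      (s := (univ.filter fun y : Fin d → ZMod L => tdist x y ≤ R)) (f := Q)
    have h7 := ball d L x R
    have h8 : (2 * (R : ℝ) + 1) ^ d ≤ B * Real.sqrt t ^ d := by
      rw [hB, ← mul_pow]
      refine pow_le_pow_left₀ (by positivity) ?_ d
      nlinarith
    have h9 : ∑ y with tdist x y ≤ R, Q y ^ 2 ≤ gk L t 0 ^ d := by
      rw [hret]
      exact Finset.sum_le_sum_of_subset_of_nonneg (Finset.filter_subset _ _) fun y _ _ =>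
        sq_nonneg _
    have h10 : (1 / 4 : ℝ) ≤ (∑ y with tdist x y ≤ R, Q y) ^ 2 := by nlinarith
    have h11 : (0 : ℝ) ≤ ∑ y with tdist x y ≤ R, Q y ^ 2 :=
      Finset.sum_nonneg fun y _ => sq_nonneg _
    have h12 : (1 / 4 : ℝ) ≤ B * Real.sqrt t ^ d * gk L t 0 ^ d :=
      calc (1 / 4 : ℝ) ≤ _ := h10.trans h6
        _ ≤ (B * Real.sqrt t ^ d) * ∑ y with tdist x y ≤ R, Q y ^ 2 :=
            mul_le_mul_of_nonneg_right (h7.trans h8) h11
        _ ≤ _ := mul_le_mul_of_nonneg_left h9 (by positivity)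
    have e : 1 / (4 * B) * (1 / Real.sqrt t ^ d) = (1 / 4) / (B * Real.sqrt t ^ d) := by
      field_simp
    rw [e, div_le_iff₀ (by positivity), mul_comm]
    exact h12
  unfold rr
  have h3 : (0 : ℝ) ≤ 1 / (L : ℝ) ^ d := by positivity
  have h4 : (0 : ℝ) ≤ 1 / Real.sqrt t ^ d := by positivity
  have h5 : min (1 / 2) (1 / (8 * B)) * (1 / (L : ℝ) ^ d) ≤ 1 / 2 * (1 / (L : ℝ) ^ d) :=
    mul_le_mul_of_nonneg_right (min_le_left _ _) h3
  have h6 : min (1 / 2) (1 / (8 * B)) * (1 / Real.sqrt t ^ d) ≤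
      1 / (8 * B) * (1 / Real.sqrt t ^ d) := mul_le_mul_of_nonneg_right (min_le_right _ _) h4
  have h7 : 1 / (8 * B) * (1 / Real.sqrt t ^ d) = 1 / 2 * (1 / (4 * B) * (1 / Real.sqrt t ^ d)) := by
    field_simp
    norm_num
  rw [mul_add]
  linarith

end Pool.Agent.Helper47K9.SC
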