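import Pool.Agent.Helper47K9.SC.Lig

/-!
# Short cycles: integration of Duhamel's formula
-/

set_option autoImplicit false

namespace Pool.Agent.Helper47K9.SC

open Finset Equiv Pool.Agent.Y998.ST

theorem mvt {f f' g g' : ℝ → ℝ} {a b : ℝ} (hab : a ≤ b)
    (hf : ∀ s ∈ Set.Icc a b, HasDerivAt f (f' s) s) (hg : ∀ s ∈ Set.Icc a b, HasDerivAt g (g' s) s)
    (h : ∀ s ∈ Set.Icc a b, |f' s| ≤ g' s) : |f b - f a| ≤ g b - g a := by
  have h1 := image_norm_le_of_norm_deriv_right_le_deriv_boundary' (f := fun s => f s - f a)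
    (f' := f') (a := a) (b := b) (B := fun s => g s - g a) (B' := g')
    (fun s hs => ((hf s hs).continuousAt.sub continuousAt_const).continuousWithinAt)
    (fun s hs => ((hf s (Set.Ico_subset_Icc_self hs)).sub_const _).hasDerivWithinAt)
    (by simp)
    (fun s hs => ((hg s hs).continuousAt.sub continuousAt_const).continuousWithinAt)
    (fun s hs => ((hg s (Set.Ico_subset_Icc_self hs)).sub_const _).hasDerivWithinAt)
    (fun s hs => h s (Set.Ico_subset_Icc_self hs))
  exact h1 (Set.right_mem_Icc.2 hab)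

theorem abs_exp_le {V : Type} [Fintype V] [DecidableEq V] {J : V → V → ℝ}
    (hJ : ∀ x y, 0 ≤ J x y) {t : ℝ} (ht : 0 ≤ t) (F : Perm V → ℝ) :
    |stirExp J t F| ≤ stirExp J t (fun g => |F g|) := by
  unfold stirExp
  refine (Finset.abs_sum_le_sum_abs _ _).trans (Finset.sum_le_sum fun g _ => ?_)
  rw [abs_mul, abs_of_nonneg (law_nonneg hJ ht g)]

theorem PP_ind {V : Type} [Fintype V] [DecidableEq V] (J : V → V → ℝ) (u : ℝ) (y a : V) :
    PP J u (fun c => if c = y then 1 else 0) a = qq J u a y := by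
  unfold PP
  simp

theorem main (duh : S_DUH) (e1 : S_E1) (e2 : S_E2) : S_MAIN := by
  intro ι _ _
  obtain ⟨C1, hC1, h1⟩ := e1 ι
  obtain ⟨C2, hC2, h2⟩ := e2 ι
  refine ⟨C1 + C2, by positivity, ?_⟩
  intro V _ _ J D G q t hy S hS N hN0 hN τ
  have ht := hy.t0
  have hJ := hy.nn
  obtain ⟨H, hH⟩ : ∃ H : ℝ, H = D * G ^ 2 * q ^ Fintype.card ι * N := ⟨_, rfl⟩
  have hH0 : 0 ≤ H := by
    have hD := hy.D0
    have hq := hy.q0
    rw [hH]
    positivity
  obtain ⟨f, hf⟩ : ∃ f : (ι → V) → ι → V → ℝ, f = fun x k c => if c = x (τ k) then 1 else 0 :=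
    ⟨_, rfl⟩
  obtain ⟨Φ, hΦ⟩ : ∃ Φ : ℝ → ℝ, Φ = fun s => ∑ x ∈ S, phi J t (f x) x s := ⟨_, rfl⟩
  obtain ⟨Φ', hΦ'⟩ : ∃ Φ' : ℝ → ℝ, Φ' = fun s => ∑ x ∈ S, (- stirExp J s (fun g =>
    defect J (fun k => PP J (t - s) (f x k)) (fun k => g (x k)))) := ⟨_, rfl⟩
  have hder : ∀ s, HasDerivAt Φ (Φ' s) s := by
    intro s
    rw [hΦ, hΦ']
    exact HasDerivAt.fun_sum fun x hx => duh V J hy.sy hy.dg ι t (f x) x (hS x hx) s
  have hb : ∀ s, 0 ≤ s → |Φ' s| ≤ ∑ x ∈ S, stirExp J s (fun g =>
      |defect J (fun k a => qq J (t - s) a (x (τ k))) (fun k => g (x k))|) := by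
    intro s hs
    rw [hΦ']
    refine (Finset.abs_sum_le_sum_abs _ _).trans (Finset.sum_le_sum fun x _ => ?_)
    rw [abs_neg]
    refine (abs_exp_le hJ hs _).trans (le_of_eq ?_)
    have e : (fun k => PP J (t - s) (f x k)) = fun k a => qq J (t - s) a (x (τ k)) := by
      funext k a
      rw [hf]
      exact PP_ind J _ _ _
    rw [e]
  have hbd1 : |Φ (t / 2) - Φ 0| ≤ C1 * H := by
    have h3 := mvt (f := Φ) (f' := Φ') (g := fun s => C1 * (H / (1 + t)) * s)
      (g' := fun _ => C1 * (H / (1 + t))) (a := 0) (b := t / 2) (by linarith)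
      (fun s _ => hder s) (fun s _ => by
        simpa using (hasDerivAt_id' s).const_mul (C1 * (H / (1 + t))))
      (fun s hs => (hb s hs.1).trans (by
        have := h1 V J D G q t hy S N hN0 hN τ s hs.1 hs.2
        rw [← hH] at this
        exact this))
    refine h3.trans ?_
    have h4 : H / (1 + t) * (t / 2) ≤ H := by
      rw [div_mul_eq_mul_div, div_le_iff₀ (by linarith)]
      nlinarith
    have h5 : C1 * (H / (1 + t)) * (t / 2) - C1 * (H / (1 + t)) * 0 =
        C1 * (H / (1 + t) * (t / 2)) := by ring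

    rw [h5]
    exact mul_le_mul_of_nonneg_left h4 hC1.le
  have hbd2 : |Φ t - Φ (t / 2)| ≤ C2 * H * Real.log (1 + t) := by
    have h3 := mvt (f := Φ) (f' := Φ') (g := fun s => -(C2 * H * Real.log (1 + (t - s))))
      (g' := fun s => C2 * (H / (1 + (t - s)))) (a := t / 2) (b := t) (by linarith)
      (fun s _ => hder s) (fun s hs => by
        have hs' : 0 < 1 + (t - s) := by linarith [hs.2]
        have h4 : HasDerivAt (fun s : ℝ => 1 + (t - s)) (-1) s := by
          simpa using ((hasDerivAt_id' s).const_sub t).const_add 1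
        have h5 := ((h4.log hs'.ne').const_mul (C2 * H)).neg
        refine h5.congr_deriv ?_
        field_simp
        try ring)
      (fun s hs => (hb s (by linarith [hs.1])).trans (by
        have := h2 V J D G q t hy S hS N hN0 hN τ s hs.1 hs.2
        rw [← hH] at this
        exact this))
    refine h3.trans ?_
    have h6 : Real.log (1 + (t - t / 2)) ≤ Real.log (1 + t) :=
      Real.log_le_log (by linarith) (by linarith)
    have h7 := mul_le_mul_of_nonneg_left h6 (mul_nonneg hC2.le hH0)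
    simp only [sub_self, add_zero, Real.log_one, mul_zero, neg_zero]
    linarith
  have hend : ∑ x ∈ S, (US J t x (fun k => x (τ k)) - IS J t x (fun k => x (τ k))) =
      Φ t - Φ 0 := by
    rw [Finset.sum_sub_distrib, hΦ]
    congr 1
    · refine Finset.sum_congr rfl fun x _ => ?_
      unfold phi US
      rw [sub_self]
      congr 1
      funext g
      simp only [LigL.PP_zero, hf]
      rw [Finset.prod_ite_zero]
      simp
    · refine Finset.sum_congr rfl fun x _ => ?_
      unfold phi IS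
      rw [LigL.stirExp_zero]
      refine Finset.prod_congr rfl fun k _ => ?_
      rw [sub_zero, hf]
      simp only [Perm.coe_one, id_eq]
      exact (PP_ind J _ _ _).symm
  rw [hend]
  have hlog : 0 ≤ Real.log (1 + t) := Real.log_nonneg (by linarith)
  have h8 : Φ t - Φ 0 = (Φ t - Φ (t / 2)) + (Φ (t / 2) - Φ 0) := by ring
  rw [h8]
  refine (abs_add_le _ _).trans ?_
  have h9 : (C1 + C2) * (D * G ^ 2 * q ^ Fintype.card ι * N * (1 + Real.log (1 + t))) =
      (C1 + C2) * (H * (1 + Real.log (1 + t))) := by rw [hH]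
  rw [h9]
  have k1 : 0 ≤ C1 * H := by positivity
  have k2 : 0 ≤ C2 * H := by positivity
  have k3 : 0 ≤ C1 * H * Real.log (1 + t) := by positivity
  nlinarith

end Pool.Agent.Helper47K9.SC
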