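import Pool.Agent.Helper47K9.SC.Stm
import Pool.Agent.Helper18K9.PL.Poi

set_option autoImplicit false

/-!
# Short cycles of random stirring: the method of factorial moments for finite spaces
-/

namespace Pool.Agent.Helper47K9.SC.PoiL

open Finset Filter Topology Pool.Agent.Helper18K9.PL

section

variable {ι : Type} [Fintype ι] [DecidableEq ι] {Ω : ℕ → Type} [∀ n, Fintype (Ω n)]
  {w : (n : ℕ) → Ω n → ℝ} {N : (n : ℕ) → Ω n → ι → ℕ} {lam : ι → ℝ}

/-- expectation of a product of linear combinations of binomials -/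
lemma lim_comb' (hmom : ∀ k : ι → ℕ, Tendsto (fun n => ∑ ω, w n ω *
      ∏ i, ((N n ω i).choose (k i) : ℝ)) atTop (𝓝 (∏ i, lam i ^ (k i) / (k i).factorial)))
    (R : ℕ) (cf : ι → ℕ → ℝ) (κ : ι → ℕ → ℕ) :
    Tendsto (fun n => ∑ ω, w n ω * ∏ i, (∑ t ∈ range R, cf i t * ((N n ω i).choose (κ i t) : ℝ)))
      atTop (𝓝 (∏ i, (∑ t ∈ range R, cf i t * (lam i ^ (κ i t) / (κ i t).factorial)))) := by
  have e : ∀ n, ∑ ω, w n ω * ∏ i, (∑ t ∈ range R, cf i t * ((N n ω i).choose (κ i t) : ℝ)) =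
      ∑ J ∈ Fintype.piFinset (fun _ : ι => range R), (∏ i, cf i (J i)) *
        ∑ ω, w n ω * ∏ i, ((N n ω i).choose (κ i (J i)) : ℝ) := by
    intro n
    simp_rw [Finset.prod_univ_sum, Finset.prod_mul_distrib, Finset.mul_sum]
    rw [Finset.sum_comm]
    refine Finset.sum_congr rfl fun J _ => Finset.sum_congr rfl fun ω _ => ?_
    ring
  simp_rw [e]
  rw [Finset.prod_univ_sum]
  refine tendsto_finsetSum _ fun J _ => ?_
  rw [Finset.prod_mul_distrib]
  exact (hmom _).const_mul _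

theorem limit (hw : ∀ n ω, 0 ≤ w n ω) (hw1 : ∀ n, ∑ ω, w n ω = 1)
    (hmom : ∀ k : ι → ℕ, Tendsto (fun n => ∑ ω, w n ω *
      ∏ i, ((N n ω i).choose (k i) : ℝ)) atTop (𝓝 (∏ i, lam i ^ (k i) / (k i).factorial)))
    (n : ι → ℕ) :
    Tendsto (fun z => ∑ ω, w z ω * ∏ i, (if N z ω i = n i then (1 : ℝ) else 0)) atTop
      (𝓝 (∏ i, (Real.exp (-(lam i)) * lam i ^ (n i) / (n i).factorial))) := by
  have hA : ∀ M : ℕ, Tendsto (fun z => ∑ ω, w z ω * ∏ i, BA M (n i) (N z ω i)) atTop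
      (𝓝 (∏ i, (∑ j ∈ range (M + 1), (-1 : ℝ) ^ j * ((n i + j).choose (n i)) *
        (lam i ^ (n i + j) / (n i + j).factorial)))) := fun M =>
    lim_comb' hmom (M + 1) (fun i j => (-1 : ℝ) ^ j * ((n i + j).choose (n i)))
      (fun i j => n i + j)
  have hBt : ∀ M : ℕ, Tendsto (fun z => ∑ ω, w z ω * ∏ i, (1 + BB M (n i) (N z ω i))) atTop
      (𝓝 (∏ i, (1 + ((n i + M + 1).choose (n i) : ℝ) *
        (lam i ^ (n i + M + 1) / (n i + M + 1).factorial)))) := by
    intro M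
    have := lim_comb' (w := w) (N := N) hmom 2
      (fun i t => if t = 0 then 1 else ((n i + M + 1).choose (n i) : ℝ))
      (fun i t => if t = 0 then 0 else n i + M + 1)
    simpa [Finset.sum_range_succ, BB] using this
  rw [Metric.tendsto_nhds]
  intro ε hε
  set target := ∏ i, (Real.exp (-(lam i)) * lam i ^ (n i) / (n i).factorial) with htar
  have hM1 : Tendsto (fun M : ℕ => ∏ i, (∑ j ∈ range (M + 1), (-1 : ℝ) ^ j *
        ((n i + j).choose (n i)) * (lam i ^ (n i + j) / (n i + j).factorial))) atTop (𝓝 target) :=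
    tendsto_finsetProd _ fun i _ => lim_BA (n i) (lam i)
  have hM2 : Tendsto (fun M : ℕ => ∏ i, (1 + ((n i + M + 1).choose (n i) : ℝ) *
        (lam i ^ (n i + M + 1) / (n i + M + 1).factorial))) atTop (𝓝 1) := by
    have := tendsto_finsetProd (Finset.univ : Finset ι) (fun i (_ : i ∈ (Finset.univ : Finset ι)) =>
      (lim_BB (n i) (lam i)).const_add 1)
    simpa using this
  obtain ⟨M, hM1', hM2'⟩ := (((Metric.tendsto_nhds.1 hM1) (ε / 4) (by positivity)).and
    ((Metric.tendsto_nhds.1 hM2) (ε / 4) (by positivity))).exists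
  filter_upwards [(Metric.tendsto_nhds.1 (hA M)) (ε / 4) (by positivity),
    (Metric.tendsto_nhds.1 (hBt M)) (ε / 4) (by positivity)] with z h1 h2
  have h3 : |∑ ω, w z ω * ∏ i, (if N z ω i = n i then (1 : ℝ) else 0) -
      ∑ ω, w z ω * ∏ i, BA M (n i) (N z ω i)| ≤
      ∑ ω, w z ω * ∏ i, (1 + BB M (n i) (N z ω i)) - 1 := by
    rw [← Finset.sum_sub_distrib]
    have e1 : ∑ ω, w z ω * ∏ i, (1 + BB M (n i) (N z ω i)) - 1 =
        ∑ ω, w z ω * (∏ i, (1 + BB M (n i) (N z ω i)) - 1) := by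
      simp_rw [mul_sub, mul_one]
      rw [Finset.sum_sub_distrib, hw1 z]
    rw [e1]
    refine (Finset.abs_sum_le_sum_abs _ _).trans (Finset.sum_le_sum fun ω _ => ?_)
    rw [← mul_sub, abs_mul, abs_of_nonneg (hw z ω)]
    refine mul_le_mul_of_nonneg_left ?_ (hw z ω)
    exact prod_bonf Finset.univ _ _ _ (fun i _ => by split_ifs <;> norm_num)
      (fun i _ => by split_ifs <;> norm_num) (fun i _ => BB_nonneg _ _ _)
      (fun i _ => bonf M (n i) (N z ω i))
  rw [Real.dist_eq] at *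
  have h5 := (abs_lt.1 h2).2
  have h6 := (abs_lt.1 hM2').2
  have h7 := abs_le.1 h3
  have h8 := abs_lt.1 h1
  have h9 := abs_lt.1 hM1'
  rw [abs_lt]
  constructor <;> linarith [h7.1, h7.2, h8.1, h8.2, h9.1, h9.2]

end

end Pool.Agent.Helper47K9.SC.PoiL

namespace Pool.Agent.Helper47K9.SC

open Finset Filter Topology PoiL

theorem poi : S_POI := by
  intro k Ω _ w N lam hw hw1 hmom a
  have hP : ∀ n ω, (if ∀ i, N n ω i = a i then (1 : ℝ) else 0) =
      ∏ i, (if N n ω i = a i then (1 : ℝ) else 0) := by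
    intro n ω
    by_cases h : ∀ i, N n ω i = a i
    · rw [if_pos h, Finset.prod_eq_one fun i _ => if_pos (h i)]
    · rw [if_neg h]
      push Not at h
      obtain ⟨i, hi⟩ := h
      rw [Finset.prod_eq_zero (Finset.mem_univ i) (if_neg hi)]
  simp_rw [hP]
  refine limit hw hw1 (fun κ => ?_) a
  have h := (hmom κ).const_mul (∏ i, (1 / ((κ i).factorial : ℝ)))
  have e1 : (∏ i, (1 / ((κ i).factorial : ℝ))) * ∏ i, lam i ^ κ i =
      ∏ i, lam i ^ (κ i) / (κ i).factorial := by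
    rw [← Finset.prod_mul_distrib]
    refine Finset.prod_congr rfl fun i _ => ?_
    ring
  rw [e1] at h
  refine h.congr fun n => ?_
  rw [Finset.mul_sum]
  refine Finset.sum_congr rfl fun ω _ => ?_
  rw [mul_left_comm, ← Finset.prod_mul_distrib]
  congr 1
  refine Finset.prod_congr rfl fun i _ => ?_
  rw [Nat.descFactorial_eq_factorial_mul_choose]
  push_cast
  have : ((κ i).factorial : ℝ) ≠ 0 := by exact_mod_cast Nat.factorial_ne_zero _
  field_simp

end Pool.Agent.Helper47K9.SC
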