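import Pool.Agent.Helper47K9.SC.Stm

/-! # Leaf TAIL: the tail of the heat kernel of the torus -/

set_option autoImplicit false
set_option linter.unusedSectionVars false

namespace Pool.Agent.Helper47K9.SC

open Finset Equiv Pool.Agent.Y998.ST

namespace TailL

variable {L : ℕ} [NeZero L]

/-- distance to zero -/
noncomputable def mm (v : ZMod L) : ℝ := (v.valMinAbs.natAbs : ℝ)

theorem mm_nonneg (v : ZMod L) : 0 ≤ mm v := Nat.cast_nonneg _

theorem mm_le (k : ℤ) (v : ZMod L) (h : (k : ZMod L) = v) : mm v ≤ |(k : ℝ)| := by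
  have h1 := ZMod.natAbs_min_of_le_div_two L v.valMinAbs k (by rw [ZMod.coe_valMinAbs, h])
    (ZMod.natAbs_valMinAbs_le v)
  unfold mm
  rw [← Int.cast_abs, ← Nat.cast_natAbs]
  exact_mod_cast h1

theorem mm_eq (v : ZMod L) : mm v = |(v.valMinAbs : ℝ)| := by
  unfold mm
  rw [Nat.cast_natAbs, Int.cast_abs]

theorem cosh_step (lam : ℝ) (v : ZMod L) :
    Real.cosh (lam * mm (v + 1)) + Real.cosh (lam * mm (v - 1)) ≤
      2 * Real.cosh lam * Real.cosh (lam * mm v) := by
  set k : ℤ := v.valMinAbs with hk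
  have hv : (k : ZMod L) = v := ZMod.coe_valMinAbs v
  have h1 : mm (v + 1) ≤ |((k + 1 : ℤ) : ℝ)| := mm_le _ _ (by push_cast; rw [hv])
  have h2 : mm (v - 1) ≤ |((k - 1 : ℤ) : ℝ)| := mm_le _ _ (by push_cast; rw [hv])
  have h3 : Real.cosh (lam * mm (v + 1)) ≤ Real.cosh (lam * (k + 1)) := by
    rw [Real.cosh_le_cosh, abs_mul, abs_mul, abs_of_nonneg (mm_nonneg _)]
    push_cast at h1
    exact mul_le_mul_of_nonneg_left h1 (abs_nonneg _)
  have h4 : Real.cosh (lam * mm (v - 1)) ≤ Real.cosh (lam * (k - 1)) := by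
    rw [Real.cosh_le_cosh, abs_mul, abs_mul, abs_of_nonneg (mm_nonneg _)]
    push_cast at h2
    exact mul_le_mul_of_nonneg_left h2 (abs_nonneg _)
  have h5 : Real.cosh (lam * mm v) = Real.cosh (lam * k) := by
    rw [mm_eq, ← Real.cosh_abs (lam * k), ← Real.cosh_abs (lam * |_|), abs_mul, abs_mul, abs_abs]
  have h6 : Real.cosh (lam * (k + 1)) + Real.cosh (lam * (k - 1)) =
      2 * Real.cosh lam * Real.cosh (lam * k) := by
    have e1 : lam * ((k : ℝ) + 1) = lam * k + lam := by ring
    have e2 : lam * ((k : ℝ) - 1) = lam * k - lam := by ring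
    rw [e1, e2, Real.cosh_add, Real.cosh_sub]
    ring
  rw [h5]
  linarith

variable {d : ℕ}

/-- the supersolution -/
noncomputable def FF (lam : ℝ) (x y : Fin d → ZMod L) : ℝ := ∑ i, Real.cosh (lam * mm (x i - y i))

theorem FF_pos (lam : ℝ) (x y : Fin d → ZMod L) : 0 ≤ FF lam x y :=
  Finset.sum_nonneg fun i _ => (Real.cosh_pos _).le

theorem FF_update (lam : ℝ) (x y : Fin d → ZMod L) (i : Fin d) (c : ZMod L) :
    FF lam x (Function.update y i c) = FF lam x y - Real.cosh (lam * mm (x i - y i)) +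
      Real.cosh (lam * mm (x i - c)) := by
  unfold FF
  rw [← Finset.add_sum_erase _ _ (Finset.mem_univ i),
    ← Finset.add_sum_erase _ (fun i => Real.cosh (lam * mm (x i - y i))) (Finset.mem_univ i),
    Function.update_self]
  have h : ∑ j ∈ Finset.univ.erase i, Real.cosh (lam * mm (x j - Function.update y i c j)) =
      ∑ j ∈ Finset.univ.erase i, Real.cosh (lam * mm (x j - y j)) :=
    Finset.sum_congr rfl fun j hj => by rw [Function.update_of_ne (Finset.ne_of_mem_erase hj)]
  rw [h]
  ring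

/-- the generator applied to the supersolution -/
theorem gen_FF (hL : 3 ≤ L) (lam : ℝ) (x b : Fin d → ZMod L) :
    ∑ y, GG (nnRate d L) b y * FF lam x y ≤ 2 * (Real.cosh lam - 1) * FF lam x b := by
  have h1 : ∀ y, GG (nnRate d L) b y * FF lam x y = FF lam x y * nnRate d L y b -
      (if b = y then FF lam x b * (2 * d) else 0) := by
    intro y
    unfold GG
    by_cases h : b = y
    · subst h
      rw [if_pos rfl, if_pos rfl, nn_row hL, nn_diag hL]
      ring
    · rw [if_neg h, if_neg h, nn_symm b y]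
      ring
  rw [Finset.sum_congr rfl fun y _ => h1 y, Finset.sum_sub_distrib, nn_sum hL (FF lam x) b,
    Finset.sum_ite_eq, if_pos (Finset.mem_univ _)]
  have h2 : 2 * (Real.cosh lam - 1) * FF lam x b =
      ∑ i, (2 * (Real.cosh lam - 1) * Real.cosh (lam * mm (x i - b i))) := by
    unfold FF
    rw [Finset.mul_sum]
  have h3 : FF lam x b * (2 * (d : ℝ)) = ∑ _i : Fin d, 2 * FF lam x b := by
    rw [Finset.sum_const, Finset.card_univ, Fintype.card_fin, nsmul_eq_mul]
    ring
  rw [h2, h3, ← Finset.sum_sub_distrib]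
  refine Finset.sum_le_sum fun i _ => ?_
  rw [FF_update, FF_update]
  have h4 := cosh_step lam (x i - b i)
  have e1 : x i - (b i + 1) = x i - b i - 1 := by ring
  have e2 : x i - (b i - 1) = x i - b i + 1 := by ring
  rw [e1, e2]
  linarith

/-- the mean of the supersolution -/
theorem mean_FF (hL : 3 ≤ L) (lam : ℝ) (x : Fin d → ZMod L) {t : ℝ} (ht : 0 ≤ t) :
    ∑ y, qq (nnRate d L) t x y * FF lam x y ≤ d * Real.exp (2 * (Real.cosh lam - 1) * t) := by
  classical
  set a : ℝ := 2 * (Real.cosh lam - 1) with ha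
  set M : ℝ → ℝ := fun s => ∑ y, qq (nnRate d L) s x y * FF lam x y with hM
  have hder : ∀ s, HasDerivAt M
      (∑ y, (qq (nnRate d L) s * GG (nnRate d L)) x y * FF lam x y) s := fun s =>
    HasDerivAt.fun_sum fun y _ => (qq_deriv nn_symm (nn_diag hL) s x y).mul_const _
  have hle : ∀ s, 0 ≤ s → ∑ y, (qq (nnRate d L) s * GG (nnRate d L)) x y * FF lam x y ≤
      a * M s := by
    intro s hs
    have h1 : ∑ y, (qq (nnRate d L) s * GG (nnRate d L)) x y * FF lam x y =
        ∑ b, qq (nnRate d L) s x b * ∑ y, GG (nnRate d L) b y * FF lam x y := by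
      simp only [Matrix.mul_apply, Finset.sum_mul, Finset.mul_sum]
      rw [Finset.sum_comm]
      refine Finset.sum_congr rfl fun b _ => Finset.sum_congr rfl fun y _ => ?_
      ring
    rw [h1, hM]
    dsimp only
    rw [Finset.mul_sum]
    refine Finset.sum_le_sum fun b _ => ?_
    have h2 := mul_le_mul_of_nonneg_left (gen_FF hL lam x b) (qq_nonneg nn_nonneg hs x b)
    refine h2.trans (le_of_eq ?_)
    rw [ha]
    ring
  have hanti : AntitoneOn (fun s => M s * Real.exp (-(a * s))) (Set.Icc 0 t) := by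
    have hd2 : ∀ s, HasDerivAt (fun s => M s * Real.exp (-(a * s)))
        ((∑ y, (qq (nnRate d L) s * GG (nnRate d L)) x y * FF lam x y) * Real.exp (-(a * s)) +
          M s * (Real.exp (-(a * s)) * (-(a * 1)))) s := by
      intro s
      exact (hder s).mul (((hasDerivAt_id' s).const_mul a).fun_neg.exp)
    refine antitoneOn_of_deriv_nonpos (convex_Icc 0 t)
      (fun s _ => (hd2 s).continuousAt.continuousWithinAt)
      (fun s _ => (hd2 s).differentiableAt.differentiableWithinAt) fun s hs => ?_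
    rw [interior_Icc] at hs
    rw [(hd2 s).deriv]
    have h1 := hle s hs.1.le
    have h2 := Real.exp_pos (-(a * s))
    nlinarith
  have h1 := hanti (Set.left_mem_Icc.mpr ht) (Set.right_mem_Icc.mpr ht) ht
  dsimp only at h1
  have h2 : M 0 = d := by
    rw [hM]
    dsimp only
    rw [qq_zero]
    simp only [Matrix.one_apply, ite_mul, one_mul, zero_mul]
    rw [Finset.sum_ite_eq, if_pos (Finset.mem_univ _)]
    unfold FF
    simp [mm]
  rw [h2, mul_zero, neg_zero, Real.exp_zero, mul_one] at h1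
  have h3 : M t = M t * Real.exp (-(a * t)) * Real.exp (a * t) := by
    rw [mul_assoc, ← Real.exp_add, neg_add_cancel, Real.exp_zero, mul_one]
  show M t ≤ _
  rw [h3]
  exact mul_le_mul_of_nonneg_right h1 (Real.exp_pos _).le

theorem cosh_bound {lam : ℝ} (h0 : 0 ≤ lam) (h1 : lam ≤ 1) : Real.cosh lam - 1 ≤ lam ^ 2 := by
  have h2 := Real.cosh_le_exp_half_sq lam
  have h3 : lam ^ 2 / 2 ≤ 1 / 2 := by nlinarith
  have h4 : Real.exp (lam ^ 2 / 2) ≤ 1 + lam ^ 2 := by
    have h5 : |lam ^ 2 / 2| ≤ 1 := by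
      rw [abs_of_nonneg (by positivity)]
      linarith
    have h6 := Real.abs_exp_sub_one_sub_id_le h5
    have h7 := (abs_le.mp h6).2
    have h8 : (0 : ℝ) ≤ lam ^ 2 := sq_nonneg _
    nlinarith
  linarith

end TailL

open TailL in
/-- **TAIL** -/
theorem tail : S_TAIL := by
  classical
  intro d hd
  have hd0 : (0 : ℝ) < d := by exact_mod_cast hd
  refine ⟨2 * d * Real.exp 2, by positivity, fun L _ hL t ht R x hR => ?_⟩
  have hst : 0 < Real.sqrt t := Real.sqrt_pos.mpr (by linarith)
  have hst1 : 1 ≤ Real.sqrt t := by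
    rw [← Real.sqrt_one]
    exact Real.sqrt_le_sqrt ht
  set lam : ℝ := 1 / Real.sqrt t with hlam
  have hl0 : 0 < lam := by positivity
  have hl1 : lam ≤ 1 := by
    rw [hlam, div_le_one hst]
    exact hst1
  have hmean := mean_FF (d := d) hL lam x (show (0 : ℝ) ≤ t by linarith)
  have hexp : 2 * (Real.cosh lam - 1) * t ≤ 2 := by
    have h1 := cosh_bound hl0.le hl1
    have h2 : lam ^ 2 * t = 1 := by
      rw [hlam, div_pow, Real.sq_sqrt (by linarith), one_pow]
      field_simp
    nlinarith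
  have hmean2 : ∑ y, qq (nnRate d L) t x y * FF lam x y ≤ d * Real.exp 2 :=
    hmean.trans (mul_le_mul_of_nonneg_left (Real.exp_le_exp.mpr hexp) hd0.le)
  have hfar : ∀ y : Fin d → ZMod L, R < (tdist x y : ℝ) →
      Real.exp (R / (d * Real.sqrt t)) ≤ 2 * FF lam x y := by
    intro y hy
    obtain ⟨i, hi⟩ : ∃ i : Fin d, R / d < mm (x i - y i) := by
      by_contra hcon
      push Not at hcon
      have h1 : (tdist x y : ℝ) ≤ ∑ _i : Fin d, R / d := by
        unfold tdist
        push_cast
        exact Finset.sum_le_sum fun i _ => hcon i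
      rw [Finset.sum_const, Finset.card_univ, Fintype.card_fin, nsmul_eq_mul,
        mul_div_cancel₀ _ hd0.ne'] at h1
      linarith
    have h1 : Real.cosh (lam * mm (x i - y i)) ≤ FF lam x y :=
      Finset.single_le_sum (f := fun i => Real.cosh (lam * mm (x i - y i)))
        (fun i _ => (Real.cosh_pos _).le) (Finset.mem_univ i)
    have h2 : Real.exp (lam * mm (x i - y i)) ≤ 2 * Real.cosh (lam * mm (x i - y i)) := by
      rw [Real.cosh_eq]
      have := Real.exp_pos (-(lam * mm (x i - y i)))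
      linarith
    have h3 : R / (d * Real.sqrt t) ≤ lam * mm (x i - y i) := by
      have e : R / (d * Real.sqrt t) = lam * (R / d) := by
        rw [hlam]
        field_simp
      rw [e]
      exact mul_le_mul_of_nonneg_left hi.le hl0.le
    linarith [Real.exp_le_exp.mpr h3]
  have h1 : Real.exp (R / (d * Real.sqrt t)) *
      ∑ y with R < (tdist x y : ℝ), qq (nnRate d L) t x y ≤ 2 * d * Real.exp 2 := by
    rw [Finset.mul_sum]
    calc ∑ y with R < (tdist x y : ℝ), Real.exp (R / (d * Real.sqrt t)) * qq (nnRate d L) t x y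
        ≤ ∑ y with R < (tdist x y : ℝ), 2 * (qq (nnRate d L) t x y * FF lam x y) := by
          refine Finset.sum_le_sum fun y hy => ?_
          have h2 := hfar y (Finset.mem_filter.mp hy).2
          have h3 := qq_nonneg (J := nnRate d L) nn_nonneg (show (0 : ℝ) ≤ t by linarith) x y
          nlinarith
      _ ≤ ∑ y, 2 * (qq (nnRate d L) t x y * FF lam x y) :=
          Finset.sum_le_sum_of_subset_of_nonneg (Finset.filter_subset _ _) fun y _ _ =>
            mul_nonneg (by norm_num) (mul_nonneg (qq_nonneg nn_nonneg (by linarith) x y)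
              (FF_pos _ _ _))
      _ = 2 * ∑ y, qq (nnRate d L) t x y * FF lam x y := by rw [Finset.mul_sum]
      _ ≤ 2 * d * Real.exp 2 := by linarith
  rw [Real.exp_neg, ← div_eq_mul_inv, le_div_iff₀ (Real.exp_pos _), mul_comm]
  exact h1

end Pool.Agent.Helper47K9.SC
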