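import Pool.Agent.Helper47K9.SC.Tup

/-! TU: tuples with a long step, stirring. -/

set_option autoImplicit false

namespace Pool.Agent.Helper47K9.SC

open Finset Equiv Pool.Agent.Y998.ST

namespace TuL

variable {V : Type} [Fintype V] [DecidableEq V]

open Classical in
theorem count (g : Perm V) (C : Type) [Fintype C] [DecidableEq C] (l : C → ℕ)
    (hl : ∀ c, 1 ≤ l c) (st : V → V → Prop) (k0 : Ix C l) :
    (univ.filter fun x : Ix C l → V => (∀ k, g (x k) = x (rot l k)) ∧
      ¬ st (x k0) (g (x k0))).card ≤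
    Fintype.card V ^ (Fintype.card C - 1) * (univ.filter fun v => ¬ st v (g v)).card := by
  obtain ⟨c0, a0⟩ := k0
  let T : Finset (C → V) :=
    Fintype.piFinset fun c => if c = c0 then univ.filter fun v => ¬ st v (g v) else univ
  have hT : T.card = Fintype.card V ^ (Fintype.card C - 1) *
      (univ.filter fun v => ¬ st v (g v)).card := by
    simp only [T]
    rw [Fintype.card_piFinset, ← Finset.mul_prod_erase univ _ (Finset.mem_univ c0), if_pos rfl]
    have h2 : ∏ c ∈ univ.erase c0, (if c = c0 then univ.filter fun v => ¬ st v (g v)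
        else (univ : Finset V)).card = ∏ c ∈ univ.erase c0, Fintype.card V := by
      refine Finset.prod_congr rfl fun c hc => ?_
      rw [if_neg (Finset.ne_of_mem_erase hc), Finset.card_univ]
    rw [h2, Finset.prod_const, Finset.card_erase_of_mem (Finset.mem_univ _), Finset.card_univ,
      mul_comm]
  rw [← hT]
  refine Finset.card_le_card_of_injOn
    (fun x c => if h : c = c0 then x ⟨c, Fin.cast (by rw [h]) a0⟩ else x ⟨c, ⟨0, hl c⟩⟩) ?_ ?_
  · intro x hx
    have hx2 := (Finset.mem_filter.mp hx).2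
    simp only [T]
    rw [Finset.mem_coe, Fintype.mem_piFinset]
    intro c
    by_cases hc : c = c0
    · subst hc
      rw [dif_pos rfl, if_pos rfl, Finset.mem_filter]
      exact ⟨Finset.mem_univ _, hx2.2⟩
    · rw [if_neg hc]
      exact Finset.mem_univ _
  · intro x hx y hy hxy
    have hx2 := (Finset.mem_filter.mp hx).2.1
    have hy2 := (Finset.mem_filter.mp hy).2.1
    have key : ∀ c, x ⟨c, ⟨0, hl c⟩⟩ = y ⟨c, ⟨0, hl c⟩⟩ := by
      intro c
      have h := congrFun hxy c
      by_cases hc : c = c0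
      · subst hc
        simp only [dif_pos] at h
        have h1 := TupL.word_eq g (l c) (hl c) (fun i => x ⟨c, i⟩) (fun i => hx2 ⟨c, i⟩) a0 a0.2
        have h2 := TupL.word_eq g (l c) (hl c) (fun i => y ⟨c, i⟩) (fun i => hy2 ⟨c, i⟩) a0 a0.2
        have h3 : (g : V → V)^[(a0 : ℕ)] (x ⟨c, ⟨0, hl c⟩⟩) =
            (g : V → V)^[(a0 : ℕ)] (y ⟨c, ⟨0, hl c⟩⟩) := by
          rw [← h1, ← h2]
          exact h
        exact (g.injective.iterate _) h3
      · simp only [dif_neg hc] at h
        exact h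
    funext k
    obtain ⟨c, i⟩ := k
    have h1 := TupL.word_eq g (l c) (hl c) (fun i => x ⟨c, i⟩) (fun i => hx2 ⟨c, i⟩) i i.2
    have h2 := TupL.word_eq g (l c) (hl c) (fun i => y ⟨c, i⟩) (fun i => hy2 ⟨c, i⟩) i i.2
    have h3 : x ⟨c, i⟩ = (g : V → V)^[(i : ℕ)] (x ⟨c, ⟨0, hl c⟩⟩) := h1
    have h4 : y ⟨c, i⟩ = (g : V → V)^[(i : ℕ)] (y ⟨c, ⟨0, hl c⟩⟩) := h2
    rw [h3, h4, key c]

open Classical in
theorem mean_bad (J : V → V → ℝ) (st : V → V → Prop) (t θ : ℝ)
    (hθ : ∀ x, ∑ y with ¬ st x y, qq J t x y ≤ θ) :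
    ∑ g : Perm V, stirLaw J t g * ((univ.filter fun v => ¬ st v (g v)).card : ℝ) ≤
      (Fintype.card V : ℝ) * θ := by
  have h1 : ∑ g : Perm V, stirLaw J t g * ((univ.filter fun v => ¬ st v (g v)).card : ℝ) =
      ∑ v, ∑ y with ¬ st v y, qq J t v y := by
    have h2 : ∀ g : Perm V, stirLaw J t g * ((univ.filter fun v => ¬ st v (g v)).card : ℝ) =
        ∑ v, ∑ y with ¬ st v y, stirLaw J t g * (if g v = y then 1 else 0) := by
      intro g
      rw [Finset.card_filter]
      push_cast
      rw [Finset.mul_sum]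
      refine Finset.sum_congr rfl fun v _ => ?_
      rw [← Finset.mul_sum]
      congr 1
      rw [Finset.sum_ite_eq]
      simp only [Finset.mem_filter, Finset.mem_univ, true_and]
    rw [Finset.sum_congr rfl fun g _ => h2 g, Finset.sum_comm]
    refine Finset.sum_congr rfl fun v _ => ?_
    rw [Finset.sum_comm]
    rfl
  rw [h1]
  calc ∑ v, ∑ y with ¬ st v y, qq J t v y ≤ ∑ _v : V, θ := Finset.sum_le_sum fun v _ => hθ v
    _ = (Fintype.card V : ℝ) * θ := by rw [Finset.sum_const, Finset.card_univ, nsmul_eq_mul]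

end TuL

theorem tu : S_TU := by
  classical
  intro V _ _ J hJ C _ _ l hl st t θ ht hθ
  have hlaw : ∀ g, 0 ≤ stirLaw J t g := fun g => law_nonneg hJ ht g
  have hIx : Fintype.card (Ix C l) = ∑ c, l c := by
    rw [Fintype.card_sigma]
    simp
  have h1 : ∑ x : Ix C l → V with ∃ k, ¬ st (x k) (x (rot l k)), US J t x (fun k => x (rot l k)) =
      ∑ g : Perm V, stirLaw J t g * ((univ.filter fun x : Ix C l → V =>
        (∃ k, ¬ st (x k) (x (rot l k))) ∧ ∀ k, g (x k) = x (rot l k)).card : ℝ) := by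
    unfold US stirExp
    rw [Finset.sum_comm]
    refine Finset.sum_congr rfl fun g _ => ?_
    rw [← Finset.mul_sum]
    congr 1
    rw [← Finset.filter_filter, Finset.card_filter]
    push_cast
    rfl
  rw [h1]
  have h2 : ∀ g : Perm V, ((univ.filter fun x : Ix C l → V =>
        (∃ k, ¬ st (x k) (x (rot l k))) ∧ ∀ k, g (x k) = x (rot l k)).card : ℝ) ≤
      (∑ c, (l c : ℝ)) * ((Fintype.card V : ℝ) ^ (Fintype.card C - 1) *
        ((univ.filter fun v => ¬ st v (g v)).card : ℝ)) := by
    intro g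
    have h3 : (univ.filter fun x : Ix C l → V =>
        (∃ k, ¬ st (x k) (x (rot l k))) ∧ ∀ k, g (x k) = x (rot l k)) ⊆
        univ.biUnion fun k0 : Ix C l => univ.filter fun x : Ix C l → V =>
          (∀ k, g (x k) = x (rot l k)) ∧ ¬ st (x k0) (g (x k0)) := by
      intro x hx
      obtain ⟨⟨k, hk⟩, hg⟩ := (Finset.mem_filter.mp hx).2
      rw [Finset.mem_biUnion]
      refine ⟨k, Finset.mem_univ _, Finset.mem_filter.mpr ⟨Finset.mem_univ _, hg, ?_⟩⟩
      rw [hg k]
      exact hk
    have h4 : (univ.filter fun x : Ix C l → V =>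
        (∃ k, ¬ st (x k) (x (rot l k))) ∧ ∀ k, g (x k) = x (rot l k)).card ≤
        (∑ c, l c) * (Fintype.card V ^ (Fintype.card C - 1) *
          (univ.filter fun v => ¬ st v (g v)).card) := by
      calc _ ≤ _ := Finset.card_le_card h3
        _ ≤ ∑ k0 : Ix C l, (univ.filter fun x : Ix C l → V =>
          (∀ k, g (x k) = x (rot l k)) ∧ ¬ st (x k0) (g (x k0))).card := Finset.card_biUnion_le
        _ ≤ ∑ _k0 : Ix C l, Fintype.card V ^ (Fintype.card C - 1) *
          (univ.filter fun v => ¬ st v (g v)).card :=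
          Finset.sum_le_sum fun k0 _ => TuL.count g C l hl st k0
        _ = _ := by rw [Finset.sum_const, Finset.card_univ, hIx, smul_eq_mul]
    exact_mod_cast h4
  have hsum0 : (0 : ℝ) ≤ ∑ c, (l c : ℝ) := Finset.sum_nonneg fun c _ => Nat.cast_nonneg _
  calc ∑ g : Perm V, stirLaw J t g * ((univ.filter fun x : Ix C l → V =>
        (∃ k, ¬ st (x k) (x (rot l k))) ∧ ∀ k, g (x k) = x (rot l k)).card : ℝ)
      ≤ ∑ g : Perm V, stirLaw J t g * ((∑ c, (l c : ℝ)) *
        ((Fintype.card V : ℝ) ^ (Fintype.card C - 1) *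
        ((univ.filter fun v => ¬ st v (g v)).card : ℝ))) :=
        Finset.sum_le_sum fun g _ => mul_le_mul_of_nonneg_left (h2 g) (hlaw g)
    _ = (∑ c, (l c : ℝ)) * ((Fintype.card V : ℝ) ^ (Fintype.card C - 1) *
        ∑ g : Perm V, stirLaw J t g * ((univ.filter fun v => ¬ st v (g v)).card : ℝ)) := by
        rw [Finset.mul_sum, Finset.mul_sum]
        refine Finset.sum_congr rfl fun g _ => ?_
        ring
    _ ≤ (∑ c, (l c : ℝ)) * ((Fintype.card V : ℝ) ^ (Fintype.card C - 1) *
        ((Fintype.card V : ℝ) * θ)) := by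
        apply mul_le_mul_of_nonneg_left _ hsum0
        exact mul_le_mul_of_nonneg_left (TuL.mean_bad J st t θ hθ) (by positivity)
    _ = (∑ c, (l c : ℝ)) * ((Fintype.card V : ℝ) ^ Fintype.card C * θ) := by
        rcases isEmpty_or_nonempty C with hC | hC
        · simp
        · have h5 : 1 ≤ Fintype.card C := Fintype.card_pos
          have h6 : (Fintype.card V : ℝ) ^ (Fintype.card C - 1) * (Fintype.card V : ℝ) =
              (Fintype.card V : ℝ) ^ Fintype.card C := by
            rw [← pow_succ, Nat.sub_add_cancel h5]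
          rw [← h6]
          ring

end Pool.Agent.Helper47K9.SC
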