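import Pool.Agent.Helper47K9.SC.Vl

/-! TUP: number of tuples that follow the cycles of a permutation. -/

set_option autoImplicit false

namespace Pool.Agent.Helper47K9.SC

open Finset Equiv Pool.Agent.Y998.ST

namespace TupL

section words

theorem rot_lt (n i : ℕ) (h : i + 1 < n) :
    finRotate n ⟨i, by omega⟩ = (⟨i + 1, h⟩ : Fin n) := by
  obtain ⟨m, rfl⟩ : ∃ m, n = m + 1 := ⟨n - 1, by omega⟩
  exact finRotate_of_lt (by omega)

theorem rot_last (n : ℕ) (hn : 1 ≤ n) :
    finRotate n ⟨n - 1, by omega⟩ = (⟨0, hn⟩ : Fin n) := by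
  obtain ⟨m, rfl⟩ : ∃ m, n = m + 1 := ⟨n - 1, by omega⟩
  have : (⟨m + 1 - 1, by omega⟩ : Fin (m + 1)) = Fin.last m := by
    ext; simp
  rw [this, finRotate_last]
  rfl

variable {V : Type} (g : Perm V)

theorem word_eq (n : ℕ) (hn : 1 ≤ n) (w : Fin n → V) (hw : ∀ i, g (w i) = w (finRotate n i)) :
    ∀ (i : ℕ) (hi : i < n), w ⟨i, hi⟩ = (g : V → V)^[i] (w ⟨0, hn⟩) := by
  intro i
  induction i with
  | zero => intro hi; rfl
  | succ i ih =>
    intro hi
    rw [Function.iterate_succ_apply', ← ih (by omega), hw, rot_lt n i hi]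

theorem word_per (n : ℕ) (hn : 1 ≤ n) (w : Fin n → V) (hw : ∀ i, g (w i) = w (finRotate n i)) :
    Function.IsPeriodicPt g n (w ⟨0, hn⟩) := by
  have h1 := word_eq g n hn w hw (n - 1) (by omega)
  have h2 := hw ⟨n - 1, by omega⟩
  rw [rot_last n hn, h1, ← Function.iterate_succ_apply' (g : V → V)] at h2
  have h3 : (n - 1).succ = n := by omega
  rw [h3] at h2
  exact h2

theorem word_minimal (n : ℕ) (hn : 1 ≤ n) (w : Fin n → V)
    (hw : ∀ i, g (w i) = w (finRotate n i)) (hi : Function.Injective w) :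
    Function.minimalPeriod g (w ⟨0, hn⟩) = n := by
  have hper := word_per g n hn w hw
  have hle := hper.minimalPeriod_le hn
  have hpos := Function.minimalPeriod_pos_of_mem_periodicPts
    (Function.mk_mem_periodicPts hn hper)
  by_contra hne
  have hlt : Function.minimalPeriod g (w ⟨0, hn⟩) < n := lt_of_le_of_ne hle hne
  have h1 := word_eq g n hn w hw _ hlt
  rw [Function.iterate_minimalPeriod] at h1
  have h2 := congrArg Fin.val (hi h1)
  simp only at h2
  omega

end words

variable {V : Type} [Fintype V] [DecidableEq V] (g : Perm V)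

theorem cycleLen_eq (v : V) : cycleLen g v = Function.minimalPeriod g v := by
  unfold cycleLen
  have e : {w : V // g.SameCycle v w} ≃ MulAction.orbit (Subgroup.zpowers g) v := by
    refine Equiv.subtypeEquivRight fun w => ?_
    constructor
    · rintro ⟨i, rfl⟩
      exact ⟨⟨g ^ i, i, rfl⟩, rfl⟩
    · rintro ⟨⟨_, i, rfl⟩, rfl⟩
      exact ⟨i, rfl⟩
  rw [Nat.card_congr e, Nat.card_congr (MulAction.orbitZPowersEquiv g v), Nat.card_zmod]
  rfl

theorem minimalPeriod_pos (v : V) : 0 < Function.minimalPeriod g v := by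
  rw [← cycleLen_eq]
  unfold cycleLen
  exact Nat.card_pos_iff.mpr ⟨⟨⟨v, Equiv.Perm.SameCycle.refl g v⟩⟩, inferInstance⟩

theorem exists_iter (v w : V) (h : g.SameCycle v w) :
    ∃ i < Function.minimalPeriod g v, (g : V → V)^[i] v = w := by
  obtain ⟨i, _, hi⟩ := h.exists_pow_eq'
  refine ⟨i % Function.minimalPeriod g v, Nat.mod_lt _ (minimalPeriod_pos g v), ?_⟩
  rw [Function.iterate_mod_minimalPeriod_eq, Equiv.Perm.iterate_eq_pow, hi]

theorem sameCycle_iter (v : V) (i : ℕ) : g.SameCycle v ((g : V → V)^[i] v) :=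
  ⟨(i : ℤ), by rw [zpow_natCast, Equiv.Perm.iterate_eq_pow]⟩

/-- Cycles. -/
abbrev Q : Type := Quotient (Equiv.Perm.SameCycle.setoid g)

/-- The cycle of `v`. -/
def mk (v : V) : Q g := Quotient.mk _ v

theorem mk_eq {v w : V} : mk g v = mk g w ↔ g.SameCycle v w := by
  unfold mk
  rw [Quotient.eq]
  rfl

open Classical in
/-- Size of a cycle. -/
noncomputable def sz (q : Q g) : ℕ := (univ.filter fun v => mk g v = q).card

theorem sz_mk (v : V) : sz g (mk g v) = cycleLen g v := by
  classical
  unfold sz cycleLen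
  rw [Nat.card_eq_fintype_card, Fintype.card_subtype]
  congr 1
  ext w
  simp only [Finset.mem_filter, Finset.mem_univ, true_and, mk_eq]
  exact Equiv.Perm.sameCycle_comm

noncomputable instance : Fintype (Q g) := Fintype.ofFinite _

open Classical in
/-- Base points. -/
noncomputable def Y (C : Type) [Fintype C] [DecidableEq C] (l : C → ℕ) : Finset (C → V) :=
  univ.filter fun v => (∀ c, cycleLen g (v c) = l c) ∧ Function.Injective fun c => mk g (v c)

open Classical in
/-- Choices of cycles. -/
noncomputable def E (C : Type) [Fintype C] [DecidableEq C] (l : C → ℕ) : Finset (C → Q g) :=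
  univ.filter fun e => (∀ c, sz g (e c) = l c) ∧ Function.Injective e

open Classical in
theorem card_X (C : Type) [Fintype C] [DecidableEq C] (l : C → ℕ) (hl : ∀ c, 1 ≤ l c) :
    (univ.filter fun x : Ix C l → V => Function.Injective x ∧
      ∀ i, g (x i) = x (rot l i)).card = (Y g C l).card := by
  refine Finset.card_bij' (fun x _ => fun c => x ⟨c, ⟨0, hl c⟩⟩)
    (fun v _ => fun i => (g : V → V)^[(i.2 : ℕ)] (v i.1)) ?_ ?_ ?_ ?_
  · intro x hx
    obtain ⟨hinj, hg⟩ := (Finset.mem_filter.mp hx).2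
    have hw : ∀ c, ∀ i : Fin (l c), g (x ⟨c, i⟩) = x ⟨c, finRotate (l c) i⟩ :=
      fun c i => hg ⟨c, i⟩
    have hwi : ∀ c, Function.Injective fun i : Fin (l c) => x ⟨c, i⟩ := by
      intro c i j hij
      have := hinj hij
      simpa using this
    have hm : ∀ c, Function.minimalPeriod g (x ⟨c, ⟨0, hl c⟩⟩) = l c := fun c =>
      word_minimal g (l c) (hl c) (fun i => x ⟨c, i⟩) (hw c) (hwi c)
    refine Finset.mem_filter.mpr ⟨Finset.mem_univ _, fun c => ?_, ?_⟩
    · rw [cycleLen_eq, hm c]
    · intro c c' hcc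
      simp only [mk_eq] at hcc
      obtain ⟨i, hi, hi2⟩ := exists_iter g _ _ hcc
      rw [hm c] at hi
      rw [← word_eq g (l c) (hl c) (fun i => x ⟨c, i⟩) (hw c) i hi] at hi2
      have := hinj hi2
      exact congrArg Sigma.fst this
  · intro v hv
    obtain ⟨h1, h2⟩ := (Finset.mem_filter.mp hv).2
    have hm : ∀ c, Function.minimalPeriod g (v c) = l c := fun c => by rw [← cycleLen_eq, h1 c]
    refine Finset.mem_filter.mpr ⟨Finset.mem_univ _, ?_, ?_⟩
    · rintro ⟨c, i⟩ ⟨c', j⟩ hij
      simp only at hij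
      have h3 : g.SameCycle (v c) (v c') := by
        have h4 := sameCycle_iter g (v c) (i : ℕ)
        have h5 := sameCycle_iter g (v c') (j : ℕ)
        rw [hij] at h4
        exact h4.trans h5.symm
      have h6 : c = c' := h2 ((mk_eq g).mpr h3)
      subst h6
      have h7 := (Function.iterate_eq_iterate_iff_of_lt_minimalPeriod
        (by rw [hm c]; exact i.2) (by rw [hm c]; exact j.2)).mp hij
      rw [Fin.ext h7]
    · rintro ⟨c, i⟩
      show g ((g : V → V)^[(i : ℕ)] (v c)) = (g : V → V)^[((finRotate (l c) i : Fin (l c)) : ℕ)] (v c)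
      rw [← Function.iterate_succ_apply' (g : V → V)]
      rcases Nat.lt_or_ge ((i : ℕ) + 1) (l c) with h | h
      · have : finRotate (l c) i = ⟨(i : ℕ) + 1, h⟩ := rot_lt (l c) i h
        rw [this]
      · have hi := i.2
        have h8 : i = ⟨l c - 1, by omega⟩ := Fin.ext (by simp only; omega)
        have : finRotate (l c) i = ⟨0, hl c⟩ := by
          rw [h8]; exact rot_last (l c) (hl c)
        rw [this]
        have h9 : (i : ℕ).succ = Function.minimalPeriod g (v c) := by rw [hm c]; omega
        rw [h9, Function.iterate_minimalPeriod]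
        rfl
  · intro x hx
    obtain ⟨hinj, hg⟩ := (Finset.mem_filter.mp hx).2
    funext i
    obtain ⟨c, i⟩ := i
    exact (word_eq g (l c) (hl c) (fun i => x ⟨c, i⟩) (fun i => hg ⟨c, i⟩) i i.2).symm
  · intro v hv
    rfl

open Classical in
theorem card_Y (C : Type) [Fintype C] [DecidableEq C] (l : C → ℕ) :
    (Y g C l).card = (∏ c, l c) * (E g C l).card := by
  have h1 : ∀ v ∈ Y g C l, (fun c => mk g (v c)) ∈ E g C l := by
    intro v hv
    obtain ⟨h1, h2⟩ := (Finset.mem_filter.mp hv).2
    exact Finset.mem_filter.mpr ⟨Finset.mem_univ _, fun c => by rw [sz_mk, h1], h2⟩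
  rw [Finset.card_eq_sum_card_fiberwise h1]
  have h2 : ∀ e ∈ E g C l, ((Y g C l).filter fun v => (fun c => mk g (v c)) = e).card =
      ∏ c, l c := by
    intro e he
    obtain ⟨h3, h4⟩ := (Finset.mem_filter.mp he).2
    have h5 : ((Y g C l).filter fun v => (fun c => mk g (v c)) = e) =
        Fintype.piFinset fun c => univ.filter fun v => mk g v = e c := by
      ext v
      simp only [Y, Finset.mem_filter, Finset.mem_univ, true_and, Fintype.mem_piFinset]
      constructor
      · rintro ⟨_, rfl⟩ c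
        rfl
      · intro h
        have h6 : (fun c => mk g (v c)) = e := funext h
        refine ⟨⟨fun c => ?_, ?_⟩, h6⟩
        · rw [← sz_mk, h c, h3 c]
        · rw [h6]; exact h4
    rw [h5, Fintype.card_piFinset]
    exact Finset.prod_congr rfl fun c _ => h3 c
  rw [Finset.sum_congr rfl h2, Finset.sum_const, smul_eq_mul, mul_comm]

open Classical in
theorem card_sz (m : ℕ) (hm : 1 ≤ m) : Fintype.card {q : Q g // sz g q = m} = numLen g m := by
  have h0 := vl V g m hm
  have h1 : ∀ v ∈ (univ.filter fun v => cycleLen g v = m), mk g v ∈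
      (univ.filter fun q : Q g => sz g q = m) := by
    intro v hv
    rw [Finset.mem_filter] at hv ⊢
    exact ⟨Finset.mem_univ _, by rw [sz_mk, hv.2]⟩
  rw [Finset.card_eq_sum_card_fiberwise h1] at h0
  have h2 : ∀ q ∈ (univ.filter fun q : Q g => sz g q = m),
      ((univ.filter fun v => cycleLen g v = m).filter fun v => mk g v = q).card = m := by
    intro q hq
    have hq2 := (Finset.mem_filter.mp hq).2
    rw [← hq2]
    unfold sz
    congr 1
    ext v
    simp only [Finset.mem_filter, Finset.mem_univ, true_and]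
    constructor
    · exact fun h => h.2
    · intro h
      refine ⟨?_, h⟩
      rw [← sz_mk, h]
      rfl
  rw [Finset.sum_congr rfl h2, Finset.sum_const, smul_eq_mul, mul_comm] at h0
  rw [Fintype.card_subtype]
  exact Nat.eq_of_mul_eq_mul_left (by omega) h0

open Classical in
theorem card_E (k : ℕ) (a : Fin k → ℕ) :
    (E g ((s : Fin k) × Fin (a s)) (fun c => (c.1 : ℕ) + 1)).card =
      ∏ s : Fin k, (numLen g ((s : ℕ) + 1)).descFactorial (a s) := by
  have e : {e : ((s : Fin k) × Fin (a s)) → Q g //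
      (∀ c, sz g (e c) = (c.1 : ℕ) + 1) ∧ Function.Injective e} ≃
      ((s : Fin k) → (Fin (a s) ↪ {q : Q g // sz g q = (s : ℕ) + 1})) :=
    { toFun := fun e s => ⟨fun i => ⟨e.1 ⟨s, i⟩, e.2.1 ⟨s, i⟩⟩, by
        intro i j hij
        have h1 := congrArg Subtype.val hij
        have h2 := e.2.2 h1
        simpa using h2⟩
      invFun := fun h => ⟨fun c => (h c.1 c.2).1, fun c => (h c.1 c.2).2, by
        rintro ⟨s, i⟩ ⟨s', i'⟩ hii
        simp only at hii
        have h1 : (s : ℕ) + 1 = (s' : ℕ) + 1 := by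
          rw [← (h s i).2, ← (h s' i').2, hii]
        have h2 : s = s' := Fin.ext (by omega)
        subst h2
        have h3 := (h s).injective (Subtype.ext hii)
        rw [h3]⟩
      left_inv := fun e => rfl
      right_inv := fun h => rfl }
  have h1 : (E g ((s : Fin k) × Fin (a s)) (fun c => (c.1 : ℕ) + 1)).card =
      Fintype.card {e : ((s : Fin k) × Fin (a s)) → Q g //
      (∀ c, sz g (e c) = (c.1 : ℕ) + 1) ∧ Function.Injective e} := by
    rw [Fintype.card_subtype]
    rfl
  rw [h1, Fintype.card_congr e, Fintype.card_pi]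
  refine Finset.prod_congr rfl fun s _ => ?_
  rw [Fintype.card_embedding_eq, Fintype.card_fin, card_sz g _ (by omega)]

end TupL

theorem tup : S_TUP := by
  classical
  intro V _ _ g k a
  have h := TupL.card_X g ((s : Fin k) × Fin (a s)) (fun c => (c.1 : ℕ) + 1) (fun c => by omega)
  rw [TupL.card_Y, TupL.card_E] at h
  have h2 : (∏ c : (s : Fin k) × Fin (a s), ((c.1 : ℕ) + 1)) = ∏ s : Fin k, ((s : ℕ) + 1) ^ a s := by
    rw [Fintype.prod_sigma]
    refine Finset.prod_congr rfl fun s _ => ?_
    simp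
  rw [h2, ← Finset.prod_mul_distrib] at h
  rw [← h]

end Pool.Agent.Helper47K9.SC
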