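import Pool.Agent.Helper47K9.SC.Ck

/-! TV: tuples with a long step, independent walks. -/

set_option autoImplicit false

namespace Pool.Agent.Helper47K9.SC

open Finset Equiv Pool.Agent.Y998.ST

namespace TvL

variable {V : Type} [Fintype V] [DecidableEq V]

theorem list_prod_apply : ∀ (n : ℕ) (A : Fin (n + 1) → Matrix V V ℝ) (a b : V),
    (List.ofFn A).prod a b =
      ∑ w : Fin n → V, ∏ i : Fin (n + 1),
        A i ((Fin.cons a w : Fin (n + 1) → V) i) ((Fin.snoc w b : Fin (n + 1) → V) i) := by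
  intro n
  induction n with
  | zero =>
    intro A a b
    simp [Fin.snoc]
  | succ n ih =>
    intro A a b
    rw [List.ofFn_succ, List.prod_cons, Matrix.mul_apply]
    rw [← (Fin.consEquiv (fun _ : Fin (n + 1) => V)).sum_comp, Fintype.sum_prod_type]
    refine Finset.sum_congr rfl fun c _ => ?_
    rw [ih (fun i => A i.succ) c b, Finset.mul_sum]
    refine Finset.sum_congr rfl fun w _ => ?_
    rw [Fin.prod_univ_succ (n := n + 1)]
    simp only [Fin.consEquiv, Equiv.coe_fn_mk]
    congr 1
    refine Finset.prod_congr rfl fun i _ => ?_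
    congr 1
    rw [← Fin.cons_snoc_eq_snoc_cons]
    simp

theorem word_trace (m : ℕ) (A : Fin (m + 1) → Matrix V V ℝ) :
    ∑ w : Fin (m + 1) → V, ∏ i, A i (w i) (w (finRotate (m + 1) i)) =
      ((List.ofFn A).prod).trace := by
  rw [← (Fin.consEquiv (fun _ : Fin (m + 1) => V)).sum_comp, Fintype.sum_prod_type]
  unfold Matrix.trace
  refine Finset.sum_congr rfl fun a _ => ?_
  rw [Matrix.diag_apply, list_prod_apply]
  refine Finset.sum_congr rfl fun w _ => ?_
  refine Finset.prod_congr rfl fun i _ => ?_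
  simp only [Fin.consEquiv, Equiv.coe_fn_mk]
  congr 1
  induction i using Fin.lastCases with
  | last => simp
  | cast j =>
    have h : finRotate (m + 1) j.castSucc = j.succ := by
      rw [finRotate_of_lt (by simp)]
      rfl
    rw [h, Fin.snoc_castSucc, Fin.cons_succ]

theorem rotate_word (m : ℕ) (B Q : Matrix V V ℝ) (a0 : Fin (m + 1)) :
    ∑ w : Fin (m + 1) → V, ∏ i, (if i = a0 then B else Q) (w i) (w (finRotate (m + 1) i)) =
    ∑ w : Fin (m + 1) → V, ∏ i, (if i = 0 then B else Q) (w i) (w (finRotate (m + 1) i)) := by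
  rw [← (Equiv.arrowCongr (Equiv.addRight a0) (Equiv.refl V)).sum_comp]
  refine Finset.sum_congr rfl fun w _ => ?_
  rw [← Equiv.prod_comp (Equiv.addRight a0)]
  refine Finset.prod_congr rfl fun i _ => ?_
  have h1 : finRotate (m + 1) (i + a0) = finRotate (m + 1) i + a0 := by
    rw [finRotate_apply, finRotate_apply]
    abel
  have h2 : (i + a0 = a0) ↔ i = 0 := by
    constructor
    · intro h
      have := congrArg (· - a0) h
      simpa using this
    · rintro rfl
      simp
  simp only [Equiv.coe_addRight, Equiv.arrowCongr_apply, Equiv.coe_refl, Function.comp_apply, h1,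
    Equiv.addRight_symm, id_eq, add_neg_cancel_right, h2]

theorem marked_trace (m : ℕ) (B Q : Matrix V V ℝ) (a0 : Fin (m + 1)) :
    ∑ w : Fin (m + 1) → V, ∏ i, (if i = a0 then B else Q) (w i) (w (finRotate (m + 1) i)) =
      (B * Q ^ m).trace := by
  rw [rotate_word, word_trace m (fun i => if i = 0 then B else Q)]
  congr 1
  rw [List.ofFn_succ, List.prod_cons, if_pos rfl]
  congr 1
  have : (fun i : Fin m => if i.succ = 0 then B else Q) = fun _ => Q := by
    funext i
    rw [if_neg (Fin.succ_ne_zero i)]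
  rw [this, List.ofFn_const, List.prod_replicate]

theorem pow_stoch (Q : Matrix V V ℝ) (h0 : ∀ a b, 0 ≤ Q a b) (h1 : ∀ a, ∑ b, Q a b = 1) :
    ∀ n : ℕ, (∀ a b, 0 ≤ (Q ^ n) a b) ∧ ∀ a, ∑ b, (Q ^ n) a b = 1 := by
  intro n
  induction n with
  | zero =>
    constructor
    · intro a b
      rw [pow_zero, Matrix.one_apply]
      split_ifs <;> norm_num
    · intro a
      simp [Matrix.one_apply]
  | succ n ih =>
    constructor
    · intro a b
      rw [pow_succ, Matrix.mul_apply]
      exact Finset.sum_nonneg fun c _ => mul_nonneg (ih.1 a c) (h0 c b)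
    · intro a
      simp only [pow_succ, Matrix.mul_apply]
      rw [Finset.sum_comm]
      simp only [← Finset.mul_sum, h1, mul_one]
      exact ih.2 a

theorem pow_le_one' (Q : Matrix V V ℝ) (h0 : ∀ a b, 0 ≤ Q a b) (h1 : ∀ a, ∑ b, Q a b = 1)
    (n : ℕ) (a b : V) : (Q ^ n) a b ≤ 1 := by
  have h := pow_stoch Q h0 h1 n
  rw [← h.2 a]
  exact Finset.single_le_sum (f := fun b => (Q ^ n) a b) (fun c _ => h.1 a c) (Finset.mem_univ b)

theorem trace_le (Q : Matrix V V ℝ) (h0 : ∀ a b, 0 ≤ Q a b) (h1 : ∀ a, ∑ b, Q a b = 1)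
    (n : ℕ) : (Q ^ n).trace ≤ Fintype.card V := by
  unfold Matrix.trace
  calc ∑ a, (Q ^ n).diag a ≤ ∑ _a : V, (1 : ℝ) :=
        Finset.sum_le_sum fun a _ => pow_le_one' Q h0 h1 n a a
    _ = Fintype.card V := by rw [Finset.sum_const, Finset.card_univ, nsmul_eq_mul, mul_one]

theorem marked_le (Q B : Matrix V V ℝ) (h0 : ∀ a b, 0 ≤ Q a b) (h1 : ∀ a, ∑ b, Q a b = 1)
    (hB : ∀ a b, 0 ≤ B a b) (θ : ℝ) (hθ : ∀ a, ∑ b, B a b ≤ θ) (m : ℕ) :
    (B * Q ^ m).trace ≤ Fintype.card V * θ := by
  unfold Matrix.trace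
  calc ∑ a, (B * Q ^ m).diag a ≤ ∑ _a : V, θ := by
        refine Finset.sum_le_sum fun a _ => ?_
        rw [Matrix.diag_apply, Matrix.mul_apply]
        refine le_trans (Finset.sum_le_sum fun c _ => ?_) (hθ a)
        exact mul_le_of_le_one_right (hB a c) (pow_le_one' Q h0 h1 m c a)
    _ = Fintype.card V * θ := by rw [Finset.sum_const, Finset.card_univ, nsmul_eq_mul]

end TvL

theorem tv : S_TV := by
  classical
  intro V _ _ J hJ C _ _ l hl st t θ ht hθ
  have hIx : Fintype.card (Ix C l) = ∑ c, l c := by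
    rw [Fintype.card_sigma]
    simp
  set Q : Matrix V V ℝ := qq J t with hQ
  have hQ0 : ∀ a b, 0 ≤ Q a b := fun a b => qq_nonneg hJ ht a b
  have hQ1 : ∀ a, ∑ b, Q a b = 1 := fun a => qq_row J t a
  let B : Matrix V V ℝ := fun a b => if st a b then 0 else Q a b
  have hB0 : ∀ a b, 0 ≤ B a b := by
    intro a b
    simp only [B]
    split_ifs
    · exact le_rfl
    · exact hQ0 a b
  have hBθ : ∀ a, ∑ b, B a b ≤ θ := by
    intro a
    refine le_trans (le_of_eq ?_) (hθ a)
    rw [Finset.sum_filter]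
    refine Finset.sum_congr rfl fun b _ => ?_
    simp only [B]
    by_cases h : st a b
    · simp [h]
    · simp [h]
  -- one marked letter
  have hone : ∀ k0 : Ix C l,
      ∑ x : Ix C l → V, ∏ k, (if k = k0 then B else Q) (x k) (x (rot l k)) ≤
        (Fintype.card V : ℝ) ^ Fintype.card C * θ := by
    rintro ⟨c0, a0⟩
    have h1 : ∑ x : Ix C l → V, ∏ k, (if k = (⟨c0, a0⟩ : Ix C l) then B else Q) (x k) (x (rot l k)) =
        ∏ c, ∑ w : Fin (l c) → V, ∏ i,
          (if (⟨c, i⟩ : Ix C l) = ⟨c0, a0⟩ then B else Q) (w i) (w (finRotate (l c) i)) := by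
      rw [Finset.prod_univ_sum, Fintype.piFinset_univ]
      rw [← (Equiv.piCurry (fun (c : C) (_ : Fin (l c)) => V)).symm.sum_comp]
      refine Finset.sum_congr rfl fun p _ => ?_
      rw [Fintype.prod_sigma]
      rfl
    rw [h1]
    have hθ0 : 0 ≤ θ ∨ IsEmpty V := by
      rcases isEmpty_or_nonempty V with h | ⟨⟨v⟩⟩
      · exact Or.inr h
      · exact Or.inl (le_trans (Finset.sum_nonneg fun b _ => hB0 v b) (hBθ v))
    have h2 : ∀ c, (∑ w : Fin (l c) → V, ∏ i,
          (if (⟨c, i⟩ : Ix C l) = ⟨c0, a0⟩ then B else Q) (w i) (w (finRotate (l c) i))) ≤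
        (Fintype.card V : ℝ) * (if c = c0 then θ else 1) := by
      intro c
      by_cases hc : c = c0
      · subst hc
        rw [if_pos rfl]
        obtain ⟨m, hm⟩ : ∃ m, l c = m + 1 := ⟨l c - 1, by have := hl c; omega⟩
        have h3 : ∀ i : Fin (l c), ((⟨c, i⟩ : Ix C l) = ⟨c, a0⟩) ↔ i = a0 := by
          intro i
          constructor
          · intro h
            simpa using h
          · rintro rfl; rfl
        simp only [h3]
        have h4 : ∀ (n : ℕ) (hn : n = m + 1) (a : Fin n),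
            ∑ w : Fin n → V, ∏ i, (if i = a then B else Q) (w i) (w (finRotate n i)) ≤
              Fintype.card V * θ := by
          rintro n rfl a
          rw [TvL.marked_trace]
          exact TvL.marked_le Q B hQ0 hQ1 hB0 θ hBθ m
        exact h4 (l c) hm a0
      · rw [if_neg hc, mul_one]
        have h3 : ∀ i : Fin (l c), ¬ ((⟨c, i⟩ : Ix C l) = ⟨c0, a0⟩) := by
          intro i h
          exact hc (congrArg Sigma.fst h)
        simp only [h3, if_false]
        rw [← CkL.trace_pow Q (l c) (hl c)]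
        exact TvL.trace_le Q hQ0 hQ1 (l c)
    have h5 : ∀ c, 0 ≤ (∑ w : Fin (l c) → V, ∏ i,
          (if (⟨c, i⟩ : Ix C l) = ⟨c0, a0⟩ then B else Q) (w i) (w (finRotate (l c) i))) := by
      intro c
      refine Finset.sum_nonneg fun w _ => Finset.prod_nonneg fun i _ => ?_
      split_ifs
      · exact hB0 _ _
      · exact hQ0 _ _
    calc _ ≤ ∏ c : C, ((Fintype.card V : ℝ) * (if c = c0 then θ else 1)) :=
          Finset.prod_le_prod (fun c _ => h5 c) (fun c _ => h2 c)
      _ = (Fintype.card V : ℝ) ^ Fintype.card C * θ := by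
          rw [Finset.prod_mul_distrib, Finset.prod_const, Finset.card_univ,
            Finset.prod_ite_eq' Finset.univ c0 (fun _ => θ), if_pos (Finset.mem_univ _)]
  -- union bound
  have hmain : ∑ x : Ix C l → V with ∃ k, ¬ st (x k) (x (rot l k)),
      IS J t x (fun k => x (rot l k)) ≤
      ∑ k0 : Ix C l, ∑ x : Ix C l → V, ∏ k, (if k = k0 then B else Q) (x k) (x (rot l k)) := by
    rw [Finset.sum_comm, Finset.sum_filter]
    refine Finset.sum_le_sum fun x _ => ?_
    have hnn : ∀ k0 : Ix C l, 0 ≤ ∏ k, (if k = k0 then B else Q) (x k) (x (rot l k)) := by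
      intro k0
      refine Finset.prod_nonneg fun k _ => ?_
      split_ifs
      · exact hB0 _ _
      · exact hQ0 _ _
    split_ifs with h
    · obtain ⟨k0, hk0⟩ := h
      refine le_trans (le_of_eq ?_) (Finset.single_le_sum (fun k0 _ => hnn k0)
        (Finset.mem_univ k0))
      unfold IS
      refine Finset.prod_congr rfl fun k _ => ?_
      by_cases hk : k = k0
      · subst hk
        rw [if_pos rfl]
        simp only [B]
        rw [if_neg hk0]
      · rw [if_neg hk]
    · exact Finset.sum_nonneg fun k0 _ => hnn k0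
  calc _ ≤ _ := hmain
    _ ≤ ∑ _k0 : Ix C l, (Fintype.card V : ℝ) ^ Fintype.card C * θ :=
        Finset.sum_le_sum fun k0 _ => hone k0
    _ = (∑ c, (l c : ℝ)) * ((Fintype.card V : ℝ) ^ Fintype.card C * θ) := by
        rw [Finset.sum_const, Finset.card_univ, hIx, nsmul_eq_mul]
        push_cast
        rfl

end Pool.Agent.Helper47K9.SC
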