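import Pool.Agent.Helper47K9.SC.Lig

/-! # Leaf UBD: sup bound for the kernel of labelled stirring particles -/

set_option autoImplicit false

namespace Pool.Agent.Helper47K9.SC

open Finset Equiv Pool.Agent.Y998.ST

open LigL in
/-- **UBD** -/
theorem ubd (lig : S_LIG) : S_UBD := by
  classical
  intro V _ _ J hJ hs h0 ι _ x y hx s q hs0 hq
  set S : Finset V := Finset.univ.image y with hS
  set f : V → ℝ := fun a => if a ∈ S then 1 else 0 with hf
  have hf0 : ∀ a, 0 ≤ f a := fun a => by
    rw [hf]
    dsimp only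
    split_ifs <;> norm_num
  have h1 := lig V J hJ hs h0 ι f hf0 x hx s hs0
  have h2 : US J s x y ≤ stirExp J s (fun g => ∏ k, f (g (x k))) := by
    refine exp_mono hJ hs0 fun g => ?_
    split_ifs with h
    · refine le_of_eq ?_
      symm
      refine Finset.prod_eq_one fun k _ => ?_
      rw [hf]
      dsimp only
      rw [h k, if_pos (Finset.mem_image_of_mem y (Finset.mem_univ k))]
    · exact Finset.prod_nonneg fun k _ => hf0 _
  refine h2.trans (h1.trans ?_)
  have h3 : ∀ k : ι, PP J s f (x k) ≤ Fintype.card ι * q := by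
    intro k
    have hq0 : 0 ≤ q := (qq_nonneg hJ hs0 (x k) (x k)).trans (hq _ _)
    unfold PP
    have h4 : ∑ c, qq J s (x k) c * f c = ∑ c ∈ S, qq J s (x k) c := by
      rw [hf]
      simp only [mul_ite, mul_one, mul_zero]
      rw [Finset.sum_ite_mem, Finset.univ_inter]
    rw [h4]
    calc ∑ c ∈ S, qq J s (x k) c ≤ ∑ _c ∈ S, q := Finset.sum_le_sum fun c _ => hq _ _
      _ = #S * q := by rw [Finset.sum_const, nsmul_eq_mul]
      _ ≤ Fintype.card ι * q := by
        refine mul_le_mul_of_nonneg_right ?_ hq0
        have h5 : #S ≤ Fintype.card ι := by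
          rw [hS]
          exact Finset.card_image_le
        exact_mod_cast h5
  calc ∏ k, PP J s f (x k) ≤ ∏ _k : ι, (Fintype.card ι * q) :=
        Finset.prod_le_prod (fun k _ => PP_nonneg hJ hs0 hf0 _) fun k _ => h3 k
    _ = (Fintype.card ι * q) ^ Fintype.card ι := by
        rw [Finset.prod_const, Finset.card_univ]

end Pool.Agent.Helper47K9.SC
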