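import Pool.Agent.Helper47K9.SC.Stm

/-! VL: number of points in cycles of length `s`. -/

set_option autoImplicit false

namespace Pool.Agent.Helper47K9.SC

open Finset Equiv Pool.Agent.Y998.ST

namespace VlL

variable {V : Type} [Fintype V] [DecidableEq V]

theorem cycleLen_supp (g : Perm V) (v : V) (hv : v ∈ g.support) :
    cycleLen g v = (g.cycleOf v).support.card := by
  classical
  unfold cycleLen
  rw [Nat.card_eq_fintype_card, Fintype.card_subtype]
  congr 1
  ext w
  simp only [Finset.mem_filter, Finset.mem_univ, true_and]
  rw [Equiv.Perm.mem_support_cycleOf_iff]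
  exact ⟨fun h => ⟨h, hv⟩, fun h => h.1⟩

theorem cycleLen_fix (g : Perm V) (v : V) (hv : v ∉ g.support) : cycleLen g v = 1 := by
  classical
  unfold cycleLen
  have hfix : g v = v := by simpa using hv
  rw [Nat.card_eq_one_iff_unique]
  refine ⟨⟨fun a b => Subtype.ext ?_⟩, ⟨⟨v, Equiv.Perm.SameCycle.refl g v⟩⟩⟩
  have h : ∀ w : V, g.SameCycle v w → w = v := by
    rintro w ⟨i, rfl⟩
    exact Equiv.Perm.zpow_apply_eq_self_of_apply_eq_self hfix i
  rw [h a.1 a.2, h b.1 b.2]

theorem two_le (g : Perm V) (v : V) (hv : v ∈ g.support) : 2 ≤ cycleLen g v := by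
  rw [cycleLen_supp g v hv]
  exact (Equiv.Perm.isCycle_cycleOf g (Equiv.Perm.mem_support.mp hv)).two_le_card_support

theorem numLen_ge_two (g : Perm V) (s : ℕ) (hs : 2 ≤ s) :
    numLen g s = (g.cycleFactorsFinset.filter fun c => c.support.card = s).card := by
  unfold numLen
  rw [Equiv.Perm.parts_partition, Multiset.count_add, Multiset.count_replicate, if_neg (by omega),
    add_zero, Equiv.Perm.cycleType_def, Multiset.count_map, Finset.card_def, Finset.filter_val]
  congr 1
  apply Multiset.filter_congr
  intro c _
  simp only [Function.comp_apply]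
  exact eq_comm

theorem numLen_one (g : Perm V) : numLen g 1 = Fintype.card V - g.support.card := by
  unfold numLen
  rw [Equiv.Perm.parts_partition, Multiset.count_add, Multiset.count_replicate, if_pos rfl]
  have : Multiset.count 1 g.cycleType = 0 := by
    rw [Multiset.count_eq_zero]
    intro h
    exact absurd (Equiv.Perm.two_le_of_mem_cycleType h) (by norm_num)
  omega

end VlL

theorem vl : S_VL := by
  classical
  intro V _ _ g s hs
  rcases Nat.lt_or_ge s 2 with h2 | h2
  · obtain rfl : s = 1 := by omega
    rw [VlL.numLen_one, one_mul]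
    have : (univ.filter fun v => cycleLen g v = 1) = g.supportᶜ := by
      ext v
      simp only [Finset.mem_filter, Finset.mem_univ, true_and, Finset.mem_compl]
      constructor
      · intro h hv
        have := VlL.two_le g v hv
        omega
      · intro h
        exact VlL.cycleLen_fix g v h
    rw [this, Finset.card_compl]
  · rw [VlL.numLen_ge_two g s h2]
    have : (univ.filter fun v => cycleLen g v = s) =
        (g.cycleFactorsFinset.filter fun c => c.support.card = s).biUnion fun c => c.support := by
      ext v
      simp only [Finset.mem_filter, Finset.mem_univ, true_and, Finset.mem_biUnion]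
      constructor
      · intro h
        have hv : v ∈ g.support := by
          by_contra hv
          rw [VlL.cycleLen_fix g v hv] at h
          omega
        refine ⟨g.cycleOf v, ⟨Equiv.Perm.cycleOf_mem_cycleFactorsFinset_iff.mpr hv, ?_⟩, ?_⟩
        · rw [← VlL.cycleLen_supp g v hv, h]
        · rw [Equiv.Perm.mem_support_cycleOf_iff]
          exact ⟨Equiv.Perm.SameCycle.refl g v, hv⟩
      · rintro ⟨c, ⟨hc, hcs⟩, hvc⟩
        have hv : v ∈ g.support := Equiv.Perm.mem_cycleFactorsFinset_support_le hc hvc
        have h3 : c = g.cycleOf v := Equiv.Perm.cycle_is_cycleOf hvc hc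
        rw [VlL.cycleLen_supp g v hv, ← h3, hcs]
    rw [this, Finset.card_biUnion]
    · rw [Finset.sum_congr rfl (fun c hc => (Finset.mem_filter.mp hc).2), Finset.sum_const,
        smul_eq_mul, mul_comm]
    · intro c hc c' hc' hne
      exact (Equiv.Perm.cycleFactorsFinset_pairwise_disjoint g (Finset.mem_filter.mp hc).1
        (Finset.mem_filter.mp hc').1 hne).disjoint_support

end Pool.Agent.Helper47K9.SC
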