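import Pool.Agent.Helper47K9.SC.One
import Pool.Agent.Helper47K9.SC.Fm
import Pool.Agent.Helper47K9.SC.Main
import Pool.Agent.Helper47K9.SC.Gr
import Pool.Agent.Helper47K9.SC.As
import Pool.Agent.Helper47K9.SC.Ck
import Pool.Agent.Helper47K9.SC.Cnt
import Pool.Agent.Helper47K9.SC.Duh
import Pool.Agent.Helper47K9.SC.ETwo
import Pool.Agent.Helper47K9.SC.Fib
import Pool.Agent.Helper47K9.SC.Lig
import Pool.Agent.Helper47K9.SC.Low
import Pool.Agent.Helper47K9.SC.Poi
import Pool.Agent.Helper47K9.SC.Pt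
import Pool.Agent.Helper47K9.SC.Tail
import Pool.Agent.Helper47K9.SC.Tu
import Pool.Agent.Helper47K9.SC.Tup
import Pool.Agent.Helper47K9.SC.Tv
import Pool.Agent.Helper47K9.SC.Ubd
import Pool.Agent.Helper47K9.SC.Vl

set_option autoImplicit false

namespace Pool.Agent.Helper47K9.SC

theorem fmA : S_FM :=
  fm (main (duh pt) e1 (e2 (ubd (lig (duh pt))))) gr tail ball ck cnt tu tv

theorem lowA : S_LOW := low tail ball

end Pool.Agent.Helper47K9.SC
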