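import Pool.Agent.Helper47K9.SC.Stm

/-!
# Short cycles: simple facts
-/

set_option autoImplicit false

namespace Pool.Agent.Helper47K9.SC

open Finset Equiv Pool.Agent.Y998.ST

section geo

variable {d L : ℕ}

theorem tdist_comm (x y : Fin d → ZMod L) : tdist x y = tdist y x := by
  unfold tdist
  refine Finset.sum_congr rfl fun i _ => ?_
  have : y i - x i = -(x i - y i) := by ring
  rw [this, ZMod.natAbs_valMinAbs_neg]

theorem tdist_tri (x y z : Fin d → ZMod L) : tdist x z ≤ tdist x y + tdist y z := by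
  unfold tdist
  rw [← Finset.sum_add_distrib]
  refine Finset.sum_le_sum fun i _ => ?_
  have h : x i - z i = (x i - y i) + (y i - z i) := by ring
  rw [h]
  exact (ZMod.natAbs_valMinAbs_add_le _ _).trans (Int.natAbs_add_le _ _)

theorem tdist_self (x : Fin d → ZMod L) : tdist x x = 0 := by
  unfold tdist
  simp

end geo

theorem finRotate_val {n : ℕ} (a : Fin n) (h : (a : ℕ) + 1 < n) :
    ((finRotate n a : Fin n) : ℕ) = a + 1 := by
  cases n with
  | zero => exact a.elim0
  | succ n =>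
    have h2 : (a : ℕ) < n := by omega
    have h3 := finRotate_of_lt h2
    have h4 : a = ⟨(a : ℕ), h2.trans_le n.le_succ⟩ := rfl
    rw [h4, h3]

theorem rot_apply {C : Type} (l : C → ℕ) (c : C) (a : Fin (l c)) :
    rot l ⟨c, a⟩ = ⟨c, finRotate (l c) a⟩ := rfl

theorem path {C : Type} {l : C → ℕ} {d L : ℕ} [NeZero L] (x : Ix C l → Fin d → ZMod L) {r : ℝ}
    (h : ∀ k, (tdist (x k) (x (rot l k)) : ℝ) ≤ r) (c : C) :
    ∀ (n : ℕ) (a a' : Fin (l c)), (a' : ℕ) = a + n → (tdist (x ⟨c, a⟩) (x ⟨c, a'⟩) : ℝ) ≤ n * r := by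
  intro n
  induction n with
  | zero =>
    intro a a' haa
    have : a' = a := Fin.ext (by omega)
    rw [this, tdist_self]
    simp
  | succ n ih =>
    intro a a' haa
    have h1 : (a : ℕ) + n < l c := by have := a'.2; omega
    obtain ⟨b, hb⟩ : ∃ b : Fin (l c), b = ⟨a + n, h1⟩ := ⟨_, rfl⟩
    have hbv : (b : ℕ) = a + n := by rw [hb]
    have h2 : rot l ⟨c, b⟩ = ⟨c, a'⟩ := by
      rw [rot_apply]
      congr 1
      apply Fin.ext
      rw [finRotate_val b (by rw [hbv]; have := a'.2; omega), hbv]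
      omega
    have h3 := h ⟨c, b⟩
    rw [h2] at h3
    have h4 := ih a b hbv
    have h5 : (tdist (x ⟨c, a⟩) (x ⟨c, a'⟩) : ℝ) ≤ tdist (x ⟨c, a⟩) (x ⟨c, b⟩) +
        tdist (x ⟨c, b⟩) (x ⟨c, a'⟩) := by exact_mod_cast tdist_tri _ _ _
    push_cast
    linarith

theorem near_of_steps {C : Type} {l : C → ℕ} {d L : ℕ} [NeZero L] (x : Ix C l → Fin d → ZMod L)
    {r : ℝ} (hr : 0 ≤ r) (h : ∀ k, (tdist (x k) (x (rot l k)) : ℝ) ≤ r) (c : C)
    (a a' : Fin (l c)) : (tdist (x ⟨c, a⟩) (x ⟨c, a'⟩) : ℝ) ≤ l c * r := by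
  rcases le_total (a : ℕ) a' with h1 | h1
  · have h2 := path x h c ((a' : ℕ) - a) a a' (by omega)
    refine h2.trans (mul_le_mul_of_nonneg_right ?_ hr)
    have := a'.2
    exact_mod_cast (show (a' : ℕ) - a ≤ l c by omega)
  · have h2 := path x h c ((a : ℕ) - a') a' a (by omega)
    rw [tdist_comm]
    refine h2.trans (mul_le_mul_of_nonneg_right ?_ hr)
    have := a.2
    exact_mod_cast (show (a : ℕ) - a' ≤ l c by omega)

theorem card_torus (d L : ℕ) [NeZero L] : (Fintype.card (Fin d → ZMod L) : ℝ) = (L : ℝ) ^ d := by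
  rw [Fintype.card_fun, ZMod.card, Fintype.card_fin]
  push_cast
  rfl

theorem card_Ix {C : Type} [Fintype C] (l : C → ℕ) (hl : ∀ c, 1 ≤ l c) :
    Fintype.card (Ix C l) = ∑ c, (l c - 1) + Fintype.card C := by
  rw [Fintype.card_sigma, Fintype.card_eq_sum_ones, ← Finset.sum_add_distrib]
  refine Finset.sum_congr rfl fun c _ => ?_
  rw [Fintype.card_fin]
  have := hl c
  omega

theorem trace_torus {d L : ℕ} [NeZero L] (hL : 3 ≤ L) (t : ℝ) (n : ℕ) :
    ((qq (nnRate d L) t) ^ n).trace = (L : ℝ) ^ d * gk L (n * t) 0 ^ d := by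
  have h1 : (qq (nnRate d L) t) ^ n = qq (nnRate d L) (n * t) := by
    induction n with
    | zero => rw [pow_zero, Nat.cast_zero, zero_mul, qq_zero]
    | succ n ih =>
      rw [pow_succ, ih, ← qq_add nn_symm (nn_diag hL)]
      congr 1
      push_cast
      ring
  rw [h1, qq_eq_hk hL]
  have h2 : ∀ a : Fin d → ZMod L, hk d L (n * t) a a = gk L (n * t) 0 ^ d := by
    intro a
    unfold hk
    simp only [sub_self, Finset.prod_const, Finset.card_univ, Fintype.card_fin]
  unfold Matrix.trace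
  simp only [Matrix.diag_apply, h2]
  rw [Finset.sum_const, Finset.card_univ, nsmul_eq_mul, card_torus]

/-- The hypotheses hold on the torus. -/
theorem hyp_torus (hGR : S_GR) (d : ℕ) (hd : 1 ≤ d) : ∃ G : ℝ, 0 < G ∧ ∀ (L : ℕ) [NeZero L],
    3 ≤ L → ∀ t : ℝ, 2 ≤ t → Hyp (nnRate d L) (2 * d) G (4 ^ d * rr d L t) t := by
  obtain ⟨G, hG, h⟩ := hGR d hd
  refine ⟨G, hG, fun L _ hL t ht => ?_⟩
  obtain ⟨g1, g2⟩ := h L hL
  have hL0 : (0 : ℝ) < L := by exact_mod_cast (show 0 < L by omega)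
  have ht0 : 0 < t := by linarith
  have hst : 0 < Real.sqrt t := Real.sqrt_pos.2 ht0
  refine ⟨nn_nonneg, nn_symm, nn_diag hL, by positivity, hG.le, ?_, ht0.le, fun x =>
    (nn_row hL x).le, g1, g2, fun s hs a b => ?_⟩
  · unfold rr
    positivity
  · have hs0 : 0 < s := by linarith
    refine (qq_torus hL hs0 a b).trans ?_
    have h1 : 1 / Real.sqrt s ≤ 2 / Real.sqrt t := by
      rw [div_le_div_iff₀ (Real.sqrt_pos.2 hs0) hst, one_mul]
      have h2 : Real.sqrt t ≤ Real.sqrt (4 * s) := Real.sqrt_le_sqrt (by linarith)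
      rw [Real.sqrt_mul (by norm_num)] at h2
      have h3 : Real.sqrt 4 = 2 := by
        rw [show (4 : ℝ) = 2 ^ 2 by norm_num]
        exact Real.sqrt_sq (by norm_num)
      rw [h3] at h2
      exact h2
    have hx : 0 ≤ 1 / (L : ℝ) := by positivity
    have hy : 0 ≤ 1 / Real.sqrt t := by positivity
    obtain ⟨e, he⟩ : ∃ e, d = e + 1 := ⟨d - 1, by omega⟩
    calc (1 / (L : ℝ) + 1 / Real.sqrt s) ^ d
        ≤ (1 / (L : ℝ) + 2 / Real.sqrt t) ^ d := by
          refine pow_le_pow_left₀ ?_ (by linarith) _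
          have : 0 ≤ 1 / Real.sqrt s := by positivity
          linarith
      _ ≤ 2 ^ (d - 1) * ((1 / (L : ℝ)) ^ d + (2 / Real.sqrt t) ^ d) :=
          add_pow_le hx (by positivity) d
      _ ≤ 2 ^ d * (2 ^ d * (1 / (L : ℝ)) ^ d + 2 ^ d * (1 / Real.sqrt t) ^ d) := by
          have e1 : (2 / Real.sqrt t) ^ d = 2 ^ d * (1 / Real.sqrt t) ^ d := by
            rw [← mul_pow]; ring
          rw [e1]
          refine mul_le_mul (pow_le_pow_right₀ (by norm_num) (by omega)) ?_ (by positivity)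
            (by positivity)
          refine add_le_add ?_ le_rfl
          exact le_mul_of_one_le_left (by positivity) (one_le_pow₀ (by norm_num))
      _ = 4 ^ d * rr d L t := by
          unfold rr
          have e2 : (4 : ℝ) ^ d = 2 ^ d * 2 ^ d := by rw [← mul_pow]; norm_num
          rw [e2, one_div_pow, one_div_pow]
          ring

end Pool.Agent.Helper47K9.SC
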