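import Pool.Agent.Helper47K9.SC.One

/-!
# Short cycles: asymptotics of the first and second moment for `1 ≪ t ≪ L²`
-/

set_option autoImplicit false

namespace Pool.Agent.Helper47K9.SC

open Finset Equiv Pool.Agent.Y998.ST

theorem exp_aff {V : Type} [Fintype V] [DecidableEq V] (J : V → V → ℝ) (t a c : ℝ)
    (F : Perm V → ℝ) : stirExp J t (fun g => a * F g + c) = a * stirExp J t F + c := by
  have hc := exp_const J t c
  have h : stirExp J t (fun g => a * F g + c) = a * stirExp J t F + stirExp J t (fun _ => c) := by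
    unfold stirExp
    rw [Finset.mul_sum, ← Finset.sum_add_distrib]
    refine Finset.sum_congr rfl fun g _ => ?_
    ring
  rw [h, hc]

/-- Powers of the logarithm are negligible. -/
theorem log_small (K : ℕ) (ε : ℝ) (hε : 0 < ε) : ∃ T : ℝ, 2 ≤ T ∧ ∀ t : ℝ, T ≤ t →
    Real.log t ^ K ≤ ε * Real.sqrt t := by
  have h1 := (Real.isLittleO_pow_log_id_atTop (n := K)).def (c := ε / 2 ^ K) (by positivity)
  have h2 := Real.tendsto_sqrt_atTop.eventually h1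
  obtain ⟨T, hT⟩ := Filter.eventually_atTop.1 h2
  refine ⟨max 2 T, le_max_left _ _, fun t ht => ?_⟩
  have ht2 : 2 ≤ t := (le_max_left _ _).trans ht
  have h3 := hT t ((le_max_right _ _).trans ht)
  have hl : 0 ≤ Real.log (Real.sqrt t) := by
    refine Real.log_nonneg ?_
    rw [show (1 : ℝ) = Real.sqrt 1 by simp]
    exact Real.sqrt_le_sqrt (by linarith)
  rw [Real.norm_of_nonneg (by positivity), id, Real.norm_of_nonneg (Real.sqrt_nonneg _),
    Real.log_sqrt (by linarith), div_pow, div_le_iff₀ (by positivity)] at h3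
  calc Real.log t ^ K ≤ ε / 2 ^ K * Real.sqrt t * 2 ^ K := h3
    _ = ε * Real.sqrt t := by field_simp

/-- `(4 π s)^(d/2)` times the return probability. -/
theorem ret_asy (hAS : S_AS1) (d : ℕ) (hd : 1 ≤ d) (ℓ : ℕ) (hℓ : 1 ≤ ℓ) (ε : ℝ) (hε : 0 < ε) :
    ∃ T : ℝ, 0 < T ∧ ∀ (L : ℕ) [NeZero L], 3 ≤ L → ∀ t : ℝ, T ≤ t → T * t ≤ (L : ℝ) ^ 2 →
    |gk L (ℓ * t) 0 ^ d * Real.sqrt (4 * Real.pi * (ℓ * t)) ^ d - 1| ≤ ε := by
  obtain ⟨η, hη0, hη⟩ : ∃ η : ℝ, 0 < η ∧ ∀ x : ℝ, |x - 1| ≤ η → |x ^ d - 1| ≤ ε := by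
    have hc : ContinuousAt (fun x : ℝ => x ^ d) 1 := (continuous_pow d).continuousAt
    obtain ⟨δ, hδ, h⟩ := Metric.continuousAt_iff.1 hc ε hε
    refine ⟨δ / 2, by positivity, fun x hx => ?_⟩
    have h1 := h (x := x) (by rw [Real.dist_eq]; linarith)
    rw [Real.dist_eq, one_pow] at h1
    exact h1.le
  obtain ⟨T, hT0, hT⟩ := hAS η hη0
  have hℓr : (1 : ℝ) ≤ ℓ := by exact_mod_cast hℓ
  refine ⟨T * ℓ, by positivity, fun L _ hL t ht htL => ?_⟩
  have ht0 : 0 < t := lt_of_lt_of_le (by positivity) ht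
  rw [← mul_pow]
  refine hη _ (hT L (ℓ * t) ?_ ?_)
  · have h1 : T ≤ T * ℓ := le_mul_of_one_le_right hT0.le hℓr
    have h2 : t ≤ ℓ * t := le_mul_of_one_le_left ht0.le hℓr
    linarith
  · calc T * (ℓ * t) = T * ℓ * t := by ring
      _ ≤ _ := htL

/-- The laws of large numbers. -/
theorem lln (hFM : S_FM) (hTUP : S_TUP) (hVL : S_VL) (hAS : S_AS1) (d : ℕ) (hd : 1 ≤ d) (ℓ : ℕ)
    (hℓ : 1 ≤ ℓ) (ε : ℝ) (hε : 0 < ε) : ∃ T : ℝ, 2 ≤ T ∧ ∀ (L : ℕ) [NeZero L], 3 ≤ L →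
    ∀ t : ℝ, T ≤ t → T * t ≤ (L : ℝ) ^ 2 → ∀ v : Fin d → ZMod L,
    |Real.sqrt (4 * Real.pi * (ℓ * t)) ^ d *
      stirExp (nnRate d L) t (fun g => if cycleLen g v = ℓ then 1 else 0) - 1| ≤ ε ∧
    stirExp (nnRate d L) t (fun g =>
      (ℓ * Real.sqrt (4 * Real.pi * (ℓ * t)) ^ d / (L : ℝ) ^ d * (numLen g ℓ : ℝ) - 1) ^ 2) ≤ ε := by
  obtain ⟨A, K, hA, h⟩ := one_main hFM hTUP hVL d hd ℓ hℓ
  have hℓr : (1 : ℝ) ≤ ℓ := by exact_mod_cast hℓ
  have hpi := Real.pi_pos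
  obtain ⟨B, hB⟩ : ∃ B : ℝ, B = Real.sqrt (4 * Real.pi * ℓ) ^ d := ⟨_, rfl⟩
  have hB0 : 0 < B := by rw [hB]; positivity
  obtain ⟨ε', hε', hε1, hε2⟩ : ∃ ε' : ℝ, 0 < ε' ∧ 2 * ε' ≤ ε ∧ ε' ≤ 1 / 2 ∧ 0 < ε' := by
    refine ⟨min (ε / 2) (1 / 2), by positivity, ?_, min_le_right _ _, by positivity⟩
    have := min_le_left (ε / 2) (1 / 2)
    linarith
  obtain ⟨T1, hT1, h1⟩ := ret_asy hAS d hd ℓ hℓ (min ε' (ε / 64)) (by positivity)
  -- the size of the error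
  obtain ⟨T2, hT2, h2⟩ := log_small K (min (ε' / (4 * A * B)) (ε / (64 * A * ℓ ^ 2 * B ^ 2)))
    (by positivity)
  obtain ⟨T3, hT3⟩ : ∃ T3 : ℝ, T3 = (64 * ℓ * B / ε) ^ 2 + 1 := ⟨_, rfl⟩
  have hT31 : 1 ≤ T3 := by rw [hT3]; have := sq_nonneg (64 * ℓ * B / ε); linarith
  refine ⟨max (max T1 T2) T3, (hT2.trans (le_max_right _ _)).trans (le_max_left _ _), ?_⟩
  intro L _ hL t ht htL v
  have htT1 : T1 ≤ t := ((le_max_left _ _).trans (le_max_left _ _)).trans ht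
  have htT2 : T2 ≤ t := ((le_max_right _ _).trans (le_max_left _ _)).trans ht
  have ht2 : 2 ≤ t := hT2.trans htT2
  have ht0 : 0 < t := by linarith
  have hs0 : 0 < Real.sqrt t := Real.sqrt_pos.2 ht0
  have hs1 : 1 ≤ Real.sqrt t := by
    rw [show (1 : ℝ) = Real.sqrt 1 by simp]
    exact Real.sqrt_le_sqrt (by linarith)
  have hL0 : (0 : ℝ) < L := by exact_mod_cast (show 0 < L by omega)
  have hTL1 : T1 * t ≤ (L : ℝ) ^ 2 := by
    refine le_trans ?_ htL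
    exact mul_le_mul_of_nonneg_right ((le_max_left _ _).trans (le_max_left _ _)) ht0.le
  have hTL3 : T3 * t ≤ (L : ℝ) ^ 2 := by
    refine le_trans ?_ htL
    exact mul_le_mul_of_nonneg_right (le_max_right _ _) ht0.le
  have hsL : Real.sqrt t ≤ L := by
    rw [Real.sqrt_le_left hL0.le]
    nlinarith
  obtain ⟨n, hn⟩ : ∃ n : ℝ, n = (L : ℝ) ^ d := ⟨_, rfl⟩
  obtain ⟨σ, hσ⟩ : ∃ σ : ℝ, σ = Real.sqrt t ^ d := ⟨_, rfl⟩
  have hn0 : 0 < n := by rw [hn]; positivity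
  have hσ0 : 0 < σ := by rw [hσ]; positivity
  have hσn : σ ≤ n := by rw [hσ, hn]; exact pow_le_pow_left₀ hs0.le hsL d
  obtain ⟨ρ, hρ⟩ : ∃ ρ : ℝ, ρ = rr d L t := ⟨_, rfl⟩
  have hρ0 : 0 < ρ := by rw [hρ]; exact rr_pos hL ht2
  have hρ2 : ρ ≤ 2 / σ := by
    have h3 : ρ = 1 / n + 1 / σ := by rw [hρ, hn, hσ]; rfl
    have h4 : 1 / n ≤ 1 / σ := one_div_le_one_div_of_le hσ0 hσn
    rw [h3]
    calc 1 / n + 1 / σ ≤ 1 / σ + 1 / σ := by linarith
      _ = 2 / σ := by ring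
  have hσt : Real.sqrt t ≤ σ := by
    rw [hσ]
    calc Real.sqrt t = Real.sqrt t ^ 1 := (pow_one _).symm
      _ ≤ Real.sqrt t ^ d := pow_le_pow_right₀ hs1 hd
  have hS : Real.sqrt (4 * Real.pi * (ℓ * t)) ^ d = B * σ := by
    rw [hB, hσ, ← mul_pow, ← Real.sqrt_mul (by positivity)]
    congr 2
    ring
  rw [hS]
  obtain ⟨p, hp⟩ : ∃ p : ℝ, p = gk L (ℓ * t) 0 ^ d := ⟨_, rfl⟩
  have h3 := h1 L hL t htT1 hTL1
  rw [hS, ← hp] at h3
  have h3a : |p * (B * σ) - 1| ≤ ε' := h3.trans (min_le_left _ _)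
  have h3b : |p * (B * σ) - 1| ≤ ε / 64 := h3.trans (min_le_right _ _)
  obtain ⟨h4, h5⟩ := h L hL t ht2 v
  rw [hop_diag hL, ← hp, ← hρ] at h4
  rw [hop_diag hL, ← hp, ← hρ, ← hn] at h5
  have h6 := h2 t htT2
  have h6a : Real.log t ^ K ≤ ε' / (4 * A * B) * Real.sqrt t :=
    h6.trans (mul_le_mul_of_nonneg_right (min_le_left _ _) hs0.le)
  have h6b : Real.log t ^ K ≤ ε / (64 * A * ℓ ^ 2 * B ^ 2) * Real.sqrt t :=
    h6.trans (mul_le_mul_of_nonneg_right (min_le_right _ _) hs0.le)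
  have hlog : 0 < Real.log t := by have := two_log ht2; linarith
  constructor
  · obtain ⟨P, hP⟩ : ∃ P : ℝ, P = stirExp (nnRate d L) t
      (fun g => if cycleLen g v = ℓ then 1 else 0) := ⟨_, rfl⟩
    rw [← hP] at h4 ⊢
    have e1 : B * σ * P - 1 = B * σ * (P - p) + (p * (B * σ) - 1) := by ring
    rw [e1]
    refine (abs_add_le _ _).trans ?_
    rw [abs_mul, abs_of_pos (by positivity : 0 < B * σ)]
    have h7 : B * σ * |P - p| ≤ ε' := by
      calc B * σ * |P - p| ≤ B * σ * (A * Real.log t ^ K * ρ ^ 2) :=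
            mul_le_mul_of_nonneg_left h4 (by positivity)
        _ ≤ B * σ * (A * (ε' / (4 * A * B) * Real.sqrt t) * (2 / σ) ^ 2) := by gcongr
        _ = ε' * (Real.sqrt t / σ) := by field_simp; norm_num
        _ ≤ ε' * 1 := by
            refine mul_le_mul_of_nonneg_left ?_ hε'.le
            rw [div_le_one hσ0]
            exact hσt
        _ = ε' := mul_one _
    linarith
  · obtain ⟨lam, hlam⟩ : ∃ lam : ℝ, lam = n * p / ℓ := ⟨_, rfl⟩
    rw [← hlam] at h5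
    obtain ⟨κ, hκ⟩ : ∃ κ : ℝ, κ = ℓ * (B * σ) / n := ⟨_, rfl⟩
    have hκ0 : 0 < κ := by rw [hκ]; positivity
    rw [← hn, ← hκ]
    have e0 : κ * lam = p * (B * σ) := by rw [hκ, hlam]; field_simp
    have e1 : ∀ g : Perm (Fin d → ZMod L), (κ * (numLen g ℓ : ℝ) - 1) ^ 2 ≤
        2 * κ ^ 2 * ((numLen g ℓ : ℝ) - lam) ^ 2 + 2 * (p * (B * σ) - 1) ^ 2 := by
      intro g
      rw [← e0]
      nlinarith [sq_nonneg (κ * ((numLen g ℓ : ℝ) - lam) - (κ * lam - 1))]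
    have e2 : stirExp (nnRate d L) t (fun g => (κ * (numLen g ℓ : ℝ) - 1) ^ 2) ≤
        2 * κ ^ 2 * stirExp (nnRate d L) t (fun g => ((numLen g ℓ : ℝ) - lam) ^ 2) +
        2 * (p * (B * σ) - 1) ^ 2 := by
      refine (exp_mono nn_nonneg ht0.le e1).trans (le_of_eq ?_)
      exact exp_aff (nnRate d L) t _ _ _
    refine e2.trans ?_
    have h7 := (abs_le.1 h5).2
    -- the mean
    have h8 : κ * lam ≤ 2 := by
      rw [e0]
      have := (abs_le.1 h3a).2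
      linarith
    have h9 : κ ≤ ε / 64 * 1 := by
      -- κ = ℓ B σ / n ≤ ℓ B √t / L
      have k1 : σ / n ≤ Real.sqrt t / L := by
        have k2 : σ / n = (Real.sqrt t / L) ^ d := by rw [hσ, hn, div_pow]
        rw [k2]
        have k3 : Real.sqrt t / L ≤ 1 := by rw [div_le_one hL0]; exact hsL
        calc (Real.sqrt t / L) ^ d ≤ (Real.sqrt t / L) ^ 1 :=
              pow_le_pow_of_le_one (by positivity) k3 hd
          _ = _ := pow_one _
      have k4 : 64 * ℓ * B / ε * Real.sqrt t ≤ L := by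
        have k5 : (64 * ℓ * B / ε * Real.sqrt t) ^ 2 ≤ (L : ℝ) ^ 2 := by
          rw [mul_pow, Real.sq_sqrt ht0.le]
          refine le_trans ?_ hTL3
          refine mul_le_mul_of_nonneg_right ?_ ht0.le
          rw [hT3]
          linarith
        exact (sq_le_sq₀ (by positivity) hL0.le).1 k5
      have k6 : κ = ℓ * B * (σ / n) := by rw [hκ]; ring
      rw [k6]
      calc ℓ * B * (σ / n) ≤ ℓ * B * (Real.sqrt t / L) := by gcongr
        _ = (64 * ℓ * B / ε * Real.sqrt t) / L * (ε / 64) := by field_simp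
        _ ≤ 1 * (ε / 64) := by
            refine mul_le_mul_of_nonneg_right ?_ (by positivity)
            rw [div_le_one hL0]
            exact k4
        _ = _ := by ring
    have h10 : κ ^ 2 * (A * Real.log t ^ K * ρ * (n * ρ) ^ 2) ≤ ε / 8 := by
      calc κ ^ 2 * (A * Real.log t ^ K * ρ * (n * ρ) ^ 2)
          ≤ κ ^ 2 * (A * (ε / (64 * A * ℓ ^ 2 * B ^ 2) * Real.sqrt t) * (2 / σ) *
            (n * (2 / σ)) ^ 2) := by gcongr
        _ = ε / 8 * (Real.sqrt t / σ) := by rw [hκ]; field_simp; norm_num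
        _ ≤ ε / 8 * 1 := by
            refine mul_le_mul_of_nonneg_left ?_ (by positivity)
            rw [div_le_one hσ0]
            exact hσt
        _ = ε / 8 := mul_one _
    have h11 : κ ^ 2 * stirExp (nnRate d L) t (fun g => ((numLen g ℓ : ℝ) - lam) ^ 2) ≤
        κ * (κ * lam) + κ ^ 2 * (A * Real.log t ^ K * ρ * (n * ρ) ^ 2) := by
      have := mul_le_mul_of_nonneg_left (sub_le_iff_le_add.1 h7) (sq_nonneg κ)
      linarith
    have h12 : κ * (κ * lam) ≤ ε / 32 := by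
      have k0 : 0 ≤ κ * lam := by
        rw [e0]
        have := (abs_le.1 h3a).1
        linarith
      calc κ * (κ * lam) ≤ (ε / 64 * 1) * 2 := mul_le_mul h9 h8 k0 (by positivity)
        _ = ε / 32 := by ring
    have h13 : (p * (B * σ) - 1) ^ 2 ≤ ε / 64 := by
      have k1 : |p * (B * σ) - 1| ≤ 1 := h3a.trans (by linarith)
      rw [← sq_abs]
      nlinarith [abs_nonneg (p * (B * σ) - 1)]
    linarith

end Pool.Agent.Helper47K9.SC
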