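import Pool.Agent.Helper47K9.SC.Geo

/-!
# Short cycles: factorial moments of the numbers of cycles
-/

set_option autoImplicit false

namespace Pool.Agent.Helper47K9.SC

open Finset Equiv Pool.Agent.Y998.ST

open Classical in
/-- Mixed factorial moments of the numbers of cycles. -/
theorem fmom (hFM : S_FM) (hTUP : S_TUP) (d : ℕ) (hd : 1 ≤ d) (k : ℕ) (a : Fin k → ℕ) :
    ∃ (A : ℝ) (K : ℕ), 0 < A ∧ ∀ (L : ℕ) [NeZero L], 3 ≤ L → ∀ t : ℝ, 2 ≤ t →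
    |(∏ s : Fin k, (((s : ℕ) + 1 : ℕ) : ℝ) ^ a s) * stirExp (nnRate d L) t (fun g =>
      ∏ s : Fin k, ((numLen g ((s : ℕ) + 1)).descFactorial (a s) : ℝ)) -
      ∏ s : Fin k, ((L : ℝ) ^ d * gk L ((((s : ℕ) + 1 : ℕ) : ℝ) * t) 0 ^ d) ^ a s| ≤
    A * Real.log t ^ K * rr d L t * ((L : ℝ) ^ d * rr d L t) ^ (∑ s, a s) := by
  obtain ⟨A, K, hA, h⟩ := hFM d hd ((s : Fin k) × Fin (a s)) (fun c => (c.1 : ℕ) + 1)
    (fun c => by omega)
  refine ⟨A, K, hA, fun L _ hL t ht => ?_⟩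
  have h1 := h L hL t ht
  have e1 : ∑ x : Ix ((s : Fin k) × Fin (a s)) (fun c : (s : Fin k) × Fin (a s) => (c.1 : ℕ) + 1) → Fin d → ZMod L with
      Function.Injective x, US (nnRate d L) t x (fun i => x (rot (fun c : (s : Fin k) × Fin (a s) => (c.1 : ℕ) + 1) i)) =
      (∏ s : Fin k, (((s : ℕ) + 1 : ℕ) : ℝ) ^ a s) * stirExp (nnRate d L) t (fun g =>
      ∏ s : Fin k, ((numLen g ((s : ℕ) + 1)).descFactorial (a s) : ℝ)) := by
    unfold US
    rw [exp_sum]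
    unfold stirExp
    rw [Finset.mul_sum]
    refine Finset.sum_congr rfl fun g _ => ?_
    have h2 := hTUP (Fin d → ZMod L) g k a
    have h3 : ∑ x : Ix ((s : Fin k) × Fin (a s)) (fun c : (s : Fin k) × Fin (a s) => (c.1 : ℕ) + 1) → Fin d → ZMod L with
      Function.Injective x, (if ∀ i, g (x i) = x (rot (fun c : (s : Fin k) × Fin (a s) => (c.1 : ℕ) + 1) i) then (1 : ℝ)
        else 0) = (∏ s : Fin k, (((s : ℕ) + 1 : ℕ) : ℝ) ^ a s) *
        ∏ s : Fin k, ((numLen g ((s : ℕ) + 1)).descFactorial (a s) : ℝ) := by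
      rw [← Finset.prod_mul_distrib]
      have h4 : ((∏ s : Fin k, (((s : ℕ) + 1) ^ a s *
          (numLen g ((s : ℕ) + 1)).descFactorial (a s)) : ℕ) : ℝ) =
          ∏ s : Fin k, ((((s : ℕ) + 1 : ℕ) : ℝ) ^ a s *
          ((numLen g ((s : ℕ) + 1)).descFactorial (a s) : ℝ)) := by
        push_cast
        rfl
      rw [← h4, ← h2, Finset.sum_ite, Finset.sum_const_zero, add_zero, Finset.sum_const,
        nsmul_eq_mul, mul_one, Finset.filter_filter]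
    rw [mul_left_comm, ← h3]
  have e2 : ∏ c : (s : Fin k) × Fin (a s), ((L : ℝ) ^ d *
      gk L ((((c.1 : ℕ) + 1 : ℕ) : ℝ) * t) 0 ^ d) =
      ∏ s : Fin k, ((L : ℝ) ^ d * gk L ((((s : ℕ) + 1 : ℕ) : ℝ) * t) 0 ^ d) ^ a s := by
    rw [Fintype.prod_sigma]
    refine Finset.prod_congr rfl fun s _ => ?_
    simp only [Finset.prod_const, Finset.card_univ, Fintype.card_fin]
  have e3 : Fintype.card ((s : Fin k) × Fin (a s)) = ∑ s, a s := by
    rw [Fintype.card_sigma]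
    simp
  rw [← e1, ← e2, ← e3]
  exact h1

/-- One length. -/
theorem fmom_one (hFM : S_FM) (hTUP : S_TUP) (d : ℕ) (hd : 1 ≤ d) (ℓ : ℕ) (hℓ : 1 ≤ ℓ) (m : ℕ) :
    ∃ (A : ℝ) (K : ℕ), 0 < A ∧ ∀ (L : ℕ) [NeZero L], 3 ≤ L → ∀ t : ℝ, 2 ≤ t →
    |(ℓ : ℝ) ^ m * stirExp (nnRate d L) t (fun g => ((numLen g ℓ).descFactorial m : ℝ)) -
      ((L : ℝ) ^ d * gk L (ℓ * t) 0 ^ d) ^ m| ≤
    A * Real.log t ^ K * rr d L t * ((L : ℝ) ^ d * rr d L t) ^ m := by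
  classical
  obtain ⟨s0, hs0⟩ : ∃ s0 : Fin ℓ, (s0 : ℕ) + 1 = ℓ := ⟨⟨ℓ - 1, by omega⟩, by simp; omega⟩
  obtain ⟨A, K, hA, h⟩ := fmom hFM hTUP d hd ℓ (fun s => if s = s0 then m else 0)
  refine ⟨A, K, hA, fun L _ hL t ht => ?_⟩
  have h1 := h L hL t ht
  have e1 : ∏ s : Fin ℓ, (((s : ℕ) + 1 : ℕ) : ℝ) ^ (if s = s0 then m else 0) = (ℓ : ℝ) ^ m := by
    rw [Finset.prod_eq_single s0]
    · rw [if_pos rfl, hs0]
    · intro s _ hs; rw [if_neg hs, pow_zero]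
    · intro h; exact absurd (Finset.mem_univ _) h
  have e2 : ∀ g : Perm (Fin d → ZMod L), ∏ s : Fin ℓ,
      ((numLen g ((s : ℕ) + 1)).descFactorial (if s = s0 then m else 0) : ℝ) =
      ((numLen g ℓ).descFactorial m : ℝ) := by
    intro g
    rw [Finset.prod_eq_single s0]
    · rw [if_pos rfl, hs0]
    · intro s _ hs; rw [if_neg hs, Nat.descFactorial_zero, Nat.cast_one]
    · intro h; exact absurd (Finset.mem_univ _) h
  have e3 : ∏ s : Fin ℓ, ((L : ℝ) ^ d * gk L ((((s : ℕ) + 1 : ℕ) : ℝ) * t) 0 ^ d) ^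
      (if s = s0 then m else 0) = ((L : ℝ) ^ d * gk L (ℓ * t) 0 ^ d) ^ m := by
    rw [Finset.prod_eq_single s0]
    · rw [if_pos rfl, hs0]
    · intro s _ hs; rw [if_neg hs, pow_zero]
    · intro h; exact absurd (Finset.mem_univ _) h
  have e4 : ∑ s : Fin ℓ, (if s = s0 then m else 0) = m := by
    rw [Finset.sum_ite_eq' Finset.univ s0, if_pos (Finset.mem_univ _)]
  simp only [e1, e2, e3, e4] at h1
  exact h1

end Pool.Agent.Helper47K9.SC
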