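import Pool.Agent.Helper47K9.SC.Mom
import Pool.Agent.Y998.CN.Tor

/-!
# Short cycles: one length, first and second moment
-/

set_option autoImplicit false

namespace Pool.Agent.Helper47K9.SC

open Finset Equiv Pool.Agent.Y998.ST

section gen

variable {d L : ℕ} [NeZero L]

theorem hop_diag (hL : 3 ≤ L) (s : ℝ) (v : Fin d → ZMod L) :
    hop (nnRate d L) s v v = gk L s 0 ^ d := by
  have h1 : hop (nnRate d L) s v v = qq (nnRate d L) s v v := rfl
  rw [h1, qq_eq_hk hL]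
  unfold hk
  simp only [sub_self, Finset.prod_const, Finset.card_univ, Fintype.card_fin]

theorem trans_inv (w x y : Fin d → ZMod L) :
    nnRate d L (Equiv.addRight w x) (Equiv.addRight w y) = nnRate d L x y := by
  have h : ∀ (x y : Fin d → ZMod L) (i : Fin d), y + w = Function.update (x + w) i ((x + w) i + 1) ↔
      y = Function.update x i (x i + 1) := by
    intro x y i
    constructor
    · intro h
      funext j
      have h1 := congrFun h j
      by_cases hj : j = i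
      · subst hj
        rw [Function.update_self] at h1 ⊢
        simp only [Pi.add_apply] at h1
        linear_combination h1
      · rw [Function.update_of_ne hj] at h1 ⊢
        simpa using h1
    · intro h
      funext j
      by_cases hj : j = i
      · subst hj
        rw [Function.update_self, h]
        simp only [Pi.add_apply, Function.update_self]
        ring
      · rw [Function.update_of_ne hj, h]
        simp only [Pi.add_apply, Function.update_of_ne hj]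
  unfold nnRate
  simp only [Equiv.coe_addRight, h]

theorem cycleLen_conj {V : Type} [Fintype V] [DecidableEq V] (σ g : Perm V) (v : V) :
    cycleLen (σ * g * σ⁻¹) (σ v) = cycleLen g v := by
  unfold cycleLen
  refine Nat.card_congr ?_
  refine (σ.symm.subtypeEquiv fun w => ?_)
  have h := Pool.Agent.Y998.CN.same_conj σ g v (σ.symm w)
  rw [Equiv.apply_symm_apply] at h
  exact h

/-- The length of the cycle of `v` has the same law for all `v`. -/
theorem len_inv (t : ℝ) (F : ℕ → ℝ) (v w : Fin d → ZMod L) :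
    stirExp (nnRate d L) t (fun g => F (cycleLen g v)) =
    stirExp (nnRate d L) t (fun g => F (cycleLen g w)) := by
  obtain ⟨σ, hσ⟩ : ∃ σ : Perm (Fin d → ZMod L), σ = Equiv.addRight (w - v) := ⟨_, rfl⟩
  have hσv : σ v = w := by rw [hσ]; simp
  have hJ : ∀ x y, nnRate d L (σ x) (σ y) = nnRate d L x y := by
    intro x y; rw [hσ]; exact trans_inv _ x y
  unfold stirExp
  rw [← Equiv.sum_comp (MulAut.conj σ).toEquiv (fun g => stirLaw (nnRate d L) t g *
    F (cycleLen g w))]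
  refine Finset.sum_congr rfl fun g _ => ?_
  have e1 : (MulAut.conj σ).toEquiv g = σ * g * σ⁻¹ := rfl
  rw [e1, Pool.Agent.Y998.CN.law_conj σ hJ, ← hσv, cycleLen_conj]

theorem prob_len (hVL : S_VL) (t : ℝ) (ℓ : ℕ) (hℓ : 1 ≤ ℓ) (v : Fin d → ZMod L) :
    (L : ℝ) ^ d * stirExp (nnRate d L) t (fun g => if cycleLen g v = ℓ then 1 else 0) =
    ℓ * stirExp (nnRate d L) t (fun g => (numLen g ℓ : ℝ)) := by
  classical
  have h1 : ∀ w : Fin d → ZMod L,
      stirExp (nnRate d L) t (fun g => if cycleLen g w = ℓ then (1 : ℝ) else 0) =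
      stirExp (nnRate d L) t (fun g => if cycleLen g v = ℓ then 1 else 0) := fun w =>
    len_inv t (fun m => if m = ℓ then 1 else 0) w v
  have h2 : ∑ w : Fin d → ZMod L,
      stirExp (nnRate d L) t (fun g => if cycleLen g w = ℓ then (1 : ℝ) else 0) =
      (L : ℝ) ^ d * stirExp (nnRate d L) t (fun g => if cycleLen g v = ℓ then 1 else 0) := by
    rw [Finset.sum_congr rfl fun w _ => h1 w, Finset.sum_const, Finset.card_univ, nsmul_eq_mul,
      card_torus]
  rw [← h2, exp_sum]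
  unfold stirExp
  rw [Finset.mul_sum]
  refine Finset.sum_congr rfl fun g _ => ?_
  have h3 : ∑ w : Fin d → ZMod L, (if cycleLen g w = ℓ then (1 : ℝ) else 0) = ℓ * numLen g ℓ := by
    rw [Finset.sum_ite, Finset.sum_const_zero, add_zero, Finset.sum_const, nsmul_eq_mul, mul_one]
    have h4 := hVL (Fin d → ZMod L) g ℓ hℓ
    have h5 : (univ.filter fun w : Fin d → ZMod L => cycleLen g w = ℓ).card = ℓ * numLen g ℓ := by
      convert h4
    exact_mod_cast h5
  beta_reduce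
  rw [h3]
  ring

end gen

theorem two_log {t : ℝ} (ht : 2 ≤ t) : 1 ≤ 2 * Real.log t := by
  have h1 := Real.log_two_gt_d9
  have h2 : Real.log 2 ≤ Real.log t := Real.log_le_log (by norm_num) ht
  linarith

theorem log_unify {t : ℝ} (ht : 2 ≤ t) (K K' : ℕ) :
    Real.log t ^ K ≤ 2 ^ (K + K') * Real.log t ^ (K + K') := by
  have h := two_log ht
  have hl : 0 < Real.log t := by linarith
  rw [← mul_pow]
  calc Real.log t ^ K ≤ (2 * Real.log t) ^ K := pow_le_pow_left₀ hl.le (by linarith) K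
    _ ≤ (2 * Real.log t) ^ (K + K') := pow_le_pow_right₀ h (by omega)

theorem rr_pos {d L : ℕ} (hL : 3 ≤ L) {t : ℝ} (ht : 2 ≤ t) : 0 < rr d L t := by
  have hL0 : (0 : ℝ) < L := by exact_mod_cast (show 0 < L by omega)
  have : 0 < Real.sqrt t := Real.sqrt_pos.2 (by linarith)
  unfold rr
  positivity

theorem n_rr {d L : ℕ} (hL : 3 ≤ L) {t : ℝ} (ht : 2 ≤ t) : 1 ≤ (L : ℝ) ^ d * rr d L t := by
  have hL0 : (0 : ℝ) < L := by exact_mod_cast (show 0 < L by omega)
  have : 0 < Real.sqrt t := Real.sqrt_pos.2 (by linarith)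
  unfold rr
  rw [mul_add, mul_one_div_cancel (by positivity)]
  have : 0 ≤ (L : ℝ) ^ d * (1 / Real.sqrt t ^ d) := by positivity
  linarith

theorem gk_rr {d L : ℕ} [NeZero L] (hL : 3 ≤ L) {t s : ℝ} (ht : 2 ≤ t) (hs : t ≤ s) :
    0 ≤ gk L s 0 ^ d ∧ gk L s 0 ^ d ≤ 2 ^ d * rr d L t := by
  have hL0 : (0 : ℝ) < L := by exact_mod_cast (show 0 < L by omega)
  have hs0 : 0 < s := by linarith
  have ht0 : 0 < t := by linarith
  have hg : 0 ≤ gk L s 0 := (abs_nonneg _).trans (gk_abs s 0)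
  refine ⟨by positivity, ?_⟩
  have h1 : gk L s 0 ≤ 1 / L + 1 / Real.sqrt t := by
    refine (gk_le hs0).trans (add_le_add le_rfl ?_)
    exact one_div_le_one_div_of_le (Real.sqrt_pos.2 ht0) (Real.sqrt_le_sqrt hs)
  have hst : 0 < Real.sqrt t := Real.sqrt_pos.2 ht0
  calc gk L s 0 ^ d ≤ (1 / L + 1 / Real.sqrt t) ^ d := pow_le_pow_left₀ hg h1 d
    _ ≤ 2 ^ (d - 1) * ((1 / (L : ℝ)) ^ d + (1 / Real.sqrt t) ^ d) :=
        add_pow_le (by positivity) (by positivity) d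
    _ ≤ 2 ^ d * ((1 / (L : ℝ)) ^ d + (1 / Real.sqrt t) ^ d) :=
        mul_le_mul_of_nonneg_right (pow_le_pow_right₀ (by norm_num) (by omega)) (by positivity)
    _ = 2 ^ d * rr d L t := by unfold rr; rw [one_div_pow, one_div_pow]

/-- First and second moment. -/
theorem one_main (hFM : S_FM) (hTUP : S_TUP) (hVL : S_VL) (d : ℕ) (hd : 1 ≤ d) (ℓ : ℕ)
    (hℓ : 1 ≤ ℓ) : ∃ (A : ℝ) (K : ℕ), 0 < A ∧ ∀ (L : ℕ) [NeZero L], 3 ≤ L → ∀ t : ℝ, 2 ≤ t →
    ∀ v : Fin d → ZMod L,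
    |stirExp (nnRate d L) t (fun g => if cycleLen g v = ℓ then 1 else 0) -
      hop (nnRate d L) (ℓ * t) v v| ≤ A * Real.log t ^ K * rr d L t ^ 2 ∧
    |stirExp (nnRate d L) t (fun g =>
        ((numLen g ℓ : ℝ) - (L : ℝ) ^ d * hop (nnRate d L) (ℓ * t) v v / ℓ) ^ 2) -
      (L : ℝ) ^ d * hop (nnRate d L) (ℓ * t) v v / ℓ| ≤
      A * Real.log t ^ K * rr d L t * ((L : ℝ) ^ d * rr d L t) ^ 2 := by
  obtain ⟨A1, K1, hA1, h1⟩ := fmom_one hFM hTUP d hd ℓ hℓ 1
  obtain ⟨A2, K2, hA2, h2⟩ := fmom_one hFM hTUP d hd ℓ hℓ 2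
  have hℓr : (1 : ℝ) ≤ ℓ := by exact_mod_cast hℓ
  refine ⟨(A1 * (3 + 2 * 2 ^ d) + A2) * 2 ^ (K1 + K2), K1 + K2, by positivity, ?_⟩
  intro L _ hL t ht v
  have hL0 : (0 : ℝ) < L := by exact_mod_cast (show 0 < L by omega)
  obtain ⟨n, hn⟩ : ∃ n : ℝ, n = (L : ℝ) ^ d := ⟨_, rfl⟩
  obtain ⟨ρ, hρ⟩ : ∃ ρ : ℝ, ρ = rr d L t := ⟨_, rfl⟩
  obtain ⟨p, hp⟩ : ∃ p : ℝ, p = gk L (ℓ * t) 0 ^ d := ⟨_, rfl⟩
  obtain ⟨x, hx⟩ : ∃ x : ℝ, x = Real.log t ^ (K1 + K2) * 2 ^ (K1 + K2) := ⟨_, rfl⟩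
  have hn0 : 0 < n := by rw [hn]; positivity
  have hρ0 : 0 < ρ := by rw [hρ]; exact rr_pos hL ht
  have hnρ : 1 ≤ n * ρ := by rw [hn, hρ]; exact n_rr hL ht
  have hlt : t ≤ ℓ * t := by nlinarith
  have hp' := gk_rr (d := d) hL ht hlt
  rw [← hp, ← hρ] at hp'
  have hlog : 0 < Real.log t := by have := two_log ht; linarith
  have hx1 : Real.log t ^ K1 ≤ x := by
    rw [hx, mul_comm]; exact log_unify ht K1 K2
  have hx2 : Real.log t ^ K2 ≤ x := by
    rw [hx, mul_comm, add_comm K1 K2]; exact log_unify ht K2 K1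
  have hx0 : 0 ≤ x := le_trans (by positivity) hx1
  rw [hop_diag hL]
  have g1 := h1 L hL t ht
  have g2 := h2 L hL t ht
  rw [← hn, ← hρ, ← hp] at g1 g2
  rw [← hn, ← hρ, ← hp]
  simp only [pow_one, Nat.descFactorial_one] at g1
  obtain ⟨E1, hE1⟩ : ∃ E1 : ℝ, E1 = stirExp (nnRate d L) t (fun g => (numLen g ℓ : ℝ)) := ⟨_, rfl⟩
  obtain ⟨E2, hE2⟩ : ∃ E2 : ℝ, E2 = stirExp (nnRate d L) t
    (fun g => ((numLen g ℓ).descFactorial 2 : ℝ)) := ⟨_, rfl⟩
  rw [← hE1] at g1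
  rw [← hE2] at g2
  have b1 : A1 * Real.log t ^ K1 * ρ * (n * ρ) ≤ A1 * x * ρ * (n * ρ) := by gcongr
  have b2 : A2 * Real.log t ^ K2 * ρ * (n * ρ) ^ 2 ≤ A2 * x * ρ * (n * ρ) ^ 2 := by gcongr
  constructor
  · have h3 := prob_len (d := d) hVL t ℓ hℓ v
    rw [← hn, ← hE1] at h3
    obtain ⟨P, hP⟩ : ∃ P : ℝ, P = stirExp (nnRate d L) t
      (fun g => if cycleLen g v = ℓ then 1 else 0) := ⟨_, rfl⟩
    rw [← hP] at h3 ⊢
    rw [← h3] at g1
    have h4 : n * P - n * p = n * (P - p) := by ring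
    rw [h4, abs_mul, abs_of_pos hn0] at g1
    have h5 : n * |P - p| ≤ n * (A1 * x * ρ ^ 2) := by
      refine g1.trans (b1.trans (le_of_eq ?_))
      ring
    have h6 := le_of_mul_le_mul_left h5 hn0
    refine h6.trans ?_
    have e1 : (A1 * (3 + 2 * 2 ^ d) + A2) * 2 ^ (K1 + K2) * Real.log t ^ (K1 + K2) * ρ ^ 2 =
        (A1 * (3 + 2 * 2 ^ d) + A2) * x * ρ ^ 2 := by rw [hx]; ring
    rw [e1]
    have h7 : A1 ≤ A1 * (3 + 2 * 2 ^ d) + A2 := by
      have : (0 : ℝ) < 2 ^ d := by positivity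
      nlinarith
    gcongr
  · -- second moment
    obtain ⟨lam, hlam⟩ : ∃ lam : ℝ, lam = n * p / ℓ := ⟨_, rfl⟩
    have hlam0 : 0 ≤ lam := by rw [hlam]; have := hp'.1; positivity
    have hlamle : lam ≤ 2 ^ d * (n * ρ) := by
      rw [hlam, div_le_iff₀ (by linarith)]
      have h3 : n * p ≤ 2 ^ d * (n * ρ) := by
        have := mul_le_mul_of_nonneg_left hp'.2 hn0.le
        linarith
      have h4 : 0 ≤ 2 ^ d * (n * ρ) := by positivity
      nlinarith
    rw [← hlam]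
    have e1 : stirExp (nnRate d L) t (fun g => ((numLen g ℓ : ℝ) - lam) ^ 2) =
        E2 + (1 - 2 * lam) * E1 + lam ^ 2 := by
      rw [hE1, hE2]
      have hc := exp_const (nnRate d L) t (lam ^ 2)
      rw [← hc]
      unfold stirExp
      rw [Finset.mul_sum, ← Finset.sum_add_distrib, ← Finset.sum_add_distrib]
      refine Finset.sum_congr rfl fun g _ => ?_
      have h5 : ((numLen g ℓ).descFactorial 2 : ℝ) = (numLen g ℓ : ℝ) ^ 2 - numLen g ℓ := by
        rw [Nat.descFactorial_succ, Nat.descFactorial_one]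
        rcases Nat.eq_zero_or_pos (numLen g ℓ) with h0 | h0
        · rw [h0]; simp
        · push_cast [Nat.cast_sub h0]
          ring
      beta_reduce
      rw [h5]
      ring
    rw [e1]
    have h6 : |E1 - lam| ≤ A1 * x * ρ * (n * ρ) := by
      have h7 : E1 - lam = (ℓ * E1 - n * p) / ℓ := by rw [hlam]; field_simp
      rw [h7, abs_div, abs_of_pos (by linarith : (0 : ℝ) < ℓ), div_le_iff₀ (by linarith)]
      refine g1.trans (b1.trans ?_)
      exact le_mul_of_one_le_right (by positivity) hℓr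
    have h8 : |E2 - lam ^ 2| ≤ A2 * x * ρ * (n * ρ) ^ 2 := by
      have h7 : E2 - lam ^ 2 = (ℓ ^ 2 * E2 - (n * p) ^ 2) / ℓ ^ 2 := by rw [hlam]; field_simp
      have h9 : (1 : ℝ) ≤ (ℓ : ℝ) ^ 2 := one_le_pow₀ hℓr
      rw [h7, abs_div, abs_of_pos (by linarith : (0 : ℝ) < (ℓ : ℝ) ^ 2), div_le_iff₀ (by linarith)]
      refine g2.trans (b2.trans ?_)
      exact le_mul_of_one_le_right (by positivity) h9
    have h10 : E2 + (1 - 2 * lam) * E1 + lam ^ 2 - lam =
        (E2 - lam ^ 2) + (1 - 2 * lam) * (E1 - lam) := by ring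
    rw [h10]
    refine (abs_add_le _ _).trans ?_
    rw [abs_mul]
    have h11 : |1 - 2 * lam| ≤ (1 + 2 * 2 ^ d) * (n * ρ) := by
      rw [abs_le]
      constructor <;> nlinarith
    have h12 : |1 - 2 * lam| * |E1 - lam| ≤ (1 + 2 * 2 ^ d) * (n * ρ) * (A1 * x * ρ * (n * ρ)) :=
      mul_le_mul h11 h6 (abs_nonneg _) (by positivity)
    have e2 : (A1 * (3 + 2 * 2 ^ d) + A2) * 2 ^ (K1 + K2) * Real.log t ^ (K1 + K2) * ρ *
        (n * ρ) ^ 2 = A2 * x * ρ * (n * ρ) ^ 2 +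
        (3 + 2 * 2 ^ d) * (n * ρ) * (A1 * x * ρ * (n * ρ)) := by rw [hx]; ring
    rw [e2]
    refine add_le_add h8 (h12.trans ?_)
    have h13 : (1 + 2 * 2 ^ d : ℝ) ≤ 3 + 2 * 2 ^ d := by linarith
    gcongr

end Pool.Agent.Helper47K9.SC
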