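import Pool.Agent.Helper47K9.SC.Stm

/-!
# [PT] The pointwise identity for the generators (helper55)
-/

set_option autoImplicit false

namespace Pool.Agent.Helper47K9.SC

open Finset Equiv Pool.Agent.Y998.ST

namespace PtL

set_option linter.unusedSectionVars false

variable {V : Type} [Fintype V] [DecidableEq V] {ι : Type} [Fintype ι] [DecidableEq ι]

/-- a sum over the indices of the points equal to `z i₀` -/
theorem sum_one {z : ι → V} (hz : Function.Injective z) (i₀ : ι) (f : ι → ℝ) :
    ∑ i, (if z i = z i₀ then f i else 0) = f i₀ := by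
  rw [Finset.sum_eq_single i₀]
  · rw [if_pos rfl]
  · intro i _ hi
    rw [if_neg fun h => hi (hz h)]
  · intro h
    exact absurd (mem_univ _) h

theorem sum_zero {z : ι → V} {a : V} (ha : ∀ i, z i ≠ a) (f : ι → ℝ) :
    ∑ i, (if z i = a then f i else 0) = 0 :=
  Finset.sum_eq_zero fun i _ => if_neg (ha i)

/-- the first order terms at the pair `(a, b)` -/
noncomputable def Q (h : ι → V → ℝ) (z : ι → V) (a b : V) : ℝ :=
  ∑ i, (if z i = a then (h i b - h i a) * ∏ k ∈ univ.erase i, h k (z k) else 0) +
    ∑ i, (if z i = b then (h i a - h i b) * ∏ k ∈ univ.erase i, h k (z k) else 0)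

/-- the second order terms at the pair `(a, b)` -/
noncomputable def R (h : ι → V → ℝ) (z : ι → V) (a b : V) : ℝ :=
  ∑ i, ∑ j ∈ univ.erase i, (if z i = a ∧ z j = b then
    ((h i (z i) - h i (z j)) * (h j (z i) - h j (z j))) * ∏ k ∈ (univ.erase i).erase j, h k (z k)
    else 0)

theorem point (h : ι → V → ℝ) {z : ι → V} (hz : Function.Injective z) {a b : V} (hab : a ≠ b) :
    (∏ k, h k (swap a b (z k))) - ∏ k, h k (z k) = Q h z a b - R h z a b := by
  by_cases ha : ∃ i, z i = a
  · obtain ⟨i, rfl⟩ := ha
    by_cases hb : ∃ j, z j = b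
    · obtain ⟨j, rfl⟩ := hb
      have hij : j ≠ i := fun e => hab (by rw [e])
      have hji : j ∈ univ.erase i := mem_erase.2 ⟨hij, mem_univ _⟩
      have hQ : Q h z (z i) (z j) = (h i (z j) - h i (z i)) * ∏ k ∈ univ.erase i, h k (z k) +
          (h j (z i) - h j (z j)) * ∏ k ∈ univ.erase j, h k (z k) := by
        unfold Q
        congr 1
        · exact sum_one hz i fun i' => (h i' (z j) - h i' (z i)) * ∏ k ∈ univ.erase i', h k (z k)
        · exact sum_one hz j fun i' => (h i' (z i) - h i' (z j)) * ∏ k ∈ univ.erase i', h k (z k)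
      have hR : R h z (z i) (z j) = ((h i (z i) - h i (z j)) * (h j (z i) - h j (z j))) *
          ∏ k ∈ (univ.erase i).erase j, h k (z k) := by
        unfold R
        rw [Finset.sum_eq_single i]
        · rw [Finset.sum_eq_single j]
          · rw [if_pos ⟨rfl, rfl⟩]
          · intro j' _ hj'
            rw [if_neg fun e => hj' (hz e.2)]
          · intro h'
            exact absurd hji h'
        · intro i' _ hi'
          exact Finset.sum_eq_zero fun j' _ => if_neg fun e => hi' (hz e.1)
        · intro h'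
          exact absurd (mem_univ _) h'
      rw [hQ, hR, ← Finset.mul_prod_erase univ (fun k => h k (swap (z i) (z j) (z k))) (mem_univ i),
        ← Finset.mul_prod_erase (univ.erase i) (fun k => h k (swap (z i) (z j) (z k))) hji,
        ← Finset.mul_prod_erase univ (fun k => h k (z k)) (mem_univ i),
        ← Finset.mul_prod_erase (univ.erase i) (fun k => h k (z k)) hji,
        ← Finset.mul_prod_erase (univ.erase j) (fun k => h k (z k))
          (mem_erase.2 ⟨hij.symm, mem_univ _⟩)]
      have e1 : ∏ k ∈ (univ.erase i).erase j, h k (swap (z i) (z j) (z k)) =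
          ∏ k ∈ (univ.erase i).erase j, h k (z k) := by
        refine Finset.prod_congr rfl fun k hk => ?_
        rw [mem_erase, mem_erase] at hk
        rw [swap_apply_of_ne_of_ne (fun e => hk.2.1 (hz e)) (fun e => hk.1 (hz e))]
      have e2 : (univ.erase j).erase i = (univ.erase i).erase j := Finset.erase_right_comm
      rw [e1, e2, swap_apply_left, swap_apply_right]
      ring
    · have hb' : ∀ j, z j ≠ b := fun j e => hb ⟨j, e⟩
      have hQ : Q h z (z i) b = (h i b - h i (z i)) * ∏ k ∈ univ.erase i, h k (z k) := by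
        unfold Q
        rw [sum_zero hb', add_zero]
        exact sum_one hz i fun i' => (h i' b - h i' (z i)) * ∏ k ∈ univ.erase i', h k (z k)
      have hR : R h z (z i) b = 0 :=
        Finset.sum_eq_zero fun i' _ => Finset.sum_eq_zero fun j' _ => if_neg fun e => hb' j' e.2
      rw [hQ, hR, ← Finset.mul_prod_erase univ (fun k => h k (swap (z i) b (z k))) (mem_univ i),
        ← Finset.mul_prod_erase univ (fun k => h k (z k)) (mem_univ i)]
      have e1 : ∏ k ∈ univ.erase i, h k (swap (z i) b (z k)) =
          ∏ k ∈ univ.erase i, h k (z k) := by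
        refine Finset.prod_congr rfl fun k hk => ?_
        rw [mem_erase] at hk
        rw [swap_apply_of_ne_of_ne (fun e => hk.1 (hz e)) (hb' k)]
      rw [e1, swap_apply_left]
      ring
  · have ha' : ∀ j, z j ≠ a := fun j e => ha ⟨j, e⟩
    have hR : R h z a b = 0 :=
      Finset.sum_eq_zero fun i' _ => Finset.sum_eq_zero fun j' _ => if_neg fun e => ha' i' e.1
    by_cases hb : ∃ j, z j = b
    · obtain ⟨j, rfl⟩ := hb
      have hQ : Q h z a (z j) = (h j a - h j (z j)) * ∏ k ∈ univ.erase j, h k (z k) := by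
        unfold Q
        rw [sum_zero ha', zero_add]
        exact sum_one hz j fun i' => (h i' a - h i' (z j)) * ∏ k ∈ univ.erase i', h k (z k)
      rw [hQ, hR, ← Finset.mul_prod_erase univ (fun k => h k (swap a (z j) (z k))) (mem_univ j),
        ← Finset.mul_prod_erase univ (fun k => h k (z k)) (mem_univ j)]
      have e1 : ∏ k ∈ univ.erase j, h k (swap a (z j) (z k)) =
          ∏ k ∈ univ.erase j, h k (z k) := by
        refine Finset.prod_congr rfl fun k hk => ?_
        rw [mem_erase] at hk
        rw [swap_apply_of_ne_of_ne (ha' k) (fun e => hk.1 (hz e))]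
      rw [e1, swap_apply_right]
      ring
    · have hb' : ∀ j, z j ≠ b := fun j e => hb ⟨j, e⟩
      have hQ : Q h z a b = 0 := by
        unfold Q
        rw [sum_zero ha', sum_zero hb', add_zero]
      have e1 : ∏ k, h k (swap a b (z k)) = ∏ k, h k (z k) :=
        Finset.prod_congr rfl fun k _ => by rw [swap_apply_of_ne_of_ne (ha' k) (hb' k)]
      rw [hQ, hR, e1]
      ring

theorem sum_Q {J : V → V → ℝ} (hs : ∀ x y, J x y = J y x) (h : ι → V → ℝ) (z : ι → V) :
    ∑ a, ∑ b, J a b / 2 * Q h z a b =
      ∑ i, (∑ c, J (z i) c * (h i c - h i (z i))) * ∏ k ∈ univ.erase i, h k (z k) := by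
  have h1 : ∑ a, ∑ b, J a b / 2 * Q h z a b =
      ∑ a, ∑ b, J a b / 2 *
        (∑ i, (if z i = a then (h i b - h i a) * ∏ k ∈ univ.erase i, h k (z k) else 0)) +
      ∑ a, ∑ b, J a b / 2 *
        (∑ i, (if z i = b then (h i a - h i b) * ∏ k ∈ univ.erase i, h k (z k) else 0)) := by
    unfold Q
    simp only [mul_add, Finset.sum_add_distrib]
  have h2 : ∑ a, ∑ b, J a b / 2 *
      (∑ i, (if z i = b then (h i a - h i b) * ∏ k ∈ univ.erase i, h k (z k) else 0)) =
      ∑ a, ∑ b, J a b / 2 *
      (∑ i, (if z i = a then (h i b - h i a) * ∏ k ∈ univ.erase i, h k (z k) else 0)) := by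
    rw [Finset.sum_comm]
    refine Finset.sum_congr rfl fun a _ => Finset.sum_congr rfl fun b _ => ?_
    rw [hs b a]
  have h3 : ∑ a, ∑ b, J a b / 2 *
      (∑ i, (if z i = a then (h i b - h i a) * ∏ k ∈ univ.erase i, h k (z k) else 0)) =
      ∑ i, ∑ b, J (z i) b / 2 * ((h i b - h i (z i)) * ∏ k ∈ univ.erase i, h k (z k)) := by
    simp only [Finset.mul_sum]
    rw [Finset.sum_congr rfl fun a _ => Finset.sum_comm, Finset.sum_comm]
    refine Finset.sum_congr rfl fun i _ => ?_
    rw [Finset.sum_comm]
    refine Finset.sum_congr rfl fun b _ => ?_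
    rw [Finset.sum_eq_single (z i)]
    · rw [if_pos rfl]
    · intro a _ ha
      rw [if_neg (Ne.symm ha), mul_zero]
    · intro h'
      exact absurd (mem_univ _) h'
  rw [h1, h2, h3, ← Finset.sum_add_distrib]
  refine Finset.sum_congr rfl fun i _ => ?_
  rw [← Finset.sum_add_distrib, Finset.sum_mul]
  refine Finset.sum_congr rfl fun b _ => ?_
  ring

theorem sum_R (J : V → V → ℝ) (h : ι → V → ℝ) (z : ι → V) :
    ∑ a, ∑ b, J a b / 2 * R h z a b = defect J h z := by
  unfold R defect
  simp only [Finset.mul_sum]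
  rw [Finset.sum_congr rfl fun a _ => Finset.sum_comm, Finset.sum_comm]
  refine Finset.sum_congr rfl fun i _ => ?_
  rw [Finset.sum_congr rfl fun a _ => Finset.sum_comm, Finset.sum_comm]
  refine Finset.sum_congr rfl fun j _ => ?_
  rw [Finset.sum_eq_single (z i)]
  · rw [Finset.sum_eq_single (z j)]
    · rw [if_pos ⟨rfl, rfl⟩]
      ring
    · intro b _ hb
      rw [if_neg fun e => hb e.2.symm, mul_zero]
    · intro h'
      exact absurd (mem_univ _) h'
  · intro a _ ha
    exact Finset.sum_eq_zero fun b _ => by rw [if_neg fun e => ha e.1.symm, mul_zero]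
  · intro h'
    exact absurd (mem_univ _) h'

end PtL

open PtL in
theorem pt : S_PT := by
  intro V _ _ J hs h0 ι _ _ h z hz
  rw [← sum_Q hs h z, ← sum_R J h z]
  have h1 : ∑ a, ∑ b, J a b / 2 * ((∏ k, h k (swap a b (z k))) - ∏ k, h k (z k)) =
      ∑ a, ∑ b, J a b / 2 * (Q h z a b - R h z a b) := by
    refine Finset.sum_congr rfl fun a _ => Finset.sum_congr rfl fun b _ => ?_
    by_cases hab : a = b
    · subst hab
      rw [h0, zero_div, zero_mul, zero_mul]
    · rw [point h hz hab]
  rw [h1]
  simp only [mul_sub, Finset.sum_sub_distrib]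
  ring

end Pool.Agent.Helper47K9.SC
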