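import Pool.Agent.Y998.ST.Torus

/-!
# Short cycles of random stirring: definitions and statements

Plan. `US J t x y` is the probability that stirring moves `x k` to `y k` for all `k`, `IS J t x y`
the same for independent walks. Duhamel's formula compares them; the defect is a product of two
gradients and is small in the mean. So the expected number of tuples `x` with
`σ (x k) = x (τ k)` for all `k` is close to the same number for independent walks, which is a
product of return probabilities over the cycles of `τ`.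
-/

set_option autoImplicit false

namespace Pool.Agent.Helper47K9.SC

open Finset Equiv Pool.Agent.Y998.ST

section defs

variable {V : Type} [Fintype V] [DecidableEq V]

/-- The semigroup of one particle. -/
noncomputable def PP (J : V → V → ℝ) (u : ℝ) (f : V → ℝ) (a : V) : ℝ := ∑ c, qq J u a c * f c

/-- Labelled stirring particles for the time `s`, then independent particles for `t - s`. -/
noncomputable def phi (J : V → V → ℝ) {ι : Type} [Fintype ι] (t : ℝ) (f : ι → V → ℝ)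
    (x : ι → V) (s : ℝ) : ℝ :=
  stirExp J s (fun g => ∏ k, PP J (t - s) (f k) (g (x k)))

/-- The difference of the two generators on a product function. -/
noncomputable def defect (J : V → V → ℝ) {ι : Type} [Fintype ι] [DecidableEq ι]
    (h : ι → V → ℝ) (z : ι → V) : ℝ :=
  ∑ i, ∑ j ∈ univ.erase i, J (z i) (z j) / 2 *
    ((h i (z i) - h i (z j)) * (h j (z i) - h j (z j))) * ∏ k ∈ (univ.erase i).erase j, h k (z k)

/-- The probability that stirring moves `x k` to `y k` for all `k`. -/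
noncomputable def US (J : V → V → ℝ) {ι : Type} [Fintype ι] (t : ℝ) (x y : ι → V) : ℝ :=
  stirExp J t (fun g => if ∀ k, g (x k) = y k then 1 else 0)

/-- The same for independent particles. -/
noncomputable def IS (J : V → V → ℝ) {ι : Type} [Fintype ι] (t : ℝ) (x y : ι → V) : ℝ :=
  ∏ k, qq J t (x k) (y k)

/-- Hypotheses on the rates `J`: total rate `D` at every site, gradients of the one particle kernel
of order `G / √u` in `ℓ¹`, and a bound `q` for the kernel from the time `t / 4` on. -/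
structure Hyp (J : V → V → ℝ) (D G q t : ℝ) : Prop where
  nn : ∀ x y, 0 ≤ J x y
  sy : ∀ x y, J x y = J y x
  dg : ∀ x, J x x = 0
  D0 : 0 ≤ D
  G0 : 0 ≤ G
  q0 : 0 ≤ q
  t0 : 0 ≤ t
  row : ∀ x, ∑ y, J x y ≤ D
  g1 : ∀ u, 0 ≤ u → ∀ a b, J a b ≠ 0 → ∑ y, |qq J u a y - qq J u b y| ≤ G / Real.sqrt (1 + u)
  g2 : ∀ u, 0 ≤ u → ∀ w, ∑ a, ∑ b, J a b * |qq J u a w - qq J u b w| ≤
    D * (G / Real.sqrt (1 + u))
  q1 : ∀ s, t / 4 ≤ s → ∀ a b, qq J s a b ≤ q

end defs

/-- Index set of a family of cyclic words: the word `c` has the letters `0, ..., l c - 1`. -/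
abbrev Ix (C : Type) (l : C → ℕ) : Type := (c : C) × Fin (l c)

/-- The next letter in every word, cyclically. -/
def rot {C : Type} (l : C → ℕ) : Perm (Ix C l) := Equiv.sigmaCongrRight fun c => finRotate (l c)

/-- `ℓ¹` distance on the torus. -/
def tdist {d L : ℕ} (x y : Fin d → ZMod L) : ℕ := ∑ i, (x i - y i).valMinAbs.natAbs

/-- The size of the kernel at time `t`. -/
noncomputable def rr (d L : ℕ) (t : ℝ) : ℝ := 1 / (L : ℝ) ^ d + 1 / Real.sqrt t ^ d

/-! ### A. Abstract analysis -/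

/-- PT. The pointwise identity for the generators. Only the transpositions `swap a b` with both
`a` and `b` in the range of the injective tuple `z` contribute to the difference: if
`a = z i`, `b = z j` the product changes to the one with `i`, `j` exchanged, and
`(h_i(b) h_j(a) - h_i(a) h_j(b)) - (h_i(b) - h_i(a)) h_j(b) - h_i(a) (h_j(a) - h_j(b))`
`= - (h_i(a) - h_i(b)) (h_j(a) - h_j(b))`. -/
def S_PT : Prop := ∀ (V : Type) [Fintype V] [DecidableEq V] (J : V → V → ℝ),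
  (∀ x y, J x y = J y x) → (∀ x, J x x = 0) →
  ∀ (ι : Type) [Fintype ι] [DecidableEq ι] (h : ι → V → ℝ) (z : ι → V), Function.Injective z →
  ∑ a, ∑ b, J a b / 2 * ((∏ k, h k (swap a b (z k))) - ∏ k, h k (z k)) -
    ∑ i, (∑ c, J (z i) c * (h i c - h i (z i))) * ∏ k ∈ univ.erase i, h k (z k) =
  - defect J h z

/-- DUH. Duhamel's formula in differential form. Derivative of the sum over `g` of
`stirLaw J s g * F s g`: `exp_deriv` (with `F s` frozen) plus the derivative of the product,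
where `d/du PP J u f a = ∑ c, J a c * (PP J u f c - PP J u f a)` (from `qq_deriv` and the
symmetry / commutation `qq J u * GG J = GG J * qq J u`, `eq_E`); then S_PT pointwise in `g`. -/
def S_DUH : Prop := ∀ (V : Type) [Fintype V] [DecidableEq V] (J : V → V → ℝ),
  (∀ x y, J x y = J y x) → (∀ x, J x x = 0) →
  ∀ (ι : Type) [Fintype ι] [DecidableEq ι] (t : ℝ) (f : ι → V → ℝ) (x : ι → V),
  Function.Injective x → ∀ s : ℝ,
  HasDerivAt (phi J t f x)
    (- stirExp J s (fun g => defect J (fun k => PP J (t - s) (f k)) (fun k => g (x k)))) s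

/-- LIG. Liggett's inequality for products of one nonnegative function: `phi` is antitone since
the defect is `∑ J / 2 * (h (z i) - h (z j))² * ∏ h ≥ 0`. -/
def S_LIG : Prop := ∀ (V : Type) [Fintype V] [DecidableEq V] (J : V → V → ℝ),
  (∀ x y, 0 ≤ J x y) → (∀ x y, J x y = J y x) → (∀ x, J x x = 0) →
  ∀ (ι : Type) [Fintype ι] (f : V → ℝ), (∀ a, 0 ≤ f a) → ∀ (x : ι → V),
  Function.Injective x → ∀ s : ℝ, 0 ≤ s →
  stirExp J s (fun g => ∏ k, f (g (x k))) ≤ ∏ k, PP J s f (x k)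

/-- UBD. Sup bound for the kernel of labelled particles: S_LIG with `f` the indicator of the range
of `y`. -/
def S_UBD : Prop := ∀ (V : Type) [Fintype V] [DecidableEq V] (J : V → V → ℝ),
  (∀ x y, 0 ≤ J x y) → (∀ x y, J x y = J y x) → (∀ x, J x x = 0) →
  ∀ (ι : Type) [Fintype ι] (x y : ι → V), Function.Injective x → ∀ s q : ℝ, 0 ≤ s →
  (∀ a b, qq J s a b ≤ q) →
  US J s x y ≤ (Fintype.card ι * q) ^ Fintype.card ι

/-- FIB. A sum over `S` is at most the sum over the projections, the coordinate `j` being free. -/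
def S_FIB : Prop := ∀ (V : Type) [Fintype V] [DecidableEq V] (ι : Type) [Fintype ι]
  [DecidableEq ι] (S : Finset (ι → V)) (v0 : V) (j : ι) (F : (ι → V) → ℝ), (∀ x, 0 ≤ F x) →
  ∑ x ∈ S, F x ≤
    ∑ w ∈ S.image (fun x => Function.update x j v0), ∑ y, F (Function.update w j y)

/-- E1. The defect for `s ≤ t / 2`. With `u = t - s ≥ t / 2`, `h k a = qq J u a (x (τ k))`:
`|h_i(a) - h_i(b)| ≤ q G / √(1 + u / 2)` for `J a b ≠ 0` (Chapman-Kolmogorov at `u / 2 ≥ t / 4`),
the other factors are `≤ q`, so the defect at `z = g ∘ x` is at most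
`∑_(i ≠ j) J (z i) (z j) / 2 * q ^ M * 4 G² / (1 + t)`; and by S_FIB (coordinate `j`)
`∑_(x ∈ S) J (g (x i)) (g (x j)) ≤ N * D` for every `g`, since `y ↦ g y` is a bijection. -/
def S_E1 : Prop := ∀ (ι : Type) [Fintype ι] [DecidableEq ι], ∃ C : ℝ, 0 < C ∧
  ∀ (V : Type) [Fintype V] [DecidableEq V] (J : V → V → ℝ) (D G q t : ℝ), Hyp J D G q t →
  ∀ (S : Finset (ι → V)) (N : ℝ), 0 ≤ N →
  (∀ (v0 : V) (j : ι), ((S.image fun x => Function.update x j v0).card : ℝ) ≤ N) →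
  ∀ (τ : Perm ι) (s : ℝ), 0 ≤ s → s ≤ t / 2 →
  ∑ x ∈ S, stirExp J s (fun g =>
    |defect J (fun k a => qq J (t - s) a (x (τ k))) (fun k => g (x k))|) ≤
    C * (D * G ^ 2 * q ^ Fintype.card ι * N / (1 + t))

/-- E2. The defect for `t / 2 ≤ s ≤ t`. With `u = t - s`, `h k a = qq J u a (x (τ k))` and
S_UBD: the sum over `x ∈ S` is at most `(M q) ^ M * ∑_(x ∈ S) ∑_z |defect J h z|`, and
`∑_z |defect| ≤ ∑_(i ≠ j) ∑_(a, b) J a b / 2 * |h_i(a) - h_i(b)| * |h_j(a) - h_j(b)|` since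
`∑_c h_k(c) = 1` (symmetry of `qq`); by S_FIB for the coordinate `τ j`, `g1` and then `g2`,
the sum over `x ∈ S` of this is at most `N * (G / √(1 + u)) * D * (G / √(1 + u))` for every
`i ≠ j`. -/
def S_E2 : Prop := ∀ (ι : Type) [Fintype ι] [DecidableEq ι], ∃ C : ℝ, 0 < C ∧
  ∀ (V : Type) [Fintype V] [DecidableEq V] (J : V → V → ℝ) (D G q t : ℝ), Hyp J D G q t →
  ∀ (S : Finset (ι → V)), (∀ x ∈ S, Function.Injective x) → ∀ (N : ℝ), 0 ≤ N →
  (∀ (v0 : V) (j : ι), ((S.image fun x => Function.update x j v0).card : ℝ) ≤ N) →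
  ∀ (τ : Perm ι) (s : ℝ), t / 2 ≤ s → s ≤ t →
  ∑ x ∈ S, stirExp J s (fun g =>
    |defect J (fun k a => qq J (t - s) a (x (τ k))) (fun k => g (x k))|) ≤
    C * (D * G ^ 2 * q ^ Fintype.card ι * N / (1 + (t - s)))

/-- MAIN. Integration of S_DUH, S_E1, S_E2 (with `f k = ` the indicator of `x (τ k)`, for which
`PP J u (f k) a = qq J u a (x (τ k))`): `s ↦ ∑_(x ∈ S) phi ... s` has a derivative bounded by
`H / (1 + t)` on `[0, t / 2]` and by `H / (1 + (t - s))` on `[t / 2, t]`. -/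
def S_MAIN : Prop := ∀ (ι : Type) [Fintype ι] [DecidableEq ι], ∃ C : ℝ, 0 < C ∧
  ∀ (V : Type) [Fintype V] [DecidableEq V] (J : V → V → ℝ) (D G q t : ℝ), Hyp J D G q t →
  ∀ (S : Finset (ι → V)), (∀ x ∈ S, Function.Injective x) → ∀ (N : ℝ), 0 ≤ N →
  (∀ (v0 : V) (j : ι), ((S.image fun x => Function.update x j v0).card : ℝ) ≤ N) →
  ∀ (τ : Perm ι),
  |∑ x ∈ S, (US J t x (fun k => x (τ k)) - IS J t x (fun k => x (τ k)))| ≤
    C * (D * G ^ 2 * q ^ Fintype.card ι * N * (1 + Real.log (1 + t)))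

/-! ### B. The torus -/

/-- GR. Gradients of the heat kernel of the torus in `ℓ¹`. For `u ≥ 1` the first bound follows from
`Pool.Agent.Y998.LQ.t_dist` (`NN J u (swap a b) ≤ C / √u` for neighbours; the law of `g a` under
`stirLaw` and under its translate by `swap a b`), for `u ≤ 1` the sum is `≤ 2`. The second one is the
first one by translation invariance (`qq_eq_hk`). -/
def S_GR : Prop := ∀ d : ℕ, 1 ≤ d → ∃ G : ℝ, 0 < G ∧ ∀ (L : ℕ) [NeZero L], 3 ≤ L →
  (∀ u : ℝ, 0 ≤ u → ∀ a b : Fin d → ZMod L, nnRate d L a b ≠ 0 →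
    ∑ y, |qq (nnRate d L) u a y - qq (nnRate d L) u b y| ≤ G / Real.sqrt (1 + u)) ∧
  (∀ u : ℝ, 0 ≤ u → ∀ w : Fin d → ZMod L,
    ∑ a, ∑ b, nnRate d L a b * |qq (nnRate d L) u a w - qq (nnRate d L) u b w| ≤
      2 * d * (G / Real.sqrt (1 + u)))

/-- TAIL. With `λ = 1 / √t ≤ 1` the function `F y = ∑ i, cosh (λ * |(y i - x i).valMinAbs|)`
satisfies `∑ c, J y c * (F c - F y) ≤ 2 (cosh λ - 1) F y ≤ (2 / t) F y`, so its mean at time `t` is
at most `d * exp 2`. -/
def S_TAIL : Prop := ∀ d : ℕ, 1 ≤ d → ∃ C : ℝ, 0 < C ∧ ∀ (L : ℕ) [NeZero L], 3 ≤ L →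
  ∀ t : ℝ, 1 ≤ t → ∀ (R : ℝ) (x : Fin d → ZMod L), 0 ≤ R →
  ∑ y with R < (tdist x y : ℝ), qq (nnRate d L) t x y ≤ C * Real.exp (-(R / (d * Real.sqrt t)))

/-- BALL. -/
def S_BALL : Prop := ∀ (d L : ℕ) [NeZero L] (x : Fin d → ZMod L) (R : ℕ),
  ((univ.filter fun y => tdist x y ≤ R).card : ℝ) ≤ (2 * (R : ℝ) + 1) ^ d

/-- LOW. On-diagonal lower bound: `qq t x x = ∑ y, qq (t/2) x y ^ 2`, Cauchy-Schwarz on the whole
torus and on the ball of radius `A √t`, S_TAIL and S_BALL. -/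
def S_LOW : Prop := ∀ d : ℕ, 1 ≤ d → ∃ c : ℝ, 0 < c ∧ ∀ (L : ℕ) [NeZero L], 3 ≤ L →
  ∀ t : ℝ, 2 ≤ t → c * rr d L t ≤ gk L t 0 ^ d

/-! ### C. Combinatorics -/

/-- CK. `∑_x ∏_k A (x k) (x (rot k)) = ∏_c trace (A ^ l c)`. -/
def S_CK : Prop := ∀ (V : Type) [Fintype V] [DecidableEq V] (A : Matrix V V ℝ) (C : Type)
  [Fintype C] [DecidableEq C] (l : C → ℕ), (∀ c, 1 ≤ l c) →
  ∑ x : Ix C l → V, ∏ k, A (x k) (x (rot l k)) = ∏ c, (A ^ l c).trace

open Classical in
/-- CNT. Number of projections of the localised tuples. After dropping one letter of the word `c0`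
every word `c ≠ c0` has at most `n * b ^ (l c - 1)` choices, and the word `c0` at most
`n * b ^ (l c0 - 2)` if `l c0 ≥ 2`, one if `l c0 = 1`. -/
def S_CNT : Prop := ∀ (V : Type) [Fintype V] [DecidableEq V] (C : Type) [Fintype C]
  [DecidableEq C] (l : C → ℕ), (∀ c, 1 ≤ l c) → ∀ (near : V → V → Prop) (b : ℝ), 1 ≤ b →
  b ≤ Fintype.card V → (∀ x, ((univ.filter fun y => near x y).card : ℝ) ≤ b) →
  ∀ (v0 : V) (j : Ix C l),
  (((univ.filter fun x : Ix C l → V => ∀ c a a', near (x ⟨c, a⟩) (x ⟨c, a'⟩)).image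
    (fun x => Function.update x j v0)).card : ℝ) * b ≤
    (Fintype.card V : ℝ) ^ Fintype.card C * b ^ (∑ c, (l c - 1))

open Classical in
/-- TU. Tuples with a long step, stirring: for every permutation `g` the number of tuples `x` with
`g (x k) = x (rot k)` for all `k` and a long step at `k = ⟨c0, a0⟩` is at most
`n ^ (C.card - 1)` times the number of `v` with a long step from `v` to `g v`. -/
def S_TU : Prop := ∀ (V : Type) [Fintype V] [DecidableEq V] (J : V → V → ℝ),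
  (∀ x y, 0 ≤ J x y) → ∀ (C : Type) [Fintype C] [DecidableEq C] (l : C → ℕ), (∀ c, 1 ≤ l c) →
  ∀ (st : V → V → Prop) (t θ : ℝ), 0 ≤ t →
  (∀ x, ∑ y with ¬ st x y, qq J t x y ≤ θ) →
  ∑ x : Ix C l → V with ∃ k, ¬ st (x k) (x (rot l k)), US J t x (fun k => x (rot l k)) ≤
    (∑ c, (l c : ℝ)) * ((Fintype.card V : ℝ) ^ Fintype.card C * θ)

open Classical in
/-- TV. The same for independent walks (drop one factor `≤ 1` in every word, in the word of the
long step another one than that of the long step unless the word has one letter). -/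
def S_TV : Prop := ∀ (V : Type) [Fintype V] [DecidableEq V] (J : V → V → ℝ),
  (∀ x y, 0 ≤ J x y) → ∀ (C : Type) [Fintype C] [DecidableEq C] (l : C → ℕ), (∀ c, 1 ≤ l c) →
  ∀ (st : V → V → Prop) (t θ : ℝ), 0 ≤ t →
  (∀ x, ∑ y with ¬ st x y, qq J t x y ≤ θ) →
  ∑ x : Ix C l → V with ∃ k, ¬ st (x k) (x (rot l k)), IS J t x (fun k => x (rot l k)) ≤
    (∑ c, (l c : ℝ)) * ((Fintype.card V : ℝ) ^ Fintype.card C * θ)

/-- Number of cycles of length `s`, fixed points included. -/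
def numLen {V : Type} [Fintype V] [DecidableEq V] (g : Perm V) (s : ℕ) : ℕ :=
  g.partition.parts.count s

open Classical in
/-- TUP. Number of tuples that follow the cycles of `g`. -/
def S_TUP : Prop := ∀ (V : Type) [Fintype V] [DecidableEq V] (g : Perm V) (k : ℕ)
  (a : Fin k → ℕ),
  (univ.filter fun x : Ix ((s : Fin k) × Fin (a s)) (fun c => (c.1 : ℕ) + 1) → V =>
    Function.Injective x ∧ ∀ i, g (x i) = x (rot _ i)).card =
  ∏ s : Fin k, (((s : ℕ) + 1) ^ a s * (numLen g ((s : ℕ) + 1)).descFactorial (a s))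

/-- VL. Number of points in cycles of length `s`. -/
def S_VL : Prop := ∀ (V : Type) [Fintype V] [DecidableEq V] (g : Perm V) (s : ℕ), 1 ≤ s →
  (univ.filter fun v => cycleLen g v = s).card = s * numLen g s

/-! ### D. Factorial moments -/

/-- FM. The mixed factorial moments, all dimensions, all times `2 ≤ t`, all `L ≥ 3`. -/
def S_FM : Prop := ∀ (d : ℕ), 1 ≤ d → ∀ (C : Type) [Fintype C] [DecidableEq C] (l : C → ℕ),
  (∀ c, 1 ≤ l c) → ∃ (A : ℝ) (K : ℕ), 0 < A ∧ ∀ (L : ℕ) [NeZero L], 3 ≤ L → ∀ t : ℝ, 2 ≤ t →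
  |∑ x : Ix C l → Fin d → ZMod L with Function.Injective x,
      US (nnRate d L) t x (fun k => x (rot l k)) -
    ∏ c, ((L : ℝ) ^ d * gk L (l c * t) 0 ^ d)| ≤
  A * Real.log t ^ K * rr d L t * ((L : ℝ) ^ d * rr d L t) ^ Fintype.card C

/-! ### E. The return probability -/

/-- AS1. `gk L t 0 ~ 1 / √(4 π t)` for `1 ≪ t ≪ L²`. -/
def S_AS1 : Prop := ∀ ε : ℝ, 0 < ε → ∃ T : ℝ, 0 < T ∧ ∀ (L : ℕ) [NeZero L] (t : ℝ), T ≤ t →
  T * t ≤ (L : ℝ) ^ 2 → |gk L t 0 * Real.sqrt (4 * Real.pi * t) - 1| ≤ ε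

/-- AS2. `L * gk L t 0` at the diffusive scale: `t / L² → c`. -/
def S_AS2 : Prop := ∀ (c : ℝ), 0 < c → ∀ ε : ℝ, 0 < ε → ∃ δ : ℝ, 0 < δ ∧
  ∀ (L : ℕ) [NeZero L] (t : ℝ), 1 / δ ≤ (L : ℝ) → |t / (L : ℝ) ^ 2 - c| ≤ δ →
  |(L : ℝ) * gk L t 0 - ∑' k : ℤ, Real.exp (-(4 * Real.pi ^ 2 * c * (k : ℝ) ^ 2))| ≤ ε

open Filter Topology in
/-- POI. The method of factorial moments, for changing finite probability spaces. -/
def S_POI : Prop := ∀ (k : ℕ) (Ω : ℕ → Type) [∀ n, Fintype (Ω n)] (w : (n : ℕ) → Ω n → ℝ)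
  (N : (n : ℕ) → Ω n → Fin k → ℕ) (lam : Fin k → ℝ), (∀ n ω, 0 ≤ w n ω) →
  (∀ n, ∑ ω, w n ω = 1) →
  (∀ a : Fin k → ℕ, Tendsto (fun n => ∑ ω, w n ω * ∏ i, ((N n ω i).descFactorial (a i) : ℝ))
    atTop (𝓝 (∏ i, lam i ^ a i))) →
  ∀ a : Fin k → ℕ, Tendsto (fun n => ∑ ω, w n ω * (if ∀ i, N n ω i = a i then 1 else 0)) atTop
    (𝓝 (∏ i, (Real.exp (-(lam i)) * lam i ^ a i / (a i).factorial)))

end Pool.Agent.Helper47K9.SC
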